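import Mathlib

/-!
Self-adjoint (or skew-adjoint) elements for a positive involution: if a power of `P` commutes
with `Y` then `P ^ 2` commutes with `Y`, and an odd power commuting with `Y` forces `P` itself to
commute with `Y`.
-/

namespace Pool.Agent.H552R3.PC

/-- Data of a positive involution `τ` on a ring `A` with a trace `t` to an algebra `L` over an
ordered field `K`; `q x` is the value `t (τ x * x)`, which lies in `K` and is positive. -/
structure PosInv (K L A : Type*) [Field K] [LinearOrder K] [CommRing L] [Algebra K L]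
    [Ring A] where
  τ : A → A
  t : A →+ L
  q : A → K
  map_mul : ∀ x y, τ (x * y) = τ y * τ x
  map_sub : ∀ x y, τ (x - y) = τ x - τ y
  t_comm : ∀ x y, t (x * y) = t (y * x)
  nonneg : ∀ x, 0 ≤ q x
  anis : ∀ x, t (τ x * x) = 0 → x = 0
  q_zero : ∀ x, q x = 0 → x = 0
  q_eq : ∀ x, algebraMap K L (q x) = t (τ x * x)
  inj : Function.Injective (algebraMap K L)

variable {K L A : Type*} [Field K] [LinearOrder K] [IsStrictOrderedRing K] [CommRing L]
  [Algebra K L] [Ring A] (I : PosInv K L A)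

omit [IsStrictOrderedRing K] in
theorem PosInv.map_zero : I.τ 0 = 0 := by
  have := I.map_sub 0 0
  simpa using this

/-- `P` is symmetric or skew for the involution. -/
def PosInv.IsPM (P : A) : Prop := I.τ P = P ∨ I.τ P = -P

omit [IsStrictOrderedRing K] in
theorem left_step {P : A} (hP : I.IsPM P) (V : A) (h : P ^ 2 * V = 0) : P * V = 0 := by
  apply I.anis
  rw [I.map_mul]
  rcases hP with hP | hP
  · rw [hP, mul_assoc, ← mul_assoc P P V, ← pow_two, h, mul_zero, _root_.map_zero]
  · rw [hP, mul_assoc, neg_mul, ← mul_assoc P P V, ← pow_two, h, neg_zero, mul_zero,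
      _root_.map_zero]

omit [IsStrictOrderedRing K] in
theorem right_step {P : A} (hP : I.IsPM P) (V : A) (h : V * P ^ 2 = 0) : V * P = 0 := by
  apply I.anis
  rw [I.map_mul, mul_assoc, I.t_comm]
  rcases hP with hP | hP
  · rw [hP, mul_assoc, mul_assoc, ← pow_two, h, mul_zero, _root_.map_zero]
  · rw [hP, mul_assoc, mul_neg, mul_assoc, ← pow_two, h, neg_zero, mul_zero, _root_.map_zero]

omit [IsStrictOrderedRing K] in
theorem left_pow {P : A} (hP : I.IsPM P) (V : A) : ∀ m : ℕ, P ^ (m + 1) * V = 0 → P * V = 0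
  | 0, h => by simpa using h
  | m + 1, h => by
      refine left_pow hP V m ?_
      have h2 : P ^ 2 * (P ^ m * V) = 0 := by
        rw [← mul_assoc, ← pow_add, add_comm 2 m]; exact h
      have := left_step I hP _ h2
      rw [pow_succ', mul_assoc]; exact this

omit [IsStrictOrderedRing K] in
theorem right_pow {P : A} (hP : I.IsPM P) (V : A) : ∀ m : ℕ, V * P ^ (m + 1) = 0 → V * P = 0
  | 0, h => by simpa using h
  | m + 1, h => by
      refine right_pow hP V m ?_
      have h2 : (V * P ^ m) * P ^ 2 = 0 := by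
        rw [mul_assoc, ← pow_add]; exact h
      have := right_step I hP _ h2
      rw [pow_succ, ← mul_assoc]; exact this

omit [IsStrictOrderedRing K] in
theorem comm_of_annih {R : A} (hR : I.IsPM R) (Y : A) (h1 : R * (R * Y - Y * R) = 0)
    (h2 : (R * Y - Y * R) * R = 0) : R * Y - Y * R = 0 := by
  set Z := R * Y - Y * R with hZ
  apply I.anis
  have e1 : I.τ Z * R = 0 := by
    have := I.map_mul R Z
    rw [h1, I.map_zero] at this
    rcases hR with hR | hR
    · rw [hR] at this; exact this.symm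
    · rw [hR, mul_neg] at this; exact neg_eq_zero.mp this.symm
  have e2 : R * I.τ Z = 0 := by
    have := I.map_mul Z R
    rw [h2, I.map_zero] at this
    rcases hR with hR | hR
    · rw [hR] at this; exact this.symm
    · rw [hR, neg_mul] at this; exact neg_eq_zero.mp this.symm
  have e3' : ∀ T : A, T * Z = T * R * Y - T * Y * R := by
    intro T; rw [hZ, mul_sub, ← mul_assoc, ← mul_assoc]
  have e3 : I.τ Z * Z = I.τ Z * R * Y - I.τ Z * Y * R := e3' _
  rw [e3, e1, zero_mul, zero_sub, map_neg, I.t_comm (I.τ Z * Y) R, ← mul_assoc, e2, zero_mul,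
    _root_.map_zero, neg_zero]

omit [IsStrictOrderedRing K] in
theorem IsPM_pow_form {P : A} (hP : I.IsPM P) :
    ∃ δ : ℤ, (δ = 1 ∨ δ = -1) ∧ ∀ k : ℕ, I.τ 1 = 1 → I.τ (P ^ k) = (δ ^ k) • P ^ k := by
  rcases hP with hP | hP
  · refine ⟨1, Or.inl rfl, fun k h1 => ?_⟩
    induction k with
    | zero => simpa using h1
    | succ k ih => rw [pow_succ, I.map_mul, ih, hP, one_pow, one_smul, one_pow, one_smul,
        ← pow_succ', ← pow_succ]
  · refine ⟨-1, Or.inr rfl, fun k h1 => ?_⟩
    induction k with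
    | zero => simpa using h1
    | succ k ih =>
      rw [pow_succ, I.map_mul, ih, hP, ← pow_succ, pow_succ (-1 : ℤ) k, pow_succ' P k]
      rw [mul_smul_comm, neg_mul, mul_neg, mul_one, neg_smul, smul_neg]

/-- The square of `P` commutes with `Y` as soon as a power of `P` does. -/
theorem sq_comm {P : A} (hP : I.IsPM P) (h1 : I.τ 1 = 1) (Y : A) (ν : ℕ) (hν : 0 < ν)
    (h : P ^ ν * Y = Y * P ^ ν) : P ^ 2 * Y = Y * P ^ 2 := by
  obtain ⟨m, rfl⟩ : ∃ m, ν = m + 1 := ⟨ν - 1, by omega⟩
  obtain ⟨δ, hδ, hpow⟩ := IsPM_pow_form I hP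
  set Z := P ^ 2 * Y - Y * P ^ 2 with hZ
  have htel : ∑ k ∈ Finset.range (m + 1), P ^ (2 * k) * Z * P ^ (2 * (m - k)) = 0 := by
    have e : ∀ k ∈ Finset.range (m + 1), P ^ (2 * k) * Z * P ^ (2 * (m - k)) =
        P ^ (2 * (k + 1)) * Y * P ^ (2 * (m + 1 - (k + 1))) -
          P ^ (2 * k) * Y * P ^ (2 * (m + 1 - k)) := by
      intro k hk
      have hk' : k ≤ m := by
        have := Finset.mem_range.mp hk; omega
      have a1 : m + 1 - (k + 1) = m - k := by omega
      have a2 : 2 * (m + 1 - k) = 2 + 2 * (m - k) := by omega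
      rw [a1, a2, hZ, mul_add 2 k 1, mul_one, pow_add, pow_add P 2]
      noncomm_ring
    rw [Finset.sum_congr rfl e,
      Finset.sum_range_sub (fun k => P ^ (2 * k) * Y * P ^ (2 * (m + 1 - k)))]
    have b : P ^ (2 * (m + 1)) * Y = Y * P ^ (2 * (m + 1)) := by
      rw [two_mul, pow_add, mul_assoc, h, ← mul_assoc, h, mul_assoc]
    simp [b]
  have hterm : ∀ k ∈ Finset.range (m + 1),
      algebraMap K L (I.q (P ^ k * Z * P ^ (m - k))) =
        (δ ^ m) • I.t (I.τ Z * (P ^ (2 * k) * Z * P ^ (2 * (m - k)))) := by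
    intro k hk
    have hk' : k ≤ m := by
      have := Finset.mem_range.mp hk; omega
    have hs : δ ^ m = δ ^ (m - k) * δ ^ k := by
      rw [← pow_add]; congr 1; omega
    rw [I.q_eq, I.map_mul, I.map_mul, hpow _ h1, hpow _ h1]
    have e1 : δ ^ (m - k) • P ^ (m - k) * (I.τ Z * δ ^ k • P ^ k) * (P ^ k * Z * P ^ (m - k)) =
        (δ ^ m) • (P ^ (m - k) * (I.τ Z * P ^ (2 * k) * Z * P ^ (m - k))) := by
      rw [hs, two_mul, pow_add]
      simp only [smul_mul_assoc, mul_smul_comm, smul_smul, mul_assoc]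
      rw [mul_comm (δ ^ k)]
    rw [e1, map_zsmul, I.t_comm, two_mul (m - k), pow_add]
    simp only [mul_assoc]
  have hsum : ∑ k ∈ Finset.range (m + 1), I.q (P ^ k * Z * P ^ (m - k)) = 0 := by
    apply I.inj
    rw [map_sum, Finset.sum_congr rfl hterm, ← Finset.smul_sum, ← map_sum, ← Finset.mul_sum,
      htel, mul_zero, _root_.map_zero, smul_zero, _root_.map_zero]
  have hall := (Finset.sum_eq_zero_iff_of_nonneg (fun k _ => I.nonneg _)).mp hsum
  have hl : P ^ m * Z = 0 := by
    have := I.q_zero _ (hall m (by simp))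
    simpa using this
  have hr : Z * P ^ m = 0 := by
    have := I.q_zero _ (hall 0 (by simp))
    simpa using this
  rcases Nat.eq_zero_or_pos m with rfl | hm
  · have h' : P * Y = Y * P := by simpa using h
    rw [pow_two, mul_assoc, h', ← mul_assoc, h', mul_assoc]
  · obtain ⟨k, rfl⟩ : ∃ k, m = k + 1 := ⟨m - 1, by omega⟩
    have hl' := left_pow I hP Z k hl
    have hr' := right_pow I hP Z k hr
    have hR : I.IsPM (P ^ 2) := by
      left
      rw [pow_two, I.map_mul]
      rcases hP with hP | hP <;> rw [hP]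
      simp
    have := comm_of_annih I hR Y (by rw [← hZ, pow_two, mul_assoc, hl', mul_zero])
      (by rw [← hZ, pow_two, ← mul_assoc, hr', zero_mul])
    exact sub_eq_zero.mp this

/-- `P` commutes with `Y` as soon as an odd power of `P` does. -/
theorem odd_comm {P : A} (hP : I.IsPM P) (h1 : I.τ 1 = 1) (Y : A) (ν : ℕ) (hν : Odd ν)
    (h : P ^ ν * Y = Y * P ^ ν) : P * Y = Y * P := by
  have h2 := sq_comm I hP h1 Y ν hν.pos h
  obtain ⟨m, rfl⟩ := hν
  rcases Nat.eq_zero_or_pos m with rfl | hm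
  · simpa using h
  · obtain ⟨k, rfl⟩ : ∃ k, m = k + 1 := ⟨m - 1, by omega⟩
    have hc : Commute (P ^ (2 * (k + 1))) Y := by
      rw [pow_mul]; exact Commute.pow_left h2 _
    have hl : P ^ (2 * k + 1 + 1) * (P * Y - Y * P) = 0 := by
      have e : 2 * k + 1 + 1 = 2 * (k + 1) := by ring
      rw [e, mul_sub, ← mul_assoc, ← pow_succ, h, ← mul_assoc, hc.eq, mul_assoc, ← pow_succ,
        sub_self]
    have hr : (P * Y - Y * P) * P ^ (2 * k + 1 + 1) = 0 := by
      have e : 2 * k + 1 + 1 = 2 * (k + 1) := by ring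
      rw [e, sub_mul, mul_assoc, mul_assoc, ← hc.eq, ← mul_assoc, ← pow_succ', h,
        sub_self]
    exact sub_eq_zero.mp (comm_of_annih I hP Y (left_pow I hP _ _ hl) (right_pow I hP _ _ hr))

end Pool.Agent.H552R3.PC
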