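import Mathlib
import Pool.Agent.H552R3.PC.Pos

/-!
The positive involutions `Z ↦ H⁻¹ Z^* H` on `M_n(K(i))`, `K` an ordered field, where `H` is an
invertible sum of hermitian squares.
-/

namespace Pool.Agent.H552R3.PC

open Matrix

variable {K : Type*} [Field K] [LinearOrder K] [IsStrictOrderedRing K]

/-- The field `K(i)`. -/
abbrev KI (K : Type*) [Field K] := QuadraticAlgebra K (-1) 0

omit [LinearOrder K] [IsStrictOrderedRing K] in
theorem norm_eq (z : KI K) : z.norm = z.re ^ 2 + z.im ^ 2 := by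
  rw [QuadraticAlgebra.norm_def]; ring

theorem norm_nonneg' (z : KI K) : 0 ≤ z.norm := by
  rw [norm_eq]; positivity

theorem eq_zero_of_norm (z : KI K) (h : z.norm = 0) : z = 0 := by
  rw [norm_eq] at h
  have h1 := sq_nonneg z.re
  have h2 := sq_nonneg z.im
  have h3 : z.re ^ 2 = 0 := by linarith
  have h4 : z.im ^ 2 = 0 := by linarith
  exact QuadraticAlgebra.ext (by simpa using h3) (by simpa using h4)

instance domKI : IsDomain (KI K) := by
  have : NoZeroDivisors (KI K) := ⟨by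
    intro a b hab
    have : a.norm * b.norm = 0 := by rw [← map_mul, hab]; simp
    rcases mul_eq_zero.mp this with h | h
    · exact Or.inl (eq_zero_of_norm _ h)
    · exact Or.inr (eq_zero_of_norm _ h)⟩
  exact NoZeroDivisors.to_isDomain _

omit [LinearOrder K] [IsStrictOrderedRing K] in
theorem algMap_inj : Function.Injective (algebraMap K (KI K)) := by
  intro a b h
  have := congrArg QuadraticAlgebra.re h
  simpa using this

variable {n r : ℕ}

/-- The value of the trace form, as an element of `K`. -/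
def qN (M : Matrix (Fin n) (Fin n) (KI K)) : K := ∑ a, ∑ b, (M a b).norm

omit [LinearOrder K] [IsStrictOrderedRing K] in
theorem qN_eq (M : Matrix (Fin n) (Fin n) (KI K)) :
    algebraMap K (KI K) (qN M) = trace (M * Mᴴ) := by
  simp only [qN, map_sum, trace, diag_apply, mul_apply, conjTranspose_apply,
    QuadraticAlgebra.algebraMap_norm_eq_mul_star]

theorem qN_nonneg (M : Matrix (Fin n) (Fin n) (KI K)) : 0 ≤ qN M :=
  Finset.sum_nonneg fun _ _ => Finset.sum_nonneg fun _ _ => norm_nonneg' _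

theorem qN_zero (M : Matrix (Fin n) (Fin n) (KI K)) (h : qN M = 0) : M = 0 := by
  ext1 a b
  have h1 := (Finset.sum_eq_zero_iff_of_nonneg (fun a _ =>
    Finset.sum_nonneg fun b _ => norm_nonneg' (M a b))).mp h a (Finset.mem_univ _)
  have h2 := (Finset.sum_eq_zero_iff_of_nonneg (fun b _ => norm_nonneg' (M a b))).mp h1 b
    (Finset.mem_univ _)
  exact eq_zero_of_norm _ h2

/-- The positive involution attached to an invertible sum of hermitian squares. -/
noncomputable def posInv (Q : Fin r → Matrix (Fin n) (Fin n) (KI K))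
    (G : Matrix (Fin n) (Fin n) (KI K))
    (hHG : (∑ j, (Q j)ᴴ * Q j) * G = 1) (hGH : G * (∑ j, (Q j)ᴴ * Q j) = 1) :
    PosInv K (KI K) (Matrix (Fin n) (Fin n) (KI K)) := by
  set H := ∑ j, (Q j)ᴴ * Q j with hH
  have hHs : Hᴴ = H := by
    rw [hH, conjTranspose_sum]
    refine Finset.sum_congr rfl fun j _ => ?_
    rw [conjTranspose_mul, conjTranspose_conjTranspose]
  have hGs : Gᴴ = G := by
    have h1 : Gᴴ * H = 1 := by
      have := congrArg conjTranspose hHG
      rw [conjTranspose_mul, hHs, conjTranspose_one] at this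
      exact this
    calc Gᴴ = Gᴴ * (H * G) := by rw [hHG, mul_one]
      _ = G := by rw [← mul_assoc, h1, one_mul]
  have key : ∀ Z : Matrix (Fin n) (Fin n) (KI K),
      algebraMap K (KI K) (∑ j, ∑ k, qN (Q k * Z * G * (Q j)ᴴ)) = trace (G * Zᴴ * H * Z) := by
    intro Z
    have e1 : ∀ j k, algebraMap K (KI K) (qN (Q k * Z * G * (Q j)ᴴ)) =
        trace (G * ((Q j)ᴴ * Q j) * G * Zᴴ * ((Q k)ᴴ * Q k) * Z) := by
      intro j k
      rw [qN_eq]
      simp only [conjTranspose_mul, conjTranspose_conjTranspose, hGs]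
      have : Q k * Z * G * (Q j)ᴴ * (Q j * (G * (Zᴴ * (Q k)ᴴ))) =
          (Q k * Z) * (G * (Q j)ᴴ * (Q j * (G * (Zᴴ * (Q k)ᴴ)))) := by
        simp only [mul_assoc]
      rw [this, trace_mul_comm]
      simp only [mul_assoc]
    have e2 : G * Zᴴ * H * Z = ∑ j, ∑ k, G * ((Q j)ᴴ * Q j) * G * Zᴴ * ((Q k)ᴴ * Q k) * Z := by
      have : ∀ j, ∑ k, G * ((Q j)ᴴ * Q j) * G * Zᴴ * ((Q k)ᴴ * Q k) * Z =
          G * ((Q j)ᴴ * Q j) * (G * Zᴴ * H * Z) := by
        intro j
        rw [hH, Finset.mul_sum, Finset.sum_mul, Finset.mul_sum]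
        refine Finset.sum_congr rfl fun k _ => ?_
        simp only [mul_assoc]
      rw [Finset.sum_congr rfl fun j _ => this j, ← Finset.sum_mul, ← Finset.mul_sum, ← hH, hGH,
        one_mul]
    rw [map_sum, e2, trace_sum]
    refine Finset.sum_congr rfl fun j _ => ?_
    rw [map_sum, trace_sum]
    exact Finset.sum_congr rfl fun k _ => e1 j k
  have qz : ∀ Z : Matrix (Fin n) (Fin n) (KI K),
      (∑ j, ∑ k, qN (Q k * Z * G * (Q j)ᴴ)) = 0 → Z = 0 := by
    intro Z hZ
    have h0 : ∀ j k, Q k * Z * G * (Q j)ᴴ = 0 := by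
      intro j k
      have h1 := (Finset.sum_eq_zero_iff_of_nonneg (fun j _ =>
        Finset.sum_nonneg fun k _ => qN_nonneg (Q k * Z * G * (Q j)ᴴ))).mp hZ j
          (Finset.mem_univ _)
      have h2 := (Finset.sum_eq_zero_iff_of_nonneg
        (fun k _ => qN_nonneg (Q k * Z * G * (Q j)ᴴ))).mp h1 k (Finset.mem_univ _)
      exact qN_zero _ h2
    have h3 : H * Z * G * H = 0 := by
      have : H * Z * G * H = ∑ j, ∑ k, (Q k)ᴴ * (Q k * Z * G * (Q j)ᴴ) * Q j := by
        have e : ∀ j, ∑ k, (Q k)ᴴ * (Q k * Z * G * (Q j)ᴴ) * Q j =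
            H * Z * G * ((Q j)ᴴ * Q j) := by
          intro j
          rw [hH, Finset.sum_mul, Finset.sum_mul, Finset.sum_mul]
          refine Finset.sum_congr rfl fun k _ => ?_
          simp only [mul_assoc]
        rw [Finset.sum_congr rfl fun j _ => e j, ← Finset.mul_sum]
      rw [this]
      refine Finset.sum_eq_zero fun j _ => Finset.sum_eq_zero fun k _ => ?_
      rw [h0, mul_zero, zero_mul]
    have h4 : H * Z = 0 := by
      rw [mul_assoc (H * Z), hGH, mul_one] at h3
      exact h3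
    calc Z = G * H * Z := by rw [hGH, one_mul]
      _ = 0 := by rw [mul_assoc, h4, mul_zero]
  exact
    { τ := fun Z => G * Zᴴ * H
      t := traceAddMonoidHom (Fin n) (KI K)
      q := fun Z => ∑ j, ∑ k, qN (Q k * Z * G * (Q j)ᴴ)
      map_mul := by
        intro x y
        show G * (x * y)ᴴ * H = G * yᴴ * H * (G * xᴴ * H)
        rw [conjTranspose_mul]
        have : G * yᴴ * H * (G * xᴴ * H) = G * yᴴ * (H * G) * xᴴ * H := by
          simp only [mul_assoc]
        rw [this, hHG, mul_one]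
        simp only [mul_assoc]
      map_sub := by
        intro x y
        show G * (x - y)ᴴ * H = G * xᴴ * H - G * yᴴ * H
        rw [conjTranspose_sub, mul_sub, sub_mul]
      t_comm := fun x y => trace_mul_comm x y
      nonneg := fun x => Finset.sum_nonneg fun _ _ => Finset.sum_nonneg fun _ _ => qN_nonneg _
      anis := by
        intro x hx
        apply qz
        apply algMap_inj
        rw [key, _root_.map_zero]
        exact hx
      q_zero := qz
      q_eq := fun x => key x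
      inj := algMap_inj }

theorem posInv_τ (Q : Fin r → Matrix (Fin n) (Fin n) (KI K))
    (G : Matrix (Fin n) (Fin n) (KI K))
    (hHG : (∑ j, (Q j)ᴴ * Q j) * G = 1) (hGH : G * (∑ j, (Q j)ᴴ * Q j) = 1)
    (Z : Matrix (Fin n) (Fin n) (KI K)) :
    (posInv Q G hHG hGH).τ Z = G * Zᴴ * (∑ j, (Q j)ᴴ * Q j) := rfl

/-- The matrix statement: `P^* H = ± H P` with `H` an invertible sum of hermitian squares. -/
theorem matrix_key (Q : Fin r → Matrix (Fin n) (Fin n) (KI K))
    (hU : IsUnit (∑ j, (Q j)ᴴ * Q j)) (P : Matrix (Fin n) (Fin n) (KI K))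
    (hP : Pᴴ * (∑ j, (Q j)ᴴ * Q j) = (∑ j, (Q j)ᴴ * Q j) * P ∨
      Pᴴ * (∑ j, (Q j)ᴴ * Q j) = -((∑ j, (Q j)ᴴ * Q j) * P))
    (Y : Matrix (Fin n) (Fin n) (KI K)) (ν : ℕ) (hν : 0 < ν) (h : P ^ ν * Y = Y * P ^ ν) :
    P ^ 2 * Y = Y * P ^ 2 ∧ (Odd ν → P * Y = Y * P) := by
  obtain ⟨u, hu⟩ := hU
  have hHG : (∑ j, (Q j)ᴴ * Q j) * (↑u⁻¹ : Matrix (Fin n) (Fin n) (KI K)) = 1 := by
    rw [← hu]; exact u.mul_inv
  have hGH : (↑u⁻¹ : Matrix (Fin n) (Fin n) (KI K)) * (∑ j, (Q j)ᴴ * Q j) = 1 := by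
    rw [← hu]; exact u.inv_mul
  have h1 : (posInv Q _ hHG hGH).τ 1 = 1 := by
    rw [posInv_τ, conjTranspose_one, mul_one, hGH]
  have hPM : (posInv Q _ hHG hGH).IsPM P := by
    rcases hP with hP | hP
    · left; rw [posInv_τ, mul_assoc, hP, ← mul_assoc, hGH, one_mul]
    · right; rw [posInv_τ, mul_assoc, hP, mul_neg, ← mul_assoc, hGH, one_mul]
  exact ⟨sq_comm _ hPM h1 Y ν hν h, fun ho => odd_comm _ hPM h1 Y ν ho h⟩

end Pool.Agent.H552R3.PC
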