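import Mathlib
import Pool.Agent.H552R3.PC.Mat

/-!
Specialisation arguments: from an ordered field `K` to hermitian matrices over `K(i)` and back.
-/

namespace Pool.Agent.H552R3.PC

open Matrix Polynomial

variable {K : Type*} [Field K] {σ : Type*} {n r : ℕ}

/-- The `K`-linear anti-endomorphism of the free algebra with `x_i ↦ ε_i x_i`: it reverses every
word and multiplies it by the product of the `ε_i` of its letters. -/
noncomputable def rev (ε : σ → K) (f : FreeAlgebra K σ) : FreeAlgebra K σ :=
  MulOpposite.unop (FreeAlgebra.lift K (fun i => MulOpposite.op (ε i • FreeAlgebra.ι K i)) f)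

theorem rev_mul (ε : σ → K) (f g : FreeAlgebra K σ) : rev ε (f * g) = rev ε g * rev ε f := by
  simp [rev]

theorem rev_add (ε : σ → K) (f g : FreeAlgebra K σ) : rev ε (f + g) = rev ε f + rev ε g := by
  simp [rev]

theorem rev_algebraMap (ε : σ → K) (c : K) :
    rev ε (algebraMap K (FreeAlgebra K σ) c) = algebraMap K (FreeAlgebra K σ) c := by
  simp only [rev, AlgHom.commutes]
  rfl

theorem rev_ι (ε : σ → K) (i : σ) :
    rev ε (FreeAlgebra.ι K i) = ε i • FreeAlgebra.ι K i := by
  simp [rev]

theorem lift_map {A B : Type*} [Ring A] [Algebra K A] [Ring B] [Algebra K B] (ψ : A →ₐ[K] B)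
    (X : σ → A) (f : FreeAlgebra K σ) :
    ψ (FreeAlgebra.lift K X f) = FreeAlgebra.lift K (fun i => ψ (X i)) f := by
  have : ψ.comp (FreeAlgebra.lift K X) = FreeAlgebra.lift K (fun i => ψ (X i)) := by
    apply FreeAlgebra.hom_ext
    funext i
    simp
  exact DFunLike.congr_fun this f

theorem conjTranspose_lift (ε : σ → K) (W : σ → Matrix (Fin n) (Fin n) (KI K))
    (hW : ∀ i, (W i)ᴴ = ε i • W i) (f : FreeAlgebra K σ) :
    (FreeAlgebra.lift K W f)ᴴ = FreeAlgebra.lift K W (rev ε f) := by
  induction f using FreeAlgebra.induction with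
  | grade0 c =>
    rw [rev_algebraMap, AlgHom.commutes]
    ext1 a b
    simp only [conjTranspose_apply, algebraMap_matrix_apply]
    by_cases h : a = b
    · subst h
      simp only [if_true]
      ext <;> simp
    · rw [if_neg h, if_neg (fun e => h e.symm), star_zero]
  | grade1 i => rw [rev_ι, map_smul, FreeAlgebra.lift_ι_apply, hW]
  | mul a b ha hb => rw [rev_mul, map_mul, map_mul, conjTranspose_mul, ha, hb]
  | add a b ha hb => rw [rev_add, map_add, map_add, conjTranspose_add, ha, hb]

variable [LinearOrder K] [IsStrictOrderedRing K]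

theorem infK : Infinite K := by
  have : CharZero K := IsStrictOrderedRing.toCharZero
  exact CharZero.infinite K

theorem mat_zero_of_K (F : Matrix (Fin n) (Fin n) K[X])
    (h : ∀ u : K, (Polynomial.aeval u).mapMatrix F = 0) : F = 0 := by
  have := infK (K := K)
  ext1 a b
  apply Polynomial.funext
  intro u
  have := congrFun (congrFun (h u) a) b
  simpa [AlgHom.mapMatrix_apply, Polynomial.coe_aeval_eq_eval] using this

/-- The element `t i` of `K(i)`. -/
def ti (t : K) : KI K := ⟨0, t⟩

omit [LinearOrder K] [IsStrictOrderedRing K] in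
theorem ti_inj : Function.Injective (ti (K := K)) := by
  intro a b h
  exact congrArg QuadraticAlgebra.im h

theorem mat_zero_of_KI (d : K[X]) (hd : d ≠ 0) (F : Matrix (Fin n) (Fin n) K[X])
    (h : ∀ t : K, Polynomial.aeval (ti t) d ≠ 0 → (Polynomial.aeval (ti t)).mapMatrix F = 0) :
    F = 0 := by
  have := infK (K := K)
  ext1 a b
  have h1 : ∀ t : K, Polynomial.aeval (ti t) (d * F a b) = 0 := by
    intro t
    rw [map_mul]
    by_cases hz : Polynomial.aeval (ti t) d = 0
    · rw [hz, zero_mul]
    · have := congrFun (congrFun (h t hz) a) b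
      have h2 : Polynomial.aeval (ti t) (F a b) = 0 := by
        simpa [AlgHom.mapMatrix_apply] using this
      rw [h2, mul_zero]
  have h2 : (d * F a b).map (algebraMap K (KI K)) = 0 := by
    apply Polynomial.eq_zero_of_infinite_isRoot
    refine Set.infinite_of_injective_forall_mem ti_inj (fun t => ?_)
    show Polynomial.IsRoot _ _
    rw [Polynomial.IsRoot.def, Polynomial.eval_map_algebraMap]
    exact h1 t
  have h3 : d * F a b = 0 := by
    apply Polynomial.map_injective _ (algMap_inj (K := K))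
    rw [h2, Polynomial.map_zero]
  rcases mul_eq_zero.mp h3 with h4 | h4
  · exact absurd h4 hd
  · exact h4

/-- The key step: at a point where `a` is invertible. -/
theorem step (ε : σ → K) (hε : ∀ i, ε i = 1 ∨ ε i = -1) (f : FreeAlgebra K σ)
    (q : Fin r → FreeAlgebra K σ)
    (hsym : (∀ X : σ → Matrix (Fin n) (Fin n) K,
        FreeAlgebra.lift K X (rev ε f * ∑ j, rev ε (q j) * q j) =
          FreeAlgebra.lift K X ((∑ j, rev ε (q j) * q j) * f)) ∨
      (∀ X : σ → Matrix (Fin n) (Fin n) K,
        FreeAlgebra.lift K X (rev ε f * ∑ j, rev ε (q j) * q j) =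
          -FreeAlgebra.lift K X ((∑ j, rev ε (q j) * q j) * f)))
    (ν : ℕ) (hν : 0 < ν)
    (h : ∀ X : σ → Matrix (Fin n) (Fin n) K, ∀ Z : Matrix (Fin n) (Fin n) K,
      FreeAlgebra.lift K X f ^ ν * Z = Z * FreeAlgebra.lift K X f ^ ν)
    (X : σ → Matrix (Fin n) (Fin n) K)
    (hX : (FreeAlgebra.lift K X (∑ j, rev ε (q j) * q j)).det ≠ 0)
    (Y : Matrix (Fin n) (Fin n) K) :
    FreeAlgebra.lift K X f ^ 2 * Y = Y * FreeAlgebra.lift K X f ^ 2 ∧
      (Odd ν → FreeAlgebra.lift K X f * Y = Y * FreeAlgebra.lift K X f) := by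
  have := infK (K := K)
  set a : FreeAlgebra K σ := ∑ j, rev ε (q j) * q j with ha
  have h2K : (2 : K) ≠ 0 := two_ne_zero
  set S : σ → Matrix (Fin n) (Fin n) K := fun i => (2 : K)⁻¹ • (X i + ε i • (X i)ᵀ) with hS
  set T : σ → Matrix (Fin n) (Fin n) K := fun i => (2 : K)⁻¹ • (X i - ε i • (X i)ᵀ) with hT
  set W : σ → Matrix (Fin n) (Fin n) K[X] := fun i =>
    Matrix.of fun b c => C (S i b c) + Polynomial.X * C (T i b c) with hW
  set YP : Matrix (Fin n) (Fin n) K[X] := Y.map C with hYP
  -- values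
  have hspec : ∀ {B : Type _} [CommRing B] [Algebra K B] (u : B) (g : FreeAlgebra K σ),
      (Polynomial.aeval u : K[X] →ₐ[K] B).mapMatrix (FreeAlgebra.lift K W g) =
        FreeAlgebra.lift K (fun i => (Polynomial.aeval u : K[X] →ₐ[K] B).mapMatrix (W i)) g :=
    fun u g => lift_map _ _ _
  have hW1 : (fun i => (Polynomial.aeval (1 : K) : K[X] →ₐ[K] K).mapMatrix (W i)) = X := by
    funext i
    ext b c
    simp only [hW, hS, hT, AlgHom.mapMatrix_apply, Matrix.map_apply, Matrix.of_apply, map_add,
      map_mul, Polynomial.aeval_C, Polynomial.aeval_X, Matrix.smul_apply, Matrix.add_apply,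
      Matrix.sub_apply, Matrix.transpose_apply, smul_eq_mul, Algebra.algebraMap_self_apply,
      one_mul]
    field_simp
    ring
  have hY1 : (Polynomial.aeval (1 : K) : K[X] →ₐ[K] K).mapMatrix YP = Y := by
    ext b c
    simp [hYP]
  have hWi : ∀ t : K, ∀ i, ((Polynomial.aeval (ti t) : K[X] →ₐ[K] KI K).mapMatrix (W i))ᴴ =
      ε i • (Polynomial.aeval (ti t) : K[X] →ₐ[K] KI K).mapMatrix (W i) := by
    intro t i
    ext1 b c
    simp only [hW, hS, hT, AlgHom.mapMatrix_apply, Matrix.map_apply, Matrix.of_apply, map_add,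
      map_mul, Polynomial.aeval_C, Polynomial.aeval_X, Matrix.smul_apply, Matrix.add_apply,
      Matrix.sub_apply, Matrix.transpose_apply, smul_eq_mul, conjTranspose_apply]
    rcases hε i with e | e <;> rw [e] <;> ext <;> simp [ti] <;>
      first | ring1 | (left; ring1)
  -- the power commutes over K[X]
  have hpow : FreeAlgebra.lift K W f ^ ν * YP - YP * FreeAlgebra.lift K W f ^ ν = 0 := by
    apply mat_zero_of_K
    intro u
    rw [map_sub, map_mul, map_mul, map_pow, hspec]
    have e : (Polynomial.aeval u : K[X] →ₐ[K] K).mapMatrix YP = Y := by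
      ext b c
      simp [hYP]
    rw [e, h, sub_self]
  -- symmetry over K[X]
  have hsymW : FreeAlgebra.lift K W (rev ε f * a) = FreeAlgebra.lift K W (a * f) ∨
      FreeAlgebra.lift K W (rev ε f * a) = -FreeAlgebra.lift K W (a * f) := by
    rcases hsym with hs | hs
    · left
      rw [← sub_eq_zero]
      apply mat_zero_of_K
      intro u
      rw [map_sub, hspec, hspec, hs, sub_self]
    · right
      rw [eq_neg_iff_add_eq_zero]
      apply mat_zero_of_K
      intro u
      rw [map_add, hspec, hspec, hs, neg_add_cancel]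
  set d : K[X] := (FreeAlgebra.lift K W a).det with hd
  have hd0 : d ≠ 0 := by
    intro h0
    have e := congrArg (Polynomial.aeval (1 : K)) h0
    rw [hd, AlgHom.map_det, hspec, hW1, map_zero] at e
    exact hX e
  -- the statement at t i
  have hmain : ∀ t : K, Polynomial.aeval (ti t) d ≠ 0 →
      (Polynomial.aeval (ti t) : K[X] →ₐ[K] KI K).mapMatrix
        (FreeAlgebra.lift K W f ^ 2 * YP - YP * FreeAlgebra.lift K W f ^ 2) = 0 ∧
      (Odd ν → (Polynomial.aeval (ti t) : K[X] →ₐ[K] KI K).mapMatrix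
        (FreeAlgebra.lift K W f * YP - YP * FreeAlgebra.lift K W f) = 0) := by
    intro t ht
    set ψ := (Polynomial.aeval (ti t) : K[X] →ₐ[K] KI K).mapMatrix (m := Fin n) with hψ
    set V : σ → Matrix (Fin n) (Fin n) (KI K) := fun i => ψ (W i) with hV
    have hsp : ∀ g, ψ (FreeAlgebra.lift K W g) = FreeAlgebra.lift K V g := fun g => hspec _ _
    have hct : ∀ g, (FreeAlgebra.lift K V g)ᴴ = FreeAlgebra.lift K V (rev ε g) :=
      fun g => conjTranspose_lift ε V (hWi t) g
    have hH : FreeAlgebra.lift K V a =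
        ∑ j, (FreeAlgebra.lift K V (q j))ᴴ * FreeAlgebra.lift K V (q j) := by
      rw [ha, map_sum]
      exact Finset.sum_congr rfl fun j _ => by rw [map_mul, hct]
    have hU : IsUnit (∑ j, (FreeAlgebra.lift K V (q j))ᴴ * FreeAlgebra.lift K V (q j)) := by
      rw [← hH, Matrix.isUnit_iff_isUnit_det, QuadraticAlgebra.isUnit_iff_norm_isUnit,
        isUnit_iff_ne_zero]
      intro hz
      apply ht
      rw [hd, AlgHom.map_det]
      have := eq_zero_of_norm _ hz
      rw [← this, ← hsp]
    have hPs := hsymW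
    have hP : (FreeAlgebra.lift K V f)ᴴ *
          (∑ j, (FreeAlgebra.lift K V (q j))ᴴ * FreeAlgebra.lift K V (q j)) =
          (∑ j, (FreeAlgebra.lift K V (q j))ᴴ * FreeAlgebra.lift K V (q j)) *
            FreeAlgebra.lift K V f ∨
        (FreeAlgebra.lift K V f)ᴴ *
          (∑ j, (FreeAlgebra.lift K V (q j))ᴴ * FreeAlgebra.lift K V (q j)) =
          -((∑ j, (FreeAlgebra.lift K V (q j))ᴴ * FreeAlgebra.lift K V (q j)) *
            FreeAlgebra.lift K V f) := by
      rw [← hH, hct, ← map_mul, ← map_mul, ← hsp, ← hsp]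
      rcases hPs with hs | hs
      · left; rw [hs]
      · right; rw [hs, map_neg]
    have hcomm : FreeAlgebra.lift K V f ^ ν * ψ YP = ψ YP * FreeAlgebra.lift K V f ^ ν := by
      have e := congrArg ψ hpow
      rw [map_sub, map_mul, map_mul, map_pow, hsp, map_zero] at e
      exact sub_eq_zero.mp e
    have hk := matrix_key _ hU _ hP (ψ YP) ν hν hcomm
    refine ⟨?_, fun ho => ?_⟩
    · rw [map_sub, map_mul, map_mul, map_pow, hsp, hk.1, sub_self]
    · rw [map_sub, map_mul, map_mul, hsp, hk.2 ho, sub_self]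
  constructor
  · have hz := mat_zero_of_KI d hd0 _ (fun t ht => (hmain t ht).1)
    have e := congrArg ((Polynomial.aeval (1 : K) : K[X] →ₐ[K] K).mapMatrix (m := Fin n)) hz
    rw [map_sub, map_mul, map_mul, map_pow, hspec, hW1, hY1, map_zero] at e
    exact sub_eq_zero.mp e
  · intro ho
    have hz := mat_zero_of_KI d hd0 _ (fun t ht => (hmain t ht).2 ho)
    have e := congrArg ((Polynomial.aeval (1 : K) : K[X] →ₐ[K] K).mapMatrix (m := Fin n)) hz
    rw [map_sub, map_mul, map_mul, hspec, hW1, hY1, map_zero] at e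
    exact sub_eq_zero.mp e

end Pool.Agent.H552R3.PC
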