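import Mathlib
import Pool.Agent.H552R3.PC.Spec

/-!
Generic matrices: removing the invertibility condition; Lie polynomials.
-/

namespace Pool.Agent.H552R3.PC

open Matrix

variable {K : Type*} [Field K] {σ : Type*} {n r : ℕ}

theorem generic [Infinite K] (a g : FreeAlgebra K σ)
    (h0 : ∃ X : σ → Matrix (Fin n) (Fin n) K, (FreeAlgebra.lift K X a).det ≠ 0)
    (h : ∀ X : σ → Matrix (Fin n) (Fin n) K, (FreeAlgebra.lift K X a).det ≠ 0 →
      ∀ Y, FreeAlgebra.lift K X g * Y = Y * FreeAlgebra.lift K X g)
    (X : σ → Matrix (Fin n) (Fin n) K) (Y : Matrix (Fin n) (Fin n) K) :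
    FreeAlgebra.lift K X g * Y = Y * FreeAlgebra.lift K X g := by
  set G : σ → Matrix (Fin n) (Fin n) (MvPolynomial (σ × Fin n × Fin n) K) := fun i =>
    Matrix.of fun b c => MvPolynomial.X (i, b, c) with hG
  set YP : Matrix (Fin n) (Fin n) (MvPolynomial (σ × Fin n × Fin n) K) :=
    Y.map MvPolynomial.C with hYP
  have hsp : ∀ (x : σ × Fin n × Fin n → K) (u : FreeAlgebra K σ),
      (MvPolynomial.aeval x : MvPolynomial (σ × Fin n × Fin n) K →ₐ[K] K).mapMatrix
        (FreeAlgebra.lift K G u) =
      FreeAlgebra.lift K (fun i => Matrix.of fun b c => x (i, b, c)) u := by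
    intro x u
    rw [lift_map]
    congr 2
    funext i
    ext b c
    simp [hG]
  have hspY : ∀ (x : σ × Fin n × Fin n → K),
      (MvPolynomial.aeval x : MvPolynomial (σ × Fin n × Fin n) K →ₐ[K] K).mapMatrix YP = Y := by
    intro x
    ext b c
    simp [hYP]
  set D := (FreeAlgebra.lift K G a).det with hD
  have hDx : ∀ x : σ × Fin n × Fin n → K, MvPolynomial.aeval x D =
      (FreeAlgebra.lift K (fun i => Matrix.of fun b c => x (i, b, c)) a).det := by
    intro x
    rw [hD, AlgHom.map_det, hsp]
  have hD0 : D ≠ 0 := by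
    obtain ⟨X0, hX0⟩ := h0
    intro hz
    apply hX0
    have e := hDx (fun p => X0 p.1 p.2.1 p.2.2)
    rw [hz, map_zero] at e
    exact e.symm
  have hE : FreeAlgebra.lift K G g * YP - YP * FreeAlgebra.lift K G g = 0 := by
    ext1 b c
    have hprod : D * (FreeAlgebra.lift K G g * YP - YP * FreeAlgebra.lift K G g) b c = 0 := by
      apply MvPolynomial.funext
      intro x
      rw [map_mul, map_zero]
      have hev : ∀ p : MvPolynomial (σ × Fin n × Fin n) K,
          MvPolynomial.eval x p = MvPolynomial.aeval x p := by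
        intro p; rw [← MvPolynomial.coe_aeval_eq_eval]; rfl
      have e1 : MvPolynomial.eval x D = MvPolynomial.aeval x D := hev _
      have e2 : MvPolynomial.eval x
          ((FreeAlgebra.lift K G g * YP - YP * FreeAlgebra.lift K G g) b c) =
          ((MvPolynomial.aeval x : MvPolynomial (σ × Fin n × Fin n) K →ₐ[K] K).mapMatrix
            (FreeAlgebra.lift K G g * YP - YP * FreeAlgebra.lift K G g)) b c := by
        rw [AlgHom.mapMatrix_apply, Matrix.map_apply]; exact hev _
      rw [e1, e2, map_sub, map_mul, map_mul, hsp, hspY, hDx]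
      by_cases hz : (FreeAlgebra.lift K
          (fun i => Matrix.of fun b c => x (i, b, c)) a).det = 0
      · rw [hz, zero_mul]
      · rw [h _ hz Y, sub_self, Matrix.zero_apply, mul_zero]
    rcases mul_eq_zero.mp hprod with h4 | h4
    · exact absurd h4 hD0
    · exact h4
  have e := congrArg (AlgHom.mapMatrix (m := Fin n)
    (MvPolynomial.aeval (fun p : σ × Fin n × Fin n => X p.1 p.2.1 p.2.2) :
      MvPolynomial (σ × Fin n × Fin n) K →ₐ[K] K)) hE
  rw [map_sub, map_mul, map_mul, hsp, hspY, map_zero] at e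
  exact sub_eq_zero.mp e

theorem scalar_of_comm (M : Matrix (Fin n) (Fin n) K) (h : ∀ Y, M * Y = Y * M) :
    ∃ c : K, M = Matrix.scalar (Fin n) c := by
  obtain ⟨c, hc⟩ := Matrix.mem_range_scalar_iff_commute_single'.mpr
    (fun i j => (h (Matrix.single i j 1)).symm)
  exact ⟨c, hc.symm⟩

/-- Lie polynomials: the smallest subspace containing the variables and closed under
`[a, b] = a b - b a`. -/
inductive IsLie : FreeAlgebra K σ → Prop
  | zero : IsLie 0
  | var (i : σ) : IsLie (FreeAlgebra.ι K i)
  | add (a b : FreeAlgebra K σ) : IsLie a → IsLie b → IsLie (a + b)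
  | smul (c : K) (a : FreeAlgebra K σ) : IsLie a → IsLie (c • a)
  | bracket (a b : FreeAlgebra K σ) : IsLie a → IsLie b → IsLie (a * b - b * a)

/-- (Special) Jordan polynomials: the smallest subspace containing `1` and the variables and
closed under `a b + b a`. -/
inductive IsJordan : FreeAlgebra K σ → Prop
  | one : IsJordan 1
  | var (i : σ) : IsJordan (FreeAlgebra.ι K i)
  | add (a b : FreeAlgebra K σ) : IsJordan a → IsJordan b → IsJordan (a + b)
  | smul (c : K) (a : FreeAlgebra K σ) : IsJordan a → IsJordan (c • a)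
  | prod (a b : FreeAlgebra K σ) : IsJordan a → IsJordan b → IsJordan (a * b + b * a)

theorem rev_smul (ε : σ → K) (c : K) (f : FreeAlgebra K σ) : rev ε (c • f) = c • rev ε f := by
  rw [Algebra.smul_def, rev_mul, rev_algebraMap, ← Algebra.commutes, ← Algebra.smul_def]

theorem rev_zero (ε : σ → K) : rev ε (0 : FreeAlgebra K σ) = 0 := by
  simp [rev]

theorem rev_one (ε : σ → K) : rev ε (1 : FreeAlgebra K σ) = 1 := by
  simp [rev]

theorem rev_neg (ε : σ → K) (f : FreeAlgebra K σ) : rev ε (-f) = -rev ε f := by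
  have := rev_smul ε (-1 : K) f
  simpa using this

theorem rev_sub (ε : σ → K) (f g : FreeAlgebra K σ) : rev ε (f - g) = rev ε f - rev ε g := by
  rw [sub_eq_add_neg, rev_add, rev_neg, ← sub_eq_add_neg]

theorem rev_lie {f : FreeAlgebra K σ} (hf : IsLie f) : rev (fun _ : σ => (-1 : K)) f = -f := by
  induction hf with
  | zero => rw [rev_zero, neg_zero]
  | var i => rw [rev_ι, neg_one_smul]
  | add a b _ _ ha hb => rw [rev_add, ha, hb]; abel
  | smul c a _ ha => rw [rev_smul, ha, smul_neg]
  | bracket a b _ _ ha hb => rw [rev_sub, rev_mul, rev_mul, ha, hb]; noncomm_ring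

theorem rev_jordan {f : FreeAlgebra K σ} (hf : IsJordan f) :
    rev (fun _ : σ => (1 : K)) f = f := by
  induction hf with
  | one => rw [rev_one]
  | var i => rw [rev_ι, one_smul]
  | add a b _ _ ha hb => rw [rev_add, ha, hb]
  | smul c a _ ha => rw [rev_smul, ha]
  | prod a b _ _ ha hb => rw [rev_add, rev_mul, rev_mul, ha, hb]; abel

end Pool.Agent.H552R3.PC
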