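import Mathlib

/-!
Leading terms of matrices over `A[τ_1, …, τ_n]` in the lexicographic order, and the matrices all of
whose entries `(j, k)` have exponents congruent to `δ_j + δ_k` modulo `2`.
-/

namespace Pool.Agent.H552R3.PC

open Matrix MonomialOrder

variable {A : Type*} [CommRing A] {n : ℕ}

/-- Matrices over the polynomial ring in `n` variables. -/
abbrev PM (n : ℕ) (A : Type*) [CommRing A] := Matrix (Fin n) (Fin n) (MvPolynomial (Fin n) A)

/-- The lexicographic order. -/
noncomputable abbrev mo (n : ℕ) : MonomialOrder (Fin n) := MonomialOrder.lex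

/-- All entries have degree at most `θ`. -/
def Bd (θ : Fin n →₀ ℕ) (M : PM n A) : Prop := ∀ j k, (mo n).degree (M j k) ≼[mo n] θ

/-- The matrix of the coefficients at `θ`. -/
def Ld (θ : Fin n →₀ ℕ) (M : PM n A) : Matrix (Fin n) (Fin n) A := M.map (MvPolynomial.coeff θ)

theorem Ld_add (θ : Fin n →₀ ℕ) (M N : PM n A) : Ld θ (M + N) = Ld θ M + Ld θ N := by
  ext j k; simp [Ld]

theorem Ld_zero (θ : Fin n →₀ ℕ) : Ld θ (0 : PM n A) = 0 := by
  ext j k; simp [Ld]

theorem Ld_sum {ι : Type*} (s : Finset ι) (θ : Fin n →₀ ℕ) (M : ι → PM n A) :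
    Ld θ (∑ i ∈ s, M i) = ∑ i ∈ s, Ld θ (M i) := by
  classical
  induction s using Finset.induction_on with
  | empty => simp [Ld_zero]
  | insert a s ha ih => rw [Finset.sum_insert ha, Finset.sum_insert ha, Ld_add, ih]

theorem Bd_mul {θ η : Fin n →₀ ℕ} {M N : PM n A} (hM : Bd θ M) (hN : Bd η N) :
    Bd (θ + η) (M * N) := by
  intro j k
  rw [mul_apply]
  refine le_trans degree_sum_le ?_
  refine Finset.sup_le fun l _ => ?_
  refine le_trans degree_mul_le ?_
  rw [map_add, map_add]
  exact add_le_add (hM j l) (hN l k)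

theorem Ld_mul {θ η : Fin n →₀ ℕ} {M N : PM n A} (hM : Bd θ M) (hN : Bd η N) :
    Ld (θ + η) (M * N) = Ld θ M * Ld η N := by
  ext j k
  simp only [Ld, map_apply, mul_apply, MvPolynomial.coeff_sum]
  exact Finset.sum_congr rfl fun l _ => coeff_mul_of_add_of_degree_le (hM j l) (hN l k)

theorem Bd_one : Bd 0 (1 : PM n A) := by
  intro j k
  by_cases h : j = k
  · subst h; simp
  · simp [one_apply_ne h]

theorem Ld_one : Ld 0 (1 : PM n A) = 1 := by
  ext j k
  by_cases h : j = k
  · subst h; simp [Ld]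
  · simp [Ld, one_apply_ne h]

theorem Bd_pow {θ : Fin n →₀ ℕ} {M : PM n A} (hM : Bd θ M) (ν : ℕ) :
    Bd (ν • θ) (M ^ ν) := by
  induction ν with
  | zero => simpa using Bd_one
  | succ ν ih => rw [pow_succ, succ_nsmul]; exact Bd_mul ih hM

theorem Ld_pow {θ : Fin n →₀ ℕ} {M : PM n A} (hM : Bd θ M) (ν : ℕ) :
    Ld (ν • θ) (M ^ ν) = Ld θ M ^ ν := by
  induction ν with
  | zero => simpa using Ld_one
  | succ ν ih => rw [pow_succ, succ_nsmul, Ld_mul (Bd_pow hM ν) hM, ih, pow_succ]

theorem exists_lead (M : PM n A) (hM : M ≠ 0) : ∃ θ, Bd θ M ∧ Ld θ M ≠ 0 := by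
  have hne : ∃ p : Fin n × Fin n, M p.1 p.2 ≠ 0 := by
    by_contra hcon
    push Not at hcon
    exact hM (by ext1 j k; exact hcon (j, k))
  classical
  set s : Finset (Fin n × Fin n) := Finset.univ.filter (fun p => M p.1 p.2 ≠ 0) with hs
  have hsne : s.Nonempty := by
    obtain ⟨p, hp⟩ := hne
    exact ⟨p, by simp [hs, hp]⟩
  obtain ⟨p, hp, hmax⟩ := Finset.exists_max_image s
    (fun p => (mo n).toSyn ((mo n).degree (M p.1 p.2))) hsne
  have hp0 : M p.1 p.2 ≠ 0 := by simpa [hs] using hp
  refine ⟨(mo n).degree (M p.1 p.2), fun j k => ?_, fun h0 => ?_⟩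
  · by_cases hz : M j k = 0
    · rw [hz, degree_zero, map_zero]; exact bot_le
    · exact hmax (j, k) (by simp [hs, hz])
  · have := congrFun (congrFun h0 p.1) p.2
    simp only [Ld, map_apply, Matrix.zero_apply] at this
    exact hp0 ((coeff_degree_eq_zero_iff (m := mo n)).mp this)

/-- The weight in `(ℤ/2)^n`. -/
def wt (n : ℕ) : Fin n → (Fin n → ZMod 2) := fun i => Pi.single i 1

/-- The matrices all of whose entries `(j, k)` have exponents congruent to `δ_j + δ_k`. -/
def grd (K : Type*) [CommRing K] [Algebra K A] (n : ℕ) : Subalgebra K (PM n A) where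
  carrier := {M | ∀ j k, MvPolynomial.IsWeightedHomogeneous (wt n) (M j k) (wt n j + wt n k)}
  mul_mem' := by
    intro M N hM hN j k
    rw [mul_apply]
    refine MvPolynomial.IsWeightedHomogeneous.sum _ _ _ (fun l _ => ?_)
    have h := (hM j l).mul (hN l k)
    have e : wt n j + wt n l + (wt n l + wt n k) = wt n j + wt n k := by
      have : wt n l + wt n l = 0 := by
        funext x; simp only [Pi.add_apply, Pi.zero_apply]; exact CharTwo.add_self_eq_zero _
      calc wt n j + wt n l + (wt n l + wt n k) = wt n j + (wt n l + wt n l) + wt n k := by abel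
        _ = _ := by rw [this, add_zero]
    rw [e] at h
    exact h
  add_mem' := by
    intro M N hM hN j k
    exact (hM j k).add (hN j k)
  algebraMap_mem' := by
    intro c j k
    rw [algebraMap_matrix_apply]
    by_cases h : j = k
    · subst h
      rw [if_pos rfl]
      have : wt n j + wt n j = 0 := by
        funext x; simp only [Pi.add_apply, Pi.zero_apply]; exact CharTwo.add_self_eq_zero _
      rw [this, IsScalarTower.algebraMap_apply K A (MvPolynomial (Fin n) A)]
      exact MvPolynomial.isWeightedHomogeneous_C _ _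
    · rw [if_neg h]
      exact MvPolynomial.isWeightedHomogeneous_zero _ _ _

theorem grd_Ld {K : Type*} [CommRing K] [Algebra K A] {M : PM n A} (hM : M ∈ grd (A := A) K n)
    (θ : Fin n →₀ ℕ) (j k : Fin n) (h : Ld θ M j k ≠ 0) :
    Finsupp.weight (wt n) θ = wt n j + wt n k := hM j k h

theorem wt_pair {n : ℕ} {a b j k : Fin n} (hjk : j ≠ k) (h : wt n a + wt n b = wt n j + wt n k) :
    (a = j ∧ b = k) ∨ (a = k ∧ b = j) := by
  have h2 : (1 : ZMod 2) + 1 = 0 := by decide
  have hj := congrFun h j
  have hk := congrFun h k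
  simp only [wt, Pi.add_apply, Pi.single_apply, if_true] at hj hk
  rw [if_neg hjk, add_zero] at hj
  rw [if_neg hjk.symm, zero_add] at hk
  by_cases haj : a = j
  · by_cases hbk : b = k
    · exact Or.inl ⟨haj, hbk⟩
    · exfalso
      have hka : k ≠ a := fun e => hjk (by rw [← haj, ← e])
      rw [if_neg hka, if_neg (fun e => hbk e.symm)] at hk
      exact absurd hk (by decide)
  · rw [if_neg (fun e => haj e.symm)] at hj
    by_cases hbj : b = j
    · right
      refine ⟨?_, hbj⟩
      by_contra hak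
      have hkb : k ≠ b := fun e => hjk (by rw [← hbj, ← e])
      rw [if_neg (fun e => hak e.symm), if_neg hkb] at hk
      exact absurd hk (by decide)
    · rw [if_neg (fun e => hbj e.symm)] at hj
      exact absurd hj (by decide)

theorem wt_diag {n : ℕ} {a b j : Fin n} (h : wt n a + wt n b = wt n j + wt n j) : a = b := by
  by_contra hab
  have := wt_pair hab h.symm
  rcases this with ⟨h1, h2⟩ | ⟨h1, h2⟩
  · exact hab (h1.symm.trans h2)
  · exact hab (h2.symm.trans h1)

end Pool.Agent.H552R3.PC
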