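import Mathlib
import Pool.Agent.H552R3.PC.Lead
import Pool.Agent.H552R3.PC.Gen

/-!
Symmetric and skew polynomials over a field without nontrivial `ν`-th roots of unity: the
degeneration `X_i = D S_i D`.
-/

namespace Pool.Agent.H552R3.PC

open Matrix

section General

variable {K : Type*} [Field K] {σ : Type*} {n : ℕ}

/-- Coordinates of generic matrices. -/
abbrev GA (K : Type*) [Field K] (σ : Type*) (n : ℕ) := MvPolynomial (σ × Fin n × Fin n) K

/-- Generic matrices. -/
noncomputable def gen (K : Type*) [Field K] (σ : Type*) (n : ℕ) (i : σ) :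
    Matrix (Fin n) (Fin n) (GA K σ n) :=
  Matrix.of fun b c => MvPolynomial.X (i, b, c)

/-- Specialisation of the generic matrices. -/
noncomputable def spz {B : Type*} [CommRing B] [Algebra K B] (W : σ → Matrix (Fin n) (Fin n) B) :
    GA K σ n →ₐ[K] B := MvPolynomial.aeval (fun p => W p.1 p.2.1 p.2.2)

theorem spz_gen {B : Type*} [CommRing B] [Algebra K B] (W : σ → Matrix (Fin n) (Fin n) B)
    (f : FreeAlgebra K σ) :
    (spz W).mapMatrix (FreeAlgebra.lift K (gen K σ n) f) = FreeAlgebra.lift K W f := by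
  rw [lift_map]
  congr 2
  funext i
  ext b c
  simp [gen, spz]

theorem map_const {B C : Type*} [CommRing B] [Algebra K B] [CommRing C] [Algebra K C]
    (φ : B →ₐ[K] C) (Y : Matrix (Fin n) (Fin n) K) :
    φ.mapMatrix (Y.map (algebraMap K B)) = Y.map (algebraMap K C) := by
  ext b c
  simp

/-- Transfer of identities from `K` to all commutative `K`-algebras. -/
theorem transfer [Infinite K] (g : FreeAlgebra K σ)
    (h : ∀ X : σ → Matrix (Fin n) (Fin n) K, FreeAlgebra.lift K X g = 0)
    {B : Type*} [CommRing B] [Algebra K B] (W : σ → Matrix (Fin n) (Fin n) B) :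
    FreeAlgebra.lift K W g = 0 := by
  have hG : FreeAlgebra.lift K (gen K σ n) g = 0 := by
    ext1 b c
    apply MvPolynomial.funext
    intro x
    have e := congrFun (congrFun (spz_gen (fun i => Matrix.of fun b c => x (i, b, c)) g) b) c
    rw [h] at e
    rw [Matrix.zero_apply, map_zero]
    simpa [spz, MvPolynomial.coe_aeval_eq_eval] using e
  rw [← spz_gen, hG, map_zero]

/-- Transfer of commutation with constant matrices. -/
theorem transfer_comm [Infinite K] (g : FreeAlgebra K σ) (Y : Matrix (Fin n) (Fin n) K)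
    (h : ∀ X : σ → Matrix (Fin n) (Fin n) K,
      FreeAlgebra.lift K X g * Y = Y * FreeAlgebra.lift K X g)
    {B : Type*} [CommRing B] [Algebra K B] (W : σ → Matrix (Fin n) (Fin n) B) :
    FreeAlgebra.lift K W g * Y.map (algebraMap K B) =
      Y.map (algebraMap K B) * FreeAlgebra.lift K W g := by
  have hG : FreeAlgebra.lift K (gen K σ n) g * Y.map (algebraMap K (GA K σ n)) -
      Y.map (algebraMap K (GA K σ n)) * FreeAlgebra.lift K (gen K σ n) g = 0 := by
    ext1 b c
    apply MvPolynomial.funext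
    intro x
    have e0 : (spz (fun i => Matrix.of fun b c => x (i, b, c)) : GA K σ n →ₐ[K] K).mapMatrix
        (FreeAlgebra.lift K (gen K σ n) g * Y.map (algebraMap K (GA K σ n)) -
      Y.map (algebraMap K (GA K σ n)) * FreeAlgebra.lift K (gen K σ n) g) = 0 := by
      rw [map_sub, map_mul, map_mul, spz_gen, map_const]
      have : Y.map (algebraMap K K) = Y := by ext b c; simp
      rw [this, h, sub_self]
    have e := congrFun (congrFun e0 b) c
    rw [Matrix.zero_apply, map_zero]
    simpa [spz, MvPolynomial.coe_aeval_eq_eval] using e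
  have e := congrArg (AlgHom.mapMatrix (m := Fin n) (spz W)) hG
  rw [map_sub, map_mul, map_mul, spz_gen, map_const, map_zero] at e
  exact sub_eq_zero.mp e

theorem lift_mem {B : Type*} [Ring B] [Algebra K B] (S : Subalgebra K B) (W : σ → B)
    (hW : ∀ i, W i ∈ S) (f : FreeAlgebra K σ) : FreeAlgebra.lift K W f ∈ S := by
  induction f using FreeAlgebra.induction with
  | grade0 c => rw [AlgHom.commutes]; exact S.algebraMap_mem c
  | grade1 i => rw [FreeAlgebra.lift_ι_apply]; exact hW i
  | mul a b ha hb => rw [map_mul]; exact S.mul_mem ha hb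
  | add a b ha hb => rw [map_add]; exact S.add_mem ha hb

theorem transpose_lift {B : Type*} [CommRing B] [Algebra K B] (s : B →ₐ[K] B) (ε : σ → K)
    (W : σ → Matrix (Fin n) (Fin n) B) (hW : ∀ i, (W i)ᵀ = ε i • s.mapMatrix (W i))
    (f : FreeAlgebra K σ) :
    (FreeAlgebra.lift K W f)ᵀ = s.mapMatrix (FreeAlgebra.lift K W (rev ε f)) := by
  induction f using FreeAlgebra.induction with
  | grade0 c =>
    rw [rev_algebraMap, AlgHom.commutes, AlgHom.commutes]
    ext1 a b
    simp only [transpose_apply, algebraMap_matrix_apply]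
    by_cases h : a = b
    · subst h; rfl
    · rw [if_neg h, if_neg (fun e => h e.symm)]
  | grade1 i => rw [rev_ι, map_smul, map_smul, FreeAlgebra.lift_ι_apply, hW]
  | mul a b ha hb => rw [rev_mul, map_mul, map_mul, map_mul, transpose_mul, ha, hb]
  | add a b ha hb => rw [rev_add, map_add, map_add, map_add, transpose_add, ha, hb]

/-- `ν`-th roots of unity in a polynomial ring over a field are constants. -/
theorem eq_of_pow_eq {ι : Type*} {ν : ℕ} (hν : 0 < ν) (hK : ∀ x : K, x ^ ν = 1 → x = 1)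
    (x y : MvPolynomial ι K) (hx : x ≠ 0) (h : x ^ ν = y ^ ν) : x = y := by
  have h1 : x ∣ y :=
    (IsIntegrallyClosed.pow_dvd_pow_iff (R := MvPolynomial ι K) hν.ne').mp (h ▸ dvd_rfl)
  obtain ⟨u, rfl⟩ := h1
  have h2 : u ^ ν = 1 := by
    rw [mul_pow] at h
    have hxν : x ^ ν ≠ 0 := pow_ne_zero _ hx
    exact mul_left_cancel₀ hxν (by rw [← h, mul_one])
  have h3 : IsUnit u := IsUnit.of_pow_eq_one h2 hν.ne'
  obtain ⟨r, _, rfl⟩ := MvPolynomial.isUnit_iff_eq_C_of_isReduced.mp h3
  have h4 : r ^ ν = 1 := by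
    apply MvPolynomial.C_injective ι K
    rw [map_pow, h2, map_one]
  rw [hK r h4, map_one, mul_one]

end General

section Lead

variable {A : Type*} [CommRing A] [IsDomain A] {n : ℕ}

/-- The only nonzero off-diagonal entries of a leading matrix sit at `(j, k)` and `(k, j)`, and then
no odd power is scalar. -/
theorem offdiag (Λ : Matrix (Fin n) (Fin n) A) {j k : Fin n} (hjk : j ≠ k)
    (hx : Λ j k ≠ 0) (hy : Λ k j ≠ 0)
    (hsupp : ∀ a b, Λ a b ≠ 0 → (a = j ∧ b = k) ∨ (a = k ∧ b = j)) (m : ℕ) :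
    (Λ ^ (2 * m + 1)) j k ≠ 0 := by
  have h0 : ∀ a b, ¬ ((a = j ∧ b = k) ∨ (a = k ∧ b = j)) → Λ a b = 0 := by
    intro a b hab
    by_contra h
    exact hab (hsupp a b h)
  have h2 : ∀ l, (Λ ^ 2) j l = if l = j then Λ j k * Λ k j else 0 := by
    intro l
    rw [pow_two, mul_apply, Finset.sum_eq_single k]
    · split_ifs with h
      · rw [h]
      · rw [h0 k l (by
          rintro (⟨e, _⟩ | ⟨_, e⟩)
          · exact hjk e.symm
          · exact h e), mul_zero]
    · intro b _ hb
      rw [h0 j b (by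
        rintro (⟨_, e⟩ | ⟨e, _⟩)
        · exact hb e
        · exact hjk e), zero_mul]
    · intro h; exact absurd (Finset.mem_univ _) h
  have h3 : ∀ m : ℕ, (Λ ^ (2 * m + 1)) j k = (Λ j k * Λ k j) ^ m * Λ j k := by
    intro m
    induction m with
    | zero => simp
    | succ m ih =>
      have e : 2 * (m + 1) + 1 = 2 + (2 * m + 1) := by ring
      rw [e, pow_add, mul_apply, Finset.sum_eq_single j]
      · rw [h2, if_pos rfl, ih]; ring
      · intro b _ hb
        rw [h2, if_neg hb, zero_mul]
      · intro h; exact absurd (Finset.mem_univ _) h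
  rw [h3]
  exact mul_ne_zero (pow_ne_zero _ (mul_ne_zero hx hy)) hx

/-- If the leading matrix of `p` is a nonzero scalar and `p ^ ν` commutes with `Y` then so does
`p`. -/
theorem comm_of_lead (p Y : PM n A) (θ : Fin n →₀ ℕ) (hp : Bd θ p) (l : A) (hl : l ≠ 0)
    (hLd : Ld θ p = Matrix.scalar (Fin n) l) (ν : ℕ) (hν : 0 < ν) (hνA : (ν : A) ≠ 0)
    (h : p ^ ν * Y = Y * p ^ ν) : p * Y = Y * p := by
  obtain ⟨m, rfl⟩ : ∃ m, ν = m + 1 := ⟨ν - 1, by omega⟩
  by_contra hne
  have hZ : p * Y - Y * p ≠ 0 := fun e => hne (sub_eq_zero.mp e)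
  set Z := p * Y - Y * p with hZd
  obtain ⟨η, hη, hη0⟩ := exists_lead Z hZ
  have htel : ∑ k ∈ Finset.range (m + 1), p ^ k * Z * p ^ (m - k) = 0 := by
    have e : ∀ k ∈ Finset.range (m + 1), p ^ k * Z * p ^ (m - k) =
        p ^ (k + 1) * Y * p ^ (m + 1 - (k + 1)) - p ^ k * Y * p ^ (m + 1 - k) := by
      intro k hk
      have hk' : k ≤ m := by
        have := Finset.mem_range.mp hk; omega
      have a1 : m + 1 - (k + 1) = m - k := by omega
      have a2 : m + 1 - k = (m - k) + 1 := by omega
      rw [a1, a2, hZd, pow_succ p k, pow_succ' p (m - k)]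
      noncomm_ring
    rw [Finset.sum_congr rfl e,
      Finset.sum_range_sub (fun k => p ^ k * Y * p ^ (m + 1 - k))]
    simp [h]
  have hterm : ∀ k ∈ Finset.range (m + 1),
      Ld (m • θ + η) (p ^ k * Z * p ^ (m - k)) = l ^ m • Ld η Z := by
    intro k hk
    have hk' : k ≤ m := by
      have := Finset.mem_range.mp hk; omega
    have e : m • θ + η = k • θ + η + (m - k) • θ := by
      have : m • θ = k • θ + (m - k) • θ := by rw [← add_nsmul]; congr 1; omega
      rw [this]; abel
    rw [e, Ld_mul (Bd_mul (Bd_pow hp k) hη) (Bd_pow hp (m - k)), Ld_mul (Bd_pow hp k) hη,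
      Ld_pow hp, Ld_pow hp, hLd, ← map_pow, ← map_pow]
    have c1 : Matrix.scalar (Fin n) (l ^ k) * Ld η Z = l ^ k • Ld η Z := by
      ext a b; simp
    rw [c1]
    have c2 : (l ^ k • Ld η Z) * Matrix.scalar (Fin n) (l ^ (m - k)) =
        l ^ (m - k) • (l ^ k • Ld η Z) := by
      ext a b; simp [mul_comm]
    rw [c2, smul_smul, ← pow_add]
    congr 2; omega
  have hfin := congrArg (Ld (m • θ + η)) htel
  rw [Ld_sum, Ld_zero, Finset.sum_congr rfl hterm, Finset.sum_const, Finset.card_range] at hfin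
  apply hη0
  ext1 a b
  have h1 := congrFun (congrFun hfin a) b
  simp only [Matrix.smul_apply, Matrix.zero_apply, nsmul_eq_mul, smul_eq_mul] at h1
  rcases mul_eq_zero.mp h1 with h2 | h2
  · exact absurd h2 hνA
  · rcases mul_eq_zero.mp h2 with h3 | h3
    · exact absurd h3 (pow_ne_zero _ hl)
    · exact h3

end Lead

end Pool.Agent.H552R3.PC
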