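import Mathlib
import Pool.Agent.H552R3.PC.Degen

/-!
The main theorem over a field without nontrivial `ν`-th roots of unity.
-/

namespace Pool.Agent.H552R3.PC

open Matrix

variable {K : Type*} [Field K] {σ : Type*} {n : ℕ}

/-- The involution of the coordinate ring of generic matrices: `s_{i,jk} ↦ ε_i s_{i,kj}`. -/
noncomputable def sw (ε : σ → K) (n : ℕ) : GA K σ n →ₐ[K] GA K σ n :=
  MvPolynomial.aeval (fun p => MvPolynomial.C (ε p.1) * MvPolynomial.X (p.1, p.2.2, p.2.1))

theorem sw_sw (ε : σ → K) (hε : ∀ i, ε i = 1 ∨ ε i = -1) (g : GA K σ n) :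
    sw ε n (sw ε n g) = g := by
  have : (sw ε n).comp (sw ε n) = AlgHom.id K (GA K σ n) := by
    apply MvPolynomial.algHom_ext
    rintro ⟨i, j, k⟩
    simp only [AlgHom.comp_apply, AlgHom.id_apply, sw, MvPolynomial.aeval_X, map_mul]
    have h1 : (MvPolynomial.aeval (R := K) (fun p : σ × Fin n × Fin n =>
        (MvPolynomial.C (ε p.1) * MvPolynomial.X (p.1, p.2.2, p.2.1) : GA K σ n)))
        (MvPolynomial.C (ε i)) = MvPolynomial.C (ε i) := by
      rw [← MvPolynomial.algebraMap_eq, AlgHom.commutes]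
    rw [h1, ← mul_assoc, ← map_mul]
    have h2 : ε i * ε i = 1 := by rcases hε i with e | e <;> rw [e] <;> simp
    rw [h2, map_one, one_mul]
  exact DFunLike.congr_fun this g

/-- The degenerating matrices `D S_i D`. -/
noncomputable def dsd (K : Type*) [Field K] (σ : Type*) (n : ℕ) (i : σ) : PM n (GA K σ n) :=
  Matrix.of fun j k => MvPolynomial.X j * MvPolynomial.C (MvPolynomial.X (i, j, k)) *
    MvPolynomial.X k

theorem dsd_grd (i : σ) : dsd K σ n i ∈ grd (A := GA K σ n) K n := by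
  intro j k
  have h1 := (MvPolynomial.isWeightedHomogeneous_X (GA K σ n) (wt n) j).mul
    (MvPolynomial.isWeightedHomogeneous_C (wt n) (MvPolynomial.X (i, j, k) : GA K σ n))
  have h2 := h1.mul (MvPolynomial.isWeightedHomogeneous_X (GA K σ n) (wt n) k)
  rw [add_zero] at h2
  exact h2

theorem dsd_transpose (ε : σ → K) (hε : ∀ i, ε i = 1 ∨ ε i = -1) (i : σ) :
    (dsd K σ n i)ᵀ = ε i • (MvPolynomial.mapAlgHom (sw ε n)).mapMatrix (dsd K σ n i) := by
  ext1 j k
  have h2 : ε i * ε i = 1 := by rcases hε i with e | e <;> rw [e] <;> simp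
  simp only [dsd, transpose_apply, Matrix.of_apply, Matrix.smul_apply, AlgHom.mapMatrix_apply,
    Matrix.map_apply, map_mul, MvPolynomial.mapAlgHom_apply, MvPolynomial.map_X,
    MvPolynomial.map_C]
  have h3 : (sw ε n : GA K σ n →+* GA K σ n) (MvPolynomial.X (i, j, k)) =
      MvPolynomial.C (ε i) * MvPolynomial.X (i, k, j) := by
    show sw ε n (MvPolynomial.X (i, j, k)) = _
    simp [sw]
  rw [h3, map_mul]
  have h4 : (MvPolynomial.C (MvPolynomial.C (ε i)) : MvPolynomial (Fin n) (GA K σ n)) =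
      algebraMap K _ (ε i) := rfl
  rw [h4, Algebra.smul_def]
  calc MvPolynomial.X k * MvPolynomial.C (MvPolynomial.X (i, k, j)) * MvPolynomial.X j
      = algebraMap K (MvPolynomial (Fin n) (GA K σ n)) (ε i * ε i) *
        (MvPolynomial.X j * MvPolynomial.C (MvPolynomial.X (i, k, j)) * MvPolynomial.X k) := by
        rw [h2, map_one, one_mul]; ring
    _ = _ := by rw [map_mul]; ring

/-- The key statement at the level of the degenerate generic matrices. -/
theorem core [Infinite K] (ε : σ → K) (hε : ∀ i, ε i = 1 ∨ ε i = -1) (f : FreeAlgebra K σ)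
    (hsym : (∀ X : σ → Matrix (Fin n) (Fin n) K,
        FreeAlgebra.lift K X (rev ε f) = FreeAlgebra.lift K X f) ∨
      (∀ X : σ → Matrix (Fin n) (Fin n) K,
        FreeAlgebra.lift K X (rev ε f) = -FreeAlgebra.lift K X f))
    (ν : ℕ) (hν : 0 < ν) (hνK : (ν : K) ≠ 0) (hK : ∀ x : K, x ^ ν = 1 → x = 1)
    (h : ∀ X : σ → Matrix (Fin n) (Fin n) K, ∀ Z : Matrix (Fin n) (Fin n) K,
      FreeAlgebra.lift K X (f ^ ν) * Z = Z * FreeAlgebra.lift K X (f ^ ν))
    (Y : Matrix (Fin n) (Fin n) K) :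
    FreeAlgebra.lift K (dsd K σ n) f * Y.map (algebraMap K (MvPolynomial (Fin n) (GA K σ n))) =
      Y.map (algebraMap K (MvPolynomial (Fin n) (GA K σ n))) *
        FreeAlgebra.lift K (dsd K σ n) f := by
  classical
  -- `ν` is odd
  have hodd : Odd ν := by
    by_contra he
    rw [Nat.not_odd_iff_even] at he
    have h1 : (-1 : K) = 1 := hK _ (he.neg_one_pow)
    obtain ⟨m, rfl⟩ := he
    apply hνK
    push_cast
    have h2 : (1 : K) + 1 = 0 := by
      calc (1 : K) + 1 = 1 + -1 := by rw [h1]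
        _ = 0 := by ring
    calc (m : K) + m = m * (1 + 1) := by ring
      _ = 0 := by rw [h2, mul_zero]
  set p := FreeAlgebra.lift K (dsd K σ n) f with hp
  by_cases hp0 : p = 0
  · rw [hp0, zero_mul, mul_zero]
  obtain ⟨θ, hθ, hΛ0⟩ := exists_lead p hp0
  set Λ := Ld θ p with hΛ
  set s := MvPolynomial.mapAlgHom (σ := Fin n) (sw ε n) with hs
  -- symmetry of `p`
  have hpT : pᵀ = s.mapMatrix p ∨ pᵀ = -s.mapMatrix p := by
    have e := transpose_lift s ε (dsd K σ n) (dsd_transpose ε hε) f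
    rcases hsym with hsm | hsm
    · left
      have e2 := transfer (rev ε f - f) (fun X => by rw [map_sub, hsm, sub_self]) (dsd K σ n)
      rw [map_sub, sub_eq_zero] at e2
      rw [hp, e, e2]
    · right
      have e2 := transfer (rev ε f + f) (fun X => by rw [map_add, hsm, neg_add_cancel])
        (dsd K σ n)
      rw [map_add, add_eq_zero_iff_eq_neg] at e2
      rw [hp, e, e2, map_neg]
  have hswne : ∀ a b, Λ a b ≠ 0 → Λ b a ≠ 0 := by
    intro a b hab hba
    apply hab
    have hcoef : ∀ g : MvPolynomial (Fin n) (GA K σ n),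
        MvPolynomial.coeff θ (s g) = sw ε n (MvPolynomial.coeff θ g) := by
      intro g
      rw [hs, MvPolynomial.mapAlgHom_apply, MvPolynomial.coeff_map]; rfl
    -- `p a b = ± s (p b a)`
    have e : p a b = s (p b a) ∨ p a b = -s (p b a) := by
      rcases hpT with hh | hh
      · left; exact congrFun (congrFun hh b) a
      · right; exact congrFun (congrFun hh b) a
    have hz : MvPolynomial.coeff θ (p b a) = 0 := hba
    show MvPolynomial.coeff θ (p a b) = 0
    rcases e with e | e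
    · rw [e, hcoef, hz, map_zero]
    · rw [e, MvPolynomial.coeff_neg, hcoef, hz, map_zero, neg_zero]
  -- parity
  have hgr : p ∈ grd (A := GA K σ n) K n := lift_mem _ _ dsd_grd f
  -- the power
  have hpowY : ∀ Z : Matrix (Fin n) (Fin n) K,
      p ^ ν * Z.map (algebraMap K (MvPolynomial (Fin n) (GA K σ n))) =
        Z.map (algebraMap K (MvPolynomial (Fin n) (GA K σ n))) * p ^ ν := by
    intro Z
    have := transfer_comm (f ^ ν) Z (fun X => h X Z) (dsd K σ n)
    rwa [map_pow] at this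
  have hΛscal : ∀ i j : Fin n, Commute (Matrix.single i j (1 : GA K σ n)) (Λ ^ ν) := by
    intro i j
    set Z : Matrix (Fin n) (Fin n) K := Matrix.single i j 1 with hZ
    set ZP : PM n (GA K σ n) := Z.map (algebraMap K (MvPolynomial (Fin n) (GA K σ n))) with hZP
    have hb : Bd 0 ZP := by
      intro a b
      have : ZP a b = MvPolynomial.C (MvPolynomial.C (Z a b)) := rfl
      rw [this, MonomialOrder.degree_C]
    have hl : Ld 0 ZP = Matrix.single i j (1 : GA K σ n) := by
      ext1 a b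
      have : ZP a b = MvPolynomial.C (MvPolynomial.C (Z a b)) := rfl
      simp only [Ld, Matrix.map_apply, this, MvPolynomial.coeff_C, if_true, hZ]
      simp only [Matrix.single, Matrix.of_apply]
      split_ifs <;> simp
    have e1 := Ld_mul (Bd_pow hθ ν) hb
    have e2 := Ld_mul hb (Bd_pow hθ ν)
    rw [add_zero] at e1
    rw [zero_add] at e2
    rw [hpowY Z, e2, hl, Ld_pow hθ] at e1
    exact e1
  obtain ⟨c, hc⟩ := Matrix.mem_range_scalar_iff_commute_single'.mpr hΛscal
  -- `Λ` is diagonal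
  have hdiag : ∀ j k, j ≠ k → Λ j k = 0 := by
    intro j k hjk
    by_contra hx
    obtain ⟨m, hm⟩ := hodd
    have hsupp : ∀ a b, Λ a b ≠ 0 → (a = j ∧ b = k) ∨ (a = k ∧ b = j) := by
      intro a b hab
      apply wt_pair hjk
      rw [← grd_Ld hgr θ a b hab, ← grd_Ld hgr θ j k hx]
    have := offdiag Λ hjk hx (hswne j k hx) hsupp m
    apply this
    rw [← hm, ← hc]
    simp [hjk]
  have hdiag' : Λ = Matrix.diagonal (fun j => Λ j j) := by
    ext1 j k
    by_cases e : j = k
    · subst e; simp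
    · rw [hdiag j k e, Matrix.diagonal_apply_ne _ e]
  have hpw : ∀ j, Λ j j ^ ν = c := by
    intro j
    have e := congrFun (congrFun hc j) j
    rw [hdiag', Matrix.diagonal_pow] at e
    simp at e
    exact e.symm
  obtain ⟨j0, hj0⟩ : ∃ j, Λ j j ≠ 0 := by
    by_contra hcon
    push Not at hcon
    apply hΛ0
    rw [hdiag']
    ext1 a b
    by_cases e : a = b
    · subst e; simp [hcon]
    · rw [Matrix.diagonal_apply_ne _ e, Matrix.zero_apply]
  have hLd : Ld θ p = Matrix.scalar (Fin n) (Λ j0 j0) := by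
    rw [← hΛ]
    conv_lhs => rw [hdiag']
    ext1 a b
    by_cases e : a = b
    · subst e
      simp only [Matrix.diagonal_apply_eq, Matrix.scalar_apply]
      exact (eq_of_pow_eq hν hK _ _ hj0 ((hpw j0).trans (hpw a).symm)).symm
    · rw [Matrix.diagonal_apply_ne _ e, Matrix.scalar_apply, Matrix.diagonal_apply_ne _ e]
  have hνA : ((ν : ℕ) : GA K σ n) ≠ 0 := by
    have : ((ν : ℕ) : GA K σ n) = MvPolynomial.C (ν : K) := by simp
    rw [this]
    exact fun e => hνK (MvPolynomial.C_injective _ _ (by rw [e, map_zero]))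
  exact comm_of_lead p _ θ hθ _ hj0 hLd ν hν hνA (hpowY Y)

/-- The theorem on `M_n(K)`. -/
theorem core_K [Infinite K] (ε : σ → K) (hε : ∀ i, ε i = 1 ∨ ε i = -1) (f : FreeAlgebra K σ)
    (hsym : (∀ X : σ → Matrix (Fin n) (Fin n) K,
        FreeAlgebra.lift K X (rev ε f) = FreeAlgebra.lift K X f) ∨
      (∀ X : σ → Matrix (Fin n) (Fin n) K,
        FreeAlgebra.lift K X (rev ε f) = -FreeAlgebra.lift K X f))
    (ν : ℕ) (hν : 0 < ν) (hνK : (ν : K) ≠ 0) (hK : ∀ x : K, x ^ ν = 1 → x = 1)
    (h : ∀ X : σ → Matrix (Fin n) (Fin n) K, ∀ Z : Matrix (Fin n) (Fin n) K,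
      FreeAlgebra.lift K X (f ^ ν) * Z = Z * FreeAlgebra.lift K X (f ^ ν))
    (X : σ → Matrix (Fin n) (Fin n) K) (Y : Matrix (Fin n) (Fin n) K) :
    FreeAlgebra.lift K X f * Y = Y * FreeAlgebra.lift K X f := by
  have e := core ε hε f hsym ν hν hνK hK h Y
  let ψ : MvPolynomial (Fin n) (GA K σ n) →ₐ[K] K :=
    (spz X).comp ((MvPolynomial.aeval (R := GA K σ n) (fun _ : Fin n => (1 : GA K σ n))).restrictScalars K)
  have hψ : (fun i => ψ.mapMatrix (dsd K σ n i)) = X := by
    funext i
    ext b c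
    simp [ψ, dsd, spz]
  have e2 := congrArg (AlgHom.mapMatrix (m := Fin n) ψ) e
  rw [map_mul, map_mul, lift_map, hψ, map_const] at e2
  have : Y.map (algebraMap K K) = Y := by ext b c; simp
  rwa [this] at e2

end Pool.Agent.H552R3.PC
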