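import Mathlib
import Pool.Agent.H552R3.PC.Core

/-!
The main theorem in all characteristics (in particular for `ν` divisible by the characteristic).
-/

namespace Pool.Agent.H552R3.PC

open Matrix

section Even

variable {A : Type*} [CommRing A] [IsDomain A] {n : ℕ}

/-- Even powers of an off-diagonal leading matrix. -/
theorem offdiag_even (Λ : Matrix (Fin n) (Fin n) A) {j k : Fin n} (hjk : j ≠ k)
    (hsupp : ∀ a b, Λ a b ≠ 0 → (a = j ∧ b = k) ∨ (a = k ∧ b = j)) (m : ℕ) :
    (Λ ^ (2 * m)) j j = (Λ j k * Λ k j) ^ m ∧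
      ∀ l, l ≠ j → l ≠ k → 0 < m → (Λ ^ (2 * m)) l l = 0 := by
  have h0 : ∀ a b, ¬ ((a = j ∧ b = k) ∨ (a = k ∧ b = j)) → Λ a b = 0 := by
    intro a b hab
    by_contra h
    exact hab (hsupp a b h)
  have h2 : ∀ l, (Λ ^ 2) j l = if l = j then Λ j k * Λ k j else 0 := by
    intro l
    rw [pow_two, mul_apply, Finset.sum_eq_single k]
    · split_ifs with h
      · rw [h]
      · rw [h0 k l (by
          rintro (⟨e, _⟩ | ⟨_, e⟩)
          · exact hjk e.symm
          · exact h e), mul_zero]
    · intro b _ hb
      rw [h0 j b (by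
        rintro (⟨_, e⟩ | ⟨e, _⟩)
        · exact hb e
        · exact hjk e), zero_mul]
    · intro h; exact absurd (Finset.mem_univ _) h
  constructor
  · induction m with
    | zero => simp
    | succ m ih =>
      have e : 2 * (m + 1) = 2 + 2 * m := by ring
      rw [e, pow_add, mul_apply, Finset.sum_eq_single j]
      · rw [h2, if_pos rfl, ih]; ring
      · intro b _ hb
        rw [h2, if_neg hb, zero_mul]
      · intro h; exact absurd (Finset.mem_univ _) h
  · intro l hlj hlk hm
    obtain ⟨r, rfl⟩ : ∃ r, m = r + 1 := ⟨m - 1, by omega⟩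
    have e : 2 * (r + 1) = 1 + (2 * r + 1) := by ring
    rw [e, pow_add, pow_one, mul_apply]
    refine Finset.sum_eq_zero fun b _ => ?_
    rw [h0 l b (by
      rintro (⟨e, _⟩ | ⟨e, _⟩)
      · exact hlj e
      · exact hlk e), zero_mul]

end Even

variable {K : Type*} [Field K] {σ : Type*} {n : ℕ}

/-- The constant matrix with entries in `K`. -/
noncomputable abbrev cst (σ : Type*) (Z : Matrix (Fin n) (Fin n) K) : PM n (GA K σ n) :=
  Z.map (algebraMap K (MvPolynomial (Fin n) (GA K σ n)))

/-- The properties of `f(D S D)` which are used. -/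
structure Good (ε : σ → K) (ν : ℕ) (p : PM n (GA K σ n)) : Prop where
  gr : p ∈ grd (A := GA K σ n) K n
  tr : pᵀ = (MvPolynomial.mapAlgHom (sw ε n)).mapMatrix p ∨
    pᵀ = -(MvPolynomial.mapAlgHom (sw ε n)).mapMatrix p
  comm : ∀ Z : Matrix (Fin n) (Fin n) K, p ^ ν * cst σ Z = cst σ Z * p ^ ν

theorem coeff_mapSw (ε : σ → K) (θ : Fin n →₀ ℕ) (g : MvPolynomial (Fin n) (GA K σ n)) :
    MvPolynomial.coeff θ (MvPolynomial.mapAlgHom (sw ε n) g) =
      sw ε n (MvPolynomial.coeff θ g) := by
  rw [MvPolynomial.mapAlgHom_apply, MvPolynomial.coeff_map]; rfl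

theorem Bd_cst (Z : Matrix (Fin n) (Fin n) K) : Bd 0 (cst σ Z) := by
  intro a b
  have : (cst σ Z) a b = MvPolynomial.C (MvPolynomial.C (Z a b)) := rfl
  rw [this, MonomialOrder.degree_C]

theorem Ld_cst_single (i j : Fin n) :
    Ld 0 (cst σ (Matrix.single i j (1 : K))) = Matrix.single i j (1 : GA K σ n) := by
  ext1 a b
  have : (cst σ (Matrix.single i j (1 : K))) a b =
    MvPolynomial.C (MvPolynomial.C ((Matrix.single i j (1 : K)) a b)) := rfl
  simp only [Ld, Matrix.map_apply, this, MvPolynomial.coeff_C, if_true]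
  simp only [Matrix.single, Matrix.of_apply]
  split_ifs <;> simp

/-- The leading matrix is a nonzero scalar. -/
theorem lead_scalar {ε : σ → K} {ν : ℕ} {p : PM n (GA K σ n)} (hg : Good ε ν p)
    (hν : 0 < ν) (hpar : Odd ν ∨ n ≠ 2) (hK : ∀ x : K, x ^ ν = 1 → x = 1)
    {θ : Fin n →₀ ℕ} (hθ : Bd θ p) (hΛ0 : Ld θ p ≠ 0) :
    ∃ l : GA K σ n, l ≠ 0 ∧ Ld θ p = Matrix.scalar (Fin n) l ∧
      Finsupp.weight (wt n) θ = 0 := by
  classical
  set Λ := Ld θ p with hΛ
  set s := MvPolynomial.mapAlgHom (σ := Fin n) (sw ε n) with hs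
  have hswne : ∀ a b, Λ a b ≠ 0 → Λ b a ≠ 0 := by
    intro a b hab hba
    apply hab
    have e : p a b = s (p b a) ∨ p a b = -s (p b a) := by
      rcases hg.tr with hh | hh
      · left; exact congrFun (congrFun hh b) a
      · right; exact congrFun (congrFun hh b) a
    have hz : MvPolynomial.coeff θ (p b a) = 0 := hba
    show MvPolynomial.coeff θ (p a b) = 0
    rcases e with e | e
    · rw [e, hs, coeff_mapSw, hz, map_zero]
    · rw [e, MvPolynomial.coeff_neg, hs, coeff_mapSw, hz, map_zero, neg_zero]
  have hΛscal : ∀ i j : Fin n, Commute (Matrix.single i j (1 : GA K σ n)) (Λ ^ ν) := by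
    intro i j
    have hb := Bd_cst (σ := σ) (Matrix.single i j (1 : K))
    have e1 := Ld_mul (Bd_pow hθ ν) hb
    have e2 := Ld_mul hb (Bd_pow hθ ν)
    rw [add_zero] at e1
    rw [zero_add] at e2
    rw [hg.comm, e2, Ld_cst_single, Ld_pow hθ] at e1
    exact e1
  obtain ⟨c, hc⟩ := Matrix.mem_range_scalar_iff_commute_single'.mpr hΛscal
  have hdiag : ∀ j k, j ≠ k → Λ j k = 0 := by
    intro j k hjk
    by_contra hx
    have hsupp : ∀ a b, Λ a b ≠ 0 → (a = j ∧ b = k) ∨ (a = k ∧ b = j) := by
      intro a b hab
      apply wt_pair hjk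
      rw [← grd_Ld hg.gr θ a b hab, ← grd_Ld hg.gr θ j k hx]
    rcases Nat.even_or_odd ν with ⟨m, hm⟩ | ⟨m, hm⟩
    · have hn2 : n ≠ 2 := by
        rcases hpar with h | h
        · exact absurd h (by rw [Nat.not_odd_iff_even]; exact ⟨m, hm⟩)
        · exact h
      obtain ⟨l, hlj, hlk⟩ : ∃ l : Fin n, l ≠ j ∧ l ≠ k := by
        by_contra hcon
        push Not at hcon
        apply hn2
        have : (Finset.univ : Finset (Fin n)) = {j, k} := by
          ext x
          simp only [Finset.mem_univ, Finset.mem_insert, Finset.mem_singleton, true_iff]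
          by_cases hxj : x = j
          · exact Or.inl hxj
          · exact Or.inr (hcon x hxj)
        have h2 := congrArg Finset.card this
        rw [Finset.card_fin, Finset.card_pair hjk] at h2
        exact h2
      obtain ⟨h1, h2⟩ := offdiag_even Λ hjk hsupp m
      have hm' : ν = 2 * m := by omega
      have h3 := h2 l hlj hlk (by omega)
      rw [← hm', ← hc] at h1 h3
      simp at h1 h3
      rw [h3] at h1
      exact pow_ne_zero m (mul_ne_zero hx (hswne j k hx)) h1.symm
    · have := offdiag Λ hjk hx (hswne j k hx) hsupp m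
      apply this
      rw [← hm, ← hc]
      simp [hjk]
  have hdiag' : Λ = Matrix.diagonal (fun j => Λ j j) := by
    ext1 j k
    by_cases e : j = k
    · subst e; simp
    · rw [hdiag j k e, Matrix.diagonal_apply_ne _ e]
  have hpw : ∀ j, Λ j j ^ ν = c := by
    intro j
    have e := congrFun (congrFun hc j) j
    rw [hdiag', Matrix.diagonal_pow] at e
    simp at e
    exact e.symm
  obtain ⟨j0, hj0⟩ : ∃ j, Λ j j ≠ 0 := by
    by_contra hcon
    push Not at hcon
    apply hΛ0
    rw [hdiag']
    ext1 a b
    by_cases e : a = b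
    · subst e; simp [hcon]
    · rw [Matrix.diagonal_apply_ne _ e, Matrix.zero_apply]
  refine ⟨Λ j0 j0, hj0, ?_, ?_⟩
  · conv_lhs => rw [hdiag']
    ext1 a b
    by_cases e : a = b
    · subst e
      simp only [Matrix.diagonal_apply_eq, Matrix.scalar_apply]
      exact (eq_of_pow_eq hν hK _ _ hj0 ((hpw j0).trans (hpw a).symm)).symm
    · rw [Matrix.diagonal_apply_ne _ e, Matrix.scalar_apply, Matrix.diagonal_apply_ne _ e]
  · rw [grd_Ld hg.gr θ j0 j0 hj0]
    funext x; simp only [Pi.add_apply, Pi.zero_apply]; exact CharTwo.add_self_eq_zero _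

/-- The case of a power of the characteristic. -/
theorem comm_charP {ε : σ → K} (q : ℕ) [Fact q.Prime] [CharP K q] (e : ℕ)
    (hpar : Odd (q ^ e) ∨ n ≠ 2) (p : PM n (GA K σ n)) (hg : Good ε (q ^ e) p)
    (Y : Matrix (Fin n) (Fin n) K) : p * cst σ Y = cst σ Y * p := by
  classical
  have hq : 0 < q := (Fact.out : q.Prime).pos
  have hK : ∀ x : K, x ^ (q ^ e) = 1 → x = 1 := by
    intro x hx
    have h1 : (x - 1) ^ q ^ e = 0 := by
      rw [sub_pow_char_pow, hx, one_pow, sub_self]
    exact sub_eq_zero.mp (eq_zero_of_pow_eq_zero h1)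
  have main : ∀ (x : (mo n).syn) (p : PM n (GA K σ n)), Good ε (q ^ e) p →
      ∀ θ, (mo n).toSyn θ = x → Bd θ p → Ld θ p ≠ 0 → p * cst σ Y = cst σ Y * p := by
    intro x
    induction x using (wellFounded_lt (α := (mo n).syn)).induction with
    | _ x ih =>
      intro p hg θ hx hθ hΛ
      obtain ⟨l, hl0, hl, hw⟩ := lead_scalar hg (pow_pos hq e) hpar hK hθ hΛ
      set g : MvPolynomial (Fin n) (GA K σ n) := MvPolynomial.monomial θ l with hgd
      set S : PM n (GA K σ n) := Matrix.scalar (Fin n) g with hS
      have hSc : ∀ M : PM n (GA K σ n), S * M = M * S := fun M =>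
        (Matrix.scalar_commute g (fun _ => mul_comm _ _) M).eq
      have hBdS : Bd θ S := by
        intro a b
        by_cases hab : a = b
        · subst hab
          rw [hS, Matrix.scalar_apply, Matrix.diagonal_apply_eq]
          exact MonomialOrder.degree_monomial_le _
        · rw [hS, Matrix.scalar_apply, Matrix.diagonal_apply_ne _ hab,
            MonomialOrder.degree_zero, map_zero]
          exact bot_le
      have hLdS : Ld θ S = Ld θ p := by
        rw [hl]
        ext1 a b
        by_cases hab : a = b
        · subst hab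
          simp [hS, Ld, hgd]
        · simp [hS, Ld, hgd, hab]
      -- the nonempty case
      have hne : Nonempty (Fin n) := by
        by_contra hemp
        rw [not_nonempty_iff] at hemp
        exact hΛ (Subsingleton.elim _ _)
      obtain ⟨j0⟩ := hne
      have : Nonempty (Fin n) := ⟨j0⟩
      have hlj : MvPolynomial.coeff θ (p j0 j0) = l := by
        have := congrFun (congrFun hl j0) j0
        simpa [Ld] using this
      have hg1 : Good ε (q ^ e) (p - S) := by
        refine ⟨?_, ?_, ?_⟩
        · refine Subalgebra.sub_mem _ hg.gr ?_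
          intro a b
          by_cases hab : a = b
          · subst hab
            rw [hS, Matrix.scalar_apply, Matrix.diagonal_apply_eq]
            apply MvPolynomial.isWeightedHomogeneous_monomial
            rw [hw]
            funext x; simp only [Pi.add_apply, Pi.zero_apply]
            exact (CharTwo.add_self_eq_zero _).symm
          · rw [hS, Matrix.scalar_apply, Matrix.diagonal_apply_ne _ hab]
            exact MvPolynomial.isWeightedHomogeneous_zero _ _ _
        · have hSt : Sᵀ = S := by rw [hS, Matrix.scalar_apply, Matrix.diagonal_transpose]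
          rcases hg.tr with ht | ht
          · left
            have h1 : sw ε n l = l := by
              have e1 := congrArg (MvPolynomial.coeff θ) (congrFun (congrFun ht j0) j0)
              rw [Matrix.transpose_apply, AlgHom.mapMatrix_apply, Matrix.map_apply,
                coeff_mapSw, hlj] at e1
              exact e1.symm
            have h2 : (MvPolynomial.mapAlgHom (sw ε n)).mapMatrix S = S := by
              ext1 a b
              by_cases hab : a = b
              · subst hab
                simp only [hS, hgd, AlgHom.mapMatrix_apply, Matrix.map_apply,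
                  Matrix.scalar_apply, Matrix.diagonal_apply_eq, MvPolynomial.mapAlgHom_apply,
                  MvPolynomial.map_monomial]
                congr 1
              · simp [hS, hab]
            rw [transpose_sub, ht, hSt, map_sub, h2]
          · right
            have h1 : sw ε n l = -l := by
              have e1 := congrArg (MvPolynomial.coeff θ) (congrFun (congrFun ht j0) j0)
              rw [Matrix.transpose_apply, Matrix.neg_apply, MvPolynomial.coeff_neg,
                AlgHom.mapMatrix_apply, Matrix.map_apply, coeff_mapSw, hlj] at e1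
              have e2 := congrArg Neg.neg e1
              rw [neg_neg] at e2
              exact e2.symm
            have h2 : (MvPolynomial.mapAlgHom (sw ε n)).mapMatrix S = -S := by
              ext1 a b
              by_cases hab : a = b
              · subst hab
                simp only [hS, hgd, AlgHom.mapMatrix_apply, Matrix.map_apply, Matrix.neg_apply,
                  Matrix.scalar_apply, Matrix.diagonal_apply_eq, MvPolynomial.mapAlgHom_apply,
                  MvPolynomial.map_monomial]
                rw [← map_neg]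
                congr 1
              · simp [hS, hab]
            rw [transpose_sub, ht, hSt, map_sub, h2]
            abel
        · intro Z
          have hcA : CharP (GA K σ n) q := inferInstance
          have hcP : CharP (MvPolynomial (Fin n) (GA K σ n)) q := inferInstance
          have hcM : CharP (PM n (GA K σ n)) q := inferInstance
          have e1 : (p - S) ^ q ^ e = p ^ q ^ e - S ^ q ^ e :=
            sub_pow_char_pow_of_commute q e (hSc p).symm
          rw [e1, sub_mul, mul_sub, hg.comm]
          congr 1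
          have : Commute S (cst σ Z) := hSc _
          exact (this.pow_left _).eq
      -- commutation for `p - S`
      have hfin : (p - S) * cst σ Y = cst σ Y * (p - S) := by
        by_cases h0 : p - S = 0
        · rw [h0, zero_mul, mul_zero]
        obtain ⟨η, hη, hη0⟩ := exists_lead _ h0
        have hηne : η ≠ θ := by
          rintro rfl
          apply hη0
          have : Ld η (p - S) = Ld η p - Ld η S := by
            ext j k; simp [Ld]
          rw [this, hLdS, sub_self]
        have hηle : (mo n).toSyn η ≤ (mo n).toSyn θ := by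
          obtain ⟨a, b, hab⟩ : ∃ a b, Ld η (p - S) a b ≠ 0 := by
            by_contra hcon
            push Not at hcon
            exact hη0 (by ext1 a b; exact hcon a b)
          have h1 : η ∈ ((p - S) a b).support := MvPolynomial.mem_support_iff.mpr hab
          have h2 := (mo n).le_degree h1
          refine le_trans h2 ?_
          rw [Matrix.sub_apply]
          refine le_trans MonomialOrder.degree_sub_le ?_
          exact max_le (hθ a b) (hBdS a b)
        have hlt : (mo n).toSyn η < x := by
          rw [← hx]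
          exact lt_of_le_of_ne hηle (fun h => hηne ((mo n).toSyn.injective h))
        exact ih _ hlt (p - S) hg1 η rfl hη hη0
      have : p = (p - S) + S := by abel
      rw [this, add_mul, mul_add, hfin, hSc]
  by_cases h0 : p = 0
  · rw [h0, zero_mul, mul_zero]
  obtain ⟨θ, hθ, hΛ⟩ := exists_lead p h0
  exact main _ p hg θ rfl hθ hΛ

/-- The case of an exponent prime to the characteristic. -/
theorem comm_coprime {ε : σ → K} {ν : ℕ} (hν : 0 < ν) (hνK : (ν : K) ≠ 0)
    (hK : ∀ x : K, x ^ ν = 1 → x = 1) (hpar : Odd ν ∨ n ≠ 2) (p : PM n (GA K σ n))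
    (hg : Good ε ν p) (Y : Matrix (Fin n) (Fin n) K) : p * cst σ Y = cst σ Y * p := by
  by_cases h0 : p = 0
  · rw [h0, zero_mul, mul_zero]
  obtain ⟨θ, hθ, hΛ⟩ := exists_lead p h0
  obtain ⟨l, hl0, hl, _⟩ := lead_scalar hg hν hpar hK hθ hΛ
  have hνA : ((ν : ℕ) : GA K σ n) ≠ 0 := by
    have : ((ν : ℕ) : GA K σ n) = MvPolynomial.C (ν : K) := by simp
    rw [this]
    exact fun e => hνK (MvPolynomial.C_injective _ _ (by rw [e, map_zero]))
  exact comm_of_lead p _ θ hθ l hl0 hl ν hν hνA (hg.comm Y)

/-- All exponents. -/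
theorem comm_all {ε : σ → K} {ν : ℕ} (hν : 0 < ν)
    (hK : ∀ x : K, x ^ ν = 1 → x = 1) (hpar : Odd ν ∨ n ≠ 2) (p : PM n (GA K σ n))
    (hg : Good ε ν p) (Y : Matrix (Fin n) (Fin n) K) : p * cst σ Y = cst σ Y * p := by
  obtain ⟨q, hq⟩ := CharP.exists K
  rcases CharP.char_is_prime_or_zero K q with hprime | hzero
  · haveI : Fact q.Prime := ⟨hprime⟩
    obtain ⟨e, ν', hν', rfl⟩ := Nat.exists_eq_pow_mul_and_not_dvd hν.ne' q hprime.ne_one
    have hν'0 : 0 < ν' := Nat.pos_of_ne_zero (by rintro rfl; simp at hν)
    have hpar1 : Odd ν' ∨ n ≠ 2 := by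
      rcases hpar with h | h
      · exact Or.inl (Nat.odd_mul.mp h).2
      · exact Or.inr h
    have hpar2 : Odd (q ^ e) ∨ n ≠ 2 := by
      rcases hpar with h | h
      · exact Or.inl (Nat.odd_mul.mp h).1
      · exact Or.inr h
    have hK' : ∀ x : K, x ^ ν' = 1 → x = 1 := by
      intro x hx
      apply hK
      rw [mul_comm, pow_mul, hx, one_pow]
    have hνK : (ν' : K) ≠ 0 := fun h => hν' ((CharP.cast_eq_zero_iff K q ν').mp h)
    have hg1 : Good ε ν' (p ^ q ^ e) := by
      refine ⟨Subalgebra.pow_mem _ hg.gr _, ?_, fun Z => ?_⟩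
      · rcases hg.tr with ht | ht
        · left; rw [transpose_pow, ht, map_pow]
        · rcases Nat.even_or_odd (q ^ e) with hev | hod
          · left; rw [transpose_pow, ht, hev.neg_pow, map_pow]
          · right; rw [transpose_pow, ht, hod.neg_pow, map_pow]
      · rw [← pow_mul]; exact hg.comm Z
    have h1 := fun Z => comm_coprime hν'0 hνK hK' hpar1 _ hg1 Z
    exact comm_charP q e hpar2 p ⟨hg.gr, hg.tr, h1⟩ Y
  · subst hzero
    have := CharP.charP_to_charZero K
    exact comm_coprime hν (Nat.cast_ne_zero.mpr hν.ne') hK hpar p hg Y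

/-- The theorem on `M_n(K)`. -/
theorem final_K [Infinite K] (ε : σ → K) (hε : ∀ i, ε i = 1 ∨ ε i = -1) (f : FreeAlgebra K σ)
    (hsym : (∀ X : σ → Matrix (Fin n) (Fin n) K,
        FreeAlgebra.lift K X (rev ε f) = FreeAlgebra.lift K X f) ∨
      (∀ X : σ → Matrix (Fin n) (Fin n) K,
        FreeAlgebra.lift K X (rev ε f) = -FreeAlgebra.lift K X f))
    (ν : ℕ) (hν : 0 < ν) (hK : ∀ x : K, x ^ ν = 1 → x = 1) (hpar : Odd ν ∨ n ≠ 2)
    (h : ∀ X : σ → Matrix (Fin n) (Fin n) K, ∀ Z : Matrix (Fin n) (Fin n) K,
      FreeAlgebra.lift K X (f ^ ν) * Z = Z * FreeAlgebra.lift K X (f ^ ν))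
    (X : σ → Matrix (Fin n) (Fin n) K) (Y : Matrix (Fin n) (Fin n) K) :
    FreeAlgebra.lift K X f * Y = Y * FreeAlgebra.lift K X f := by
  have hg : Good ε ν (FreeAlgebra.lift K (dsd K σ n) f) := by
    refine ⟨lift_mem _ _ dsd_grd f, ?_, fun Z => ?_⟩
    · have e := transpose_lift (MvPolynomial.mapAlgHom (σ := Fin n) (sw ε n)) ε (dsd K σ n)
        (dsd_transpose ε hε) f
      rcases hsym with hsm | hsm
      · left
        have e2 := transfer (rev ε f - f) (fun X => by rw [map_sub, hsm, sub_self]) (dsd K σ n)
        rw [map_sub, sub_eq_zero] at e2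
        rw [e, e2]
      · right
        have e2 := transfer (rev ε f + f) (fun X => by rw [map_add, hsm, neg_add_cancel])
          (dsd K σ n)
        rw [map_add, add_eq_zero_iff_eq_neg] at e2
        rw [e, e2, map_neg]
    · have := transfer_comm (f ^ ν) Z (fun X => h X Z) (dsd K σ n)
      rwa [map_pow] at this
  have e := comm_all hν hK hpar _ hg Y
  let ψ : MvPolynomial (Fin n) (GA K σ n) →ₐ[K] K :=
    (spz X).comp ((MvPolynomial.aeval (R := GA K σ n) (fun _ : Fin n => (1 : GA K σ n))).restrictScalars K)
  have hψ : (fun i => ψ.mapMatrix (dsd K σ n i)) = X := by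
    funext i
    ext b c
    simp [ψ, dsd, spz]
  have e2 := congrArg (AlgHom.mapMatrix (m := Fin n) ψ) e
  rw [map_mul, map_mul, lift_map, hψ, map_const] at e2
  have : Y.map (algebraMap K K) = Y := by ext b c; simp
  rwa [this] at e2

end Pool.Agent.H552R3.PC
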