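import Mathlib
import Pool.Agent.H552R3.PC.Core2

/-!
Degree bound for symmetric and skew polynomials all of whose values have characteristic
polynomial `x ^ n - c`.
-/

namespace Pool.Agent.H552R3.PC

open Matrix

section LeadGen

variable {A : Type*} [CommRing A] {n : ℕ}

theorem coeff_prod_lead {ι : Type*} (s : Finset ι) (g : ι → MvPolynomial (Fin n) A)
    (θ : Fin n →₀ ℕ) (hg : ∀ i ∈ s, (mo n).toSyn ((mo n).degree (g i)) ≤ (mo n).toSyn θ) :
    (mo n).toSyn ((mo n).degree (∏ i ∈ s, g i)) ≤ (mo n).toSyn (s.card • θ) ∧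
      MvPolynomial.coeff (s.card • θ) (∏ i ∈ s, g i) = ∏ i ∈ s, MvPolynomial.coeff θ (g i) := by
  classical
  induction s using Finset.induction_on with
  | empty => simp
  | insert a s ha ih =>
    obtain ⟨h1, h2⟩ := ih (fun i hi => hg i (Finset.mem_insert_of_mem hi))
    have h3 := hg a (Finset.mem_insert_self _ _)
    rw [Finset.prod_insert ha, Finset.prod_insert ha, Finset.card_insert_of_notMem ha,
      succ_nsmul']
    constructor
    · refine le_trans MonomialOrder.degree_mul_le ?_
      rw [map_add, map_add]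
      exact add_le_add h3 h1
    · rw [MonomialOrder.coeff_mul_of_add_of_degree_le h3 h1, h2]

theorem coeff_det_lead (M : PM n A) (θ : Fin n →₀ ℕ) (hM : Bd θ M) :
    MvPolynomial.coeff (n • θ) M.det = (Ld θ M).det := by
  rw [det_apply, det_apply, MvPolynomial.coeff_sum]
  refine Finset.sum_congr rfl fun τ _ => ?_
  have h := (coeff_prod_lead Finset.univ (fun i => M (τ i) i) θ (fun i _ => hM _ _)).2
  rw [Finset.card_fin] at h
  rw [MvPolynomial.coeff_smul, h]
  rfl

end LeadGen

variable {K : Type*} [Field K] {σ : Type*} {n : ℕ}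

/-- `ν`-th roots of unity in a polynomial ring over a field are constants. -/
theorem smul_of_pow_eq {ι : Type*} {ν : ℕ} (hν : 0 < ν)
    (x y : MvPolynomial ι K) (hx : x ≠ 0) (h : x ^ ν = y ^ ν) :
    ∃ r : K, r ^ ν = 1 ∧ y = MvPolynomial.C r * x := by
  have h1 : x ∣ y :=
    (IsIntegrallyClosed.pow_dvd_pow_iff (R := MvPolynomial ι K) hν.ne').mp (h ▸ dvd_rfl)
  obtain ⟨u, rfl⟩ := h1
  have h2 : u ^ ν = 1 := by
    rw [mul_pow] at h
    have hxν : x ^ ν ≠ 0 := pow_ne_zero _ hx
    exact mul_left_cancel₀ hxν (by rw [← h, mul_one])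
  have h3 : IsUnit u := IsUnit.of_pow_eq_one h2 hν.ne'
  obtain ⟨r, _, rfl⟩ := MvPolynomial.isUnit_iff_eq_C_of_isReduced.mp h3
  have h4 : r ^ ν = 1 := by
    apply MvPolynomial.C_injective ι K
    rw [map_pow, h2, map_one]
  exact ⟨r, h4, mul_comm _ _⟩

/-- The leading matrix is diagonal with entries of equal `ν`-th power. -/
theorem lead_diag {ε : σ → K} {ν : ℕ} {p : PM n (GA K σ n)} (hg : Good ε ν p)
    (hodd : Odd ν) {θ : Fin n →₀ ℕ} (hθ : Bd θ p) (hΛ0 : Ld θ p ≠ 0) :
    (∀ j k, j ≠ k → Ld θ p j k = 0) ∧ (∃ c, ∀ j, Ld θ p j j ^ ν = c) ∧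
      (∃ j, Ld θ p j j ≠ 0) ∧ Finsupp.weight (wt n) θ = 0 := by
  classical
  set Λ := Ld θ p with hΛ
  set s := MvPolynomial.mapAlgHom (σ := Fin n) (sw ε n) with hs
  have hswne : ∀ a b, Λ a b ≠ 0 → Λ b a ≠ 0 := by
    intro a b hab hba
    apply hab
    have e : p a b = s (p b a) ∨ p a b = -s (p b a) := by
      rcases hg.tr with hh | hh
      · left; exact congrFun (congrFun hh b) a
      · right; exact congrFun (congrFun hh b) a
    have hz : MvPolynomial.coeff θ (p b a) = 0 := hba
    show MvPolynomial.coeff θ (p a b) = 0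
    rcases e with e | e
    · rw [e, hs, coeff_mapSw, hz, map_zero]
    · rw [e, MvPolynomial.coeff_neg, hs, coeff_mapSw, hz, map_zero, neg_zero]
  have hΛscal : ∀ i j : Fin n, Commute (Matrix.single i j (1 : GA K σ n)) (Λ ^ ν) := by
    intro i j
    have hb := Bd_cst (σ := σ) (Matrix.single i j (1 : K))
    have e1 := Ld_mul (Bd_pow hθ ν) hb
    have e2 := Ld_mul hb (Bd_pow hθ ν)
    rw [add_zero] at e1
    rw [zero_add] at e2
    rw [hg.comm, e2, Ld_cst_single, Ld_pow hθ] at e1
    exact e1
  obtain ⟨c, hc⟩ := Matrix.mem_range_scalar_iff_commute_single'.mpr hΛscal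
  have hdiag : ∀ j k, j ≠ k → Λ j k = 0 := by
    intro j k hjk
    by_contra hx
    have hsupp : ∀ a b, Λ a b ≠ 0 → (a = j ∧ b = k) ∨ (a = k ∧ b = j) := by
      intro a b hab
      apply wt_pair hjk
      rw [← grd_Ld hg.gr θ a b hab, ← grd_Ld hg.gr θ j k hx]
    obtain ⟨m, hm⟩ := hodd
    have := offdiag Λ hjk hx (hswne j k hx) hsupp m
    apply this
    rw [← hm, ← hc]
    simp [hjk]
  have hdiag' : Λ = Matrix.diagonal (fun j => Λ j j) := by
    ext1 j k
    by_cases e : j = k
    · subst e; simp
    · rw [hdiag j k e, Matrix.diagonal_apply_ne _ e]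
  have hj0 : ∃ j, Λ j j ≠ 0 := by
    by_contra hcon
    push Not at hcon
    apply hΛ0
    rw [hdiag']
    ext1 a b
    by_cases e : a = b
    · subst e; simp [hcon]
    · rw [Matrix.diagonal_apply_ne _ e, Matrix.zero_apply]
  refine ⟨hdiag, ⟨c, fun j => ?_⟩, hj0, ?_⟩
  · have e := congrFun (congrFun hc j) j
    rw [hdiag', Matrix.diagonal_pow] at e
    simp at e
    exact e.symm
  · obtain ⟨j0, hj0⟩ := hj0
    rw [grd_Ld hg.gr θ j0 j0 hj0]
    funext x; simp only [Pi.add_apply, Pi.zero_apply]; exact CharTwo.add_self_eq_zero _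

theorem charpoly_spz (f : FreeAlgebra K σ) (i : ℕ)
    {B : Type*} [CommRing B] [Algebra K B] (W : σ → Matrix (Fin n) (Fin n) B) :
    (FreeAlgebra.lift K W f).charpoly.coeff i =
      spz W ((FreeAlgebra.lift K (gen K σ n) f).charpoly.coeff i) := by
  rw [← spz_gen, AlgHom.mapMatrix_apply]
  have := Matrix.charpoly_map (FreeAlgebra.lift K (gen K σ n) f)
    ((spz W : GA K σ n →ₐ[K] B) : GA K σ n →+* B)
  have e : (FreeAlgebra.lift K (gen K σ n) f).map (spz W) =
    (FreeAlgebra.lift K (gen K σ n) f).map ((spz W : GA K σ n →ₐ[K] B) : GA K σ n →+* B) := rfl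
  rw [e, this, Polynomial.coeff_map]
  rfl

/-- Transfer of the shape of the characteristic polynomial. -/
theorem transfer_charpoly [Infinite K] (f : FreeAlgebra K σ) (i : ℕ)
    (h : ∀ X : σ → Matrix (Fin n) (Fin n) K, (FreeAlgebra.lift K X f).charpoly.coeff i = 0)
    {B : Type*} [CommRing B] [Algebra K B] (W : σ → Matrix (Fin n) (Fin n) B) :
    (FreeAlgebra.lift K W f).charpoly.coeff i = 0 := by
  have hG : (FreeAlgebra.lift K (gen K σ n) f).charpoly.coeff i = 0 := by
    apply MvPolynomial.funext
    intro x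
    have e := charpoly_spz f i (fun i => Matrix.of fun b c => x (i, b, c))
    rw [h] at e
    rw [map_zero]
    simpa [spz, MvPolynomial.coe_aeval_eq_eval] using e.symm
  rw [charpoly_spz, hG, map_zero]

/-- The entries of the leading matrix are distinct. -/
theorem lead_distinct {p : PM n (GA K σ n)} [Infinite K] (hnK : (n : K) ≠ 0)
    (hcp : ∀ i, 0 < i → i < n → p.charpoly.coeff i = 0)
    {θ : Fin n →₀ ℕ} (hθ : Bd θ p) (hdiag : ∀ j k, j ≠ k → Ld θ p j k = 0)
    (hne : ∀ j, Ld θ p j j ≠ 0) (j k : Fin n) (hjk : j ≠ k) :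
    Ld θ p j j ≠ Ld θ p k k := by
  classical
  intro heq
  have hn0 : 0 < n := j.pos
  set lam : Fin n → GA K σ n := fun j => Ld θ p j j with hlam
  have hdiag' : Ld θ p = Matrix.diagonal lam := by
    ext1 j k
    by_cases e : j = k
    · subst e; simp [hlam]
    · rw [hdiag j k e, Matrix.diagonal_apply_ne _ e]
  set c0 := MvPolynomial.coeff (n • θ) (p.charpoly.coeff 0) with hc0
  have hval : ∀ y : GA K σ n, ∏ j, (y - lam j) = y ^ n + c0 := by
    intro y
    set M : PM n (GA K σ n) := Matrix.scalar (Fin n) (MvPolynomial.monomial θ y) - p with hM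
    have hBdM : Bd θ M := by
      intro a b
      rw [hM, Matrix.sub_apply]
      refine le_trans MonomialOrder.degree_sub_le (max_le ?_ (hθ a b))
      by_cases hab : a = b
      · subst hab
        rw [Matrix.scalar_apply, Matrix.diagonal_apply_eq]
        exact MonomialOrder.degree_monomial_le _
      · rw [Matrix.scalar_apply, Matrix.diagonal_apply_ne _ hab, MonomialOrder.degree_zero,
          map_zero]
        exact bot_le
    have hLdM : Ld θ M = Matrix.diagonal (fun j => y - lam j) := by
      have h1 : Ld θ M = Matrix.diagonal (fun _ => y) - Ld θ p := by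
        ext1 a b
        by_cases hab : a = b
        · subst hab; simp [hM, Ld]
        · simp [hM, Ld, hab]
      rw [h1, hdiag', Matrix.diagonal_sub]
    have h1 := coeff_det_lead M θ hBdM
    rw [hLdM, Matrix.det_diagonal] at h1
    rw [← h1]
    have h2 : M.det = p.charpoly.eval (MvPolynomial.monomial θ y) := by
      rw [Matrix.eval_charpoly]
    have h3 : p.charpoly.eval (MvPolynomial.monomial θ y) =
        (MvPolynomial.monomial θ y) ^ n + p.charpoly.coeff 0 := by
      have hdeg : p.charpoly.natDegree = n := by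
        rw [Matrix.charpoly_natDegree_eq_dim, Fintype.card_fin]
      rw [Polynomial.eval_eq_sum_range, hdeg, Finset.sum_range_succ]
      have hlead : p.charpoly.coeff n = 1 := by
        have := Matrix.charpoly_monic p
        rw [Polynomial.Monic, Polynomial.leadingCoeff, hdeg] at this
        exact this
      rw [hlead, one_mul, add_comm]
      congr 1
      rw [Finset.sum_eq_single 0]
      · simp
      · intro b hb hb0
        rw [hcp b (Nat.pos_of_ne_zero hb0) (Finset.mem_range.mp hb), zero_mul]
      · intro h; exact absurd (Finset.mem_range.mpr hn0) h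
    rw [h2, h3, MvPolynomial.coeff_add, MvPolynomial.monomial_pow, MvPolynomial.coeff_monomial,
      if_pos rfl]
  have hpoly : ∏ j, (Polynomial.X - Polynomial.C (lam j)) =
      Polynomial.X ^ n + Polynomial.C c0 := by
    apply Polynomial.funext
    intro y
    rw [Polynomial.eval_prod]
    simp only [Polynomial.eval_sub, Polynomial.eval_X, Polynomial.eval_C, Polynomial.eval_add,
      Polynomial.eval_pow]
    exact hval y
  -- a double root
  have hdvd : (Polynomial.X - Polynomial.C (lam j)) ^ 2 ∣
      ∏ j, (Polynomial.X - Polynomial.C (lam j)) := by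
    rw [← Finset.mul_prod_erase Finset.univ _ (Finset.mem_univ j),
      ← Finset.mul_prod_erase (Finset.univ.erase j) _
        (Finset.mem_erase.mpr ⟨hjk.symm, Finset.mem_univ k⟩), pow_two]
    have : lam k = lam j := heq.symm
    rw [this, ← mul_assoc]
    exact dvd_mul_right _ _
  obtain ⟨q, hq⟩ := hdvd
  rw [hpoly] at hq
  have hder := congrArg Polynomial.derivative hq
  have hev := congrArg (Polynomial.eval (lam j)) hder
  simp only [Polynomial.derivative_add, Polynomial.derivative_X_pow, Polynomial.derivative_C,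
    Polynomial.derivative_mul, Polynomial.derivative_pow, Polynomial.derivative_sub,
    Polynomial.derivative_X, Polynomial.eval_add, Polynomial.eval_mul, Polynomial.eval_pow,
    Polynomial.eval_sub, Polynomial.eval_X, Polynomial.eval_C, sub_self, Polynomial.eval_zero,
    add_zero, mul_zero, zero_mul, ne_eq, OfNat.ofNat_ne_zero, not_false_eq_true, zero_pow] at hev
  simp at hev
  rcases hev with h | h
  · apply hnK
    have : ((n : ℕ) : GA K σ n) = MvPolynomial.C (n : K) := by simp
    rw [this] at h
    exact MvPolynomial.C_injective _ _ (by rw [h, map_zero])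
  · exact hne j h.1

end Pool.Agent.H552R3.PC
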