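import Mathlib
import Pool.Agent.H552R3.PC.DegBd

/-!
Degree bound: equivariance under permutations and the degree of the leading term.
-/

namespace Pool.Agent.H552R3.PC

open Matrix

variable {K : Type*} [Field K] {σ : Type*} {n : ℕ}

/-- Action of a permutation on the coordinates of generic matrices. -/
noncomputable def permA (K : Type*) [Field K] (σ : Type*) (π : Equiv.Perm (Fin n)) :
    GA K σ n →ₐ[K] GA K σ n :=
  MvPolynomial.rename (fun p => (p.1, π p.2.1, π p.2.2))

/-- Action of a permutation on the polynomial ring over it. -/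
noncomputable def permP (K : Type*) [Field K] (σ : Type*) (π : Equiv.Perm (Fin n)) :
    MvPolynomial (Fin n) (GA K σ n) →ₐ[K] MvPolynomial (Fin n) (GA K σ n) :=
  ((MvPolynomial.rename π : MvPolynomial (Fin n) (GA K σ n) →ₐ[GA K σ n]
    MvPolynomial (Fin n) (GA K σ n)).restrictScalars K).comp
    (MvPolynomial.mapAlgHom (permA K σ π))

theorem permP_dsd (π : Equiv.Perm (Fin n)) (i : σ) :
    (permP K σ π).mapMatrix (dsd K σ n i) = (dsd K σ n i).submatrix π π := by
  ext1 a b
  simp [permP, dsd, permA]

theorem permP_lift (π : Equiv.Perm (Fin n)) (f : FreeAlgebra K σ) :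
    (permP K σ π).mapMatrix (FreeAlgebra.lift K (dsd K σ n) f) =
      (FreeAlgebra.lift K (dsd K σ n) f).submatrix π π := by
  have h1 := lift_map (permP K σ π).mapMatrix (dsd K σ n) f
  have h2 := lift_map (Matrix.reindexAlgEquiv K (MvPolynomial (Fin n) (GA K σ n))
    π.symm).toAlgHom (dsd K σ n) f
  rw [h1]
  have e : (fun i => (permP K σ π).mapMatrix (dsd K σ n i)) =
      (fun i => (Matrix.reindexAlgEquiv K (MvPolynomial (Fin n) (GA K σ n))
        π.symm).toAlgHom (dsd K σ n i)) := by
    funext i
    rw [permP_dsd]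
    rfl
  rw [e, ← h2]
  rfl

theorem coeff_permP (π : Equiv.Perm (Fin n)) (θ : Fin n →₀ ℕ) (hθ : ∀ a, θ (π a) = θ a)
    (g : MvPolynomial (Fin n) (GA K σ n)) :
    MvPolynomial.coeff θ (permP K σ π g) = permA K σ π (MvPolynomial.coeff θ g) := by
  have hm : Finsupp.mapDomain π θ = θ := by
    ext a
    rw [Finsupp.mapDomain_equiv_apply]
    have := hθ (π.symm a)
    rw [Equiv.apply_symm_apply] at this
    exact this.symm
  have h1 : permP K σ π g = MvPolynomial.rename π (MvPolynomial.map
      (permA K σ π : GA K σ n →+* GA K σ n) g) := rfl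
  rw [h1]
  conv_lhs => rw [← hm]
  rw [MvPolynomial.coeff_rename_mapDomain π π.injective, MvPolynomial.coeff_map]
  rfl

/-- Equal exponents give equal leading entries (odd `ν`). -/
theorem lead_eq_of_exp_eq (f : FreeAlgebra K σ) {ν : ℕ} (hodd : Odd ν) {θ : Fin n →₀ ℕ}
    {c : GA K σ n}
    (hpw : ∀ j, Ld θ (FreeAlgebra.lift K (dsd K σ n) f) j j ^ ν = c)
    (hne : ∀ j, Ld θ (FreeAlgebra.lift K (dsd K σ n) f) j j ≠ 0)
    (j k : Fin n) (hjk : θ j = θ k) :
    Ld θ (FreeAlgebra.lift K (dsd K σ n) f) j j =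
      Ld θ (FreeAlgebra.lift K (dsd K σ n) f) k k := by
  classical
  set p := FreeAlgebra.lift K (dsd K σ n) f with hp
  set π : Equiv.Perm (Fin n) := Equiv.swap j k with hπ
  have hθ : ∀ a, θ (π a) = θ a := by
    intro a
    by_cases h1 : a = j
    · subst h1; rw [hπ, Equiv.swap_apply_left]; exact hjk.symm
    · by_cases h2 : a = k
      · subst h2; rw [hπ, Equiv.swap_apply_right]; exact hjk
      · rw [hπ, Equiv.swap_apply_of_ne_of_ne h1 h2]
  have hact : ∀ a, permA K σ π (Ld θ p a a) = Ld θ p (π a) (π a) := by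
    intro a
    have e := congrFun (congrFun (permP_lift (K := K) (σ := σ) π f) a) a
    rw [AlgHom.mapMatrix_apply, Matrix.map_apply, Matrix.submatrix_apply] at e
    have e2 := congrArg (MvPolynomial.coeff θ) e
    rw [coeff_permP π θ hθ] at e2
    exact e2
  have hj := hact j
  have hk := hact k
  rw [hπ, Equiv.swap_apply_left] at hj
  rw [hπ, Equiv.swap_apply_right] at hk
  obtain ⟨r, hr, hrk⟩ := smul_of_pow_eq hodd.pos _ _ (hne j) ((hpw j).trans (hpw k).symm)
  -- `λ_k = r λ_j`, `λ_j = r λ_k`
  have h2 : Ld θ p j j = MvPolynomial.C r * Ld θ p k k := by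
    have e := congrArg (permA K σ (Equiv.swap j k)) hrk
    rw [map_mul] at e
    rw [← hk, e]
    congr 1
    · show permA K σ _ (algebraMap K _ r) = _
      rw [AlgHom.commutes]; rfl
  have h3 : MvPolynomial.C (r * r) * Ld θ p j j = Ld θ p j j := by
    rw [map_mul, mul_assoc, ← hrk, ← h2]
  have h4 : r * r = 1 := by
    apply MvPolynomial.C_injective _ K
    rw [map_one]
    exact mul_right_cancel₀ (hne j) (by rw [h3, one_mul])
  have h5 : r = 1 := by
    obtain ⟨m, rfl⟩ := hodd
    rw [pow_succ, pow_mul, pow_two, h4, one_pow, one_mul] at hr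
    exact hr
  rw [hrk, h5, map_one, one_mul]

/-- `f` is a linear combination of words of length at most `d`. -/
def DegLE (d : ℕ) (f : FreeAlgebra K σ) : Prop :=
  f ∈ Submodule.span K {w : FreeAlgebra K σ |
    ∃ l : List σ, l.length ≤ d ∧ w = (l.map (FreeAlgebra.ι K)).prod}

theorem word_totalDegree (l : List σ) (a b : Fin n) :
    ((FreeAlgebra.lift K (dsd K σ n) (l.map (FreeAlgebra.ι K)).prod) a b).totalDegree ≤
      2 * l.length := by
  induction l generalizing a b with
  | nil =>
    rw [List.map_nil, List.prod_nil, map_one]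
    by_cases h : a = b
    · subst h; simp
    · simp [h]
  | cons i l ih =>
    rw [List.map_cons, List.prod_cons, map_mul, FreeAlgebra.lift_ι_apply, mul_apply]
    refine (MvPolynomial.totalDegree_finsetSum_le fun c _ => ?_)
    refine (MvPolynomial.totalDegree_mul _ _).trans ?_
    have h1 : (dsd K σ n i a c).totalDegree ≤ 2 := by
      have : dsd K σ n i a c = MvPolynomial.X a *
        MvPolynomial.C (MvPolynomial.X (i, a, c)) * MvPolynomial.X c := rfl
      rw [this]
      refine (MvPolynomial.totalDegree_mul _ _).trans ?_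
      have h2 := MvPolynomial.totalDegree_mul (MvPolynomial.X a)
        (MvPolynomial.C (MvPolynomial.X (i, a, c)) : MvPolynomial (Fin n) (GA K σ n))
      rw [MvPolynomial.totalDegree_C, MvPolynomial.totalDegree_X] at h2
      rw [MvPolynomial.totalDegree_X]
      omega
    have h2 := ih c b
    rw [List.length_cons]
    omega

theorem word_dvd (i : σ) (l : List σ) (a b : Fin n) :
    (MvPolynomial.X a * MvPolynomial.X b : MvPolynomial (Fin n) (GA K σ n)) ∣
      (FreeAlgebra.lift K (dsd K σ n) ((i :: l).map (FreeAlgebra.ι K)).prod) a b := by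
  induction l generalizing i a b with
  | nil =>
    rw [List.map_cons, List.map_nil, List.prod_cons, List.prod_nil, mul_one,
      FreeAlgebra.lift_ι_apply]
    exact ⟨MvPolynomial.C (MvPolynomial.X (i, a, b)), by simp only [dsd, Matrix.of_apply]; ring⟩
  | cons i' l ih =>
    rw [List.map_cons, List.prod_cons, map_mul, FreeAlgebra.lift_ι_apply, mul_apply]
    refine Finset.dvd_sum fun c _ => ?_
    refine mul_dvd_mul ?_ ?_
    · exact ⟨MvPolynomial.C (MvPolynomial.X (i, a, c)) * MvPolynomial.X c, by
        simp only [dsd, Matrix.of_apply]; ring⟩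
    · exact (Dvd.intro_left _ rfl).trans (ih i' c b)

theorem deg_props {d : ℕ} {f : FreeAlgebra K σ} (hf : DegLE d f) :
    (∀ a b, ((FreeAlgebra.lift K (dsd K σ n) f) a b).totalDegree ≤ 2 * d) ∧
    ∃ c : K, ∀ j, (MvPolynomial.X j ^ 2 : MvPolynomial (Fin n) (GA K σ n)) ∣
      (FreeAlgebra.lift K (dsd K σ n) f) j j - algebraMap K _ c := by
  induction hf using Submodule.span_induction with
  | mem x hx =>
    obtain ⟨l, hl, rfl⟩ := hx
    refine ⟨fun a b => (word_totalDegree l a b).trans (by omega), ?_⟩
    cases l with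
    | nil => exact ⟨1, fun j => by simp⟩
    | cons i l =>
      refine ⟨0, fun j => ?_⟩
      rw [map_zero, sub_zero, pow_two]
      exact word_dvd i l j j
  | zero => exact ⟨fun a b => by simp, 0, fun j => by simp⟩
  | add x y _ _ hx hy =>
    obtain ⟨hx1, c1, hc1⟩ := hx
    obtain ⟨hy1, c2, hc2⟩ := hy
    refine ⟨fun a b => ?_, c1 + c2, fun j => ?_⟩
    · rw [map_add, Matrix.add_apply]
      exact (MvPolynomial.totalDegree_add _ _).trans (max_le (hx1 a b) (hy1 a b))
    · rw [map_add, Matrix.add_apply, map_add]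
      have := dvd_add (hc1 j) (hc2 j)
      convert this using 1
      ring
  | smul r x _ hx =>
    obtain ⟨hx1, c1, hc1⟩ := hx
    refine ⟨fun a b => ?_, r * c1, fun j => ?_⟩
    · rw [map_smul, Matrix.smul_apply]
      have e : r • (FreeAlgebra.lift K (dsd K σ n) x a b) =
          MvPolynomial.C (MvPolynomial.C r) * (FreeAlgebra.lift K (dsd K σ n) x a b) := by
        rw [Algebra.smul_def]; rfl
      rw [e]
      refine (MvPolynomial.totalDegree_mul _ _).trans ?_
      rw [MvPolynomial.totalDegree_C, zero_add]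
      exact hx1 a b
    · rw [map_smul, Matrix.smul_apply, map_mul, Algebra.smul_def, ← mul_sub]
      exact (hc1 j).mul_left _

theorem sum_ge (s : Finset ℕ) (hs : ∀ x ∈ s, 1 ≤ x) :
    s.card * (s.card + 1) ≤ 2 * ∑ x ∈ s, x := by
  induction s using Finset.induction_on_max with
  | empty => simp
  | insert a s hmax ih =>
    have hna : a ∉ s := fun h => lt_irrefl _ (hmax a h)
    rw [Finset.card_insert_of_notMem hna, Finset.sum_insert hna]
    have h1 := ih (fun x hx => hs x (Finset.mem_insert_of_mem hx))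
    have h2 : s.card + 1 ≤ a := by
      have hsub : s ⊆ Finset.Ico 1 a := by
        intro x hx
        rw [Finset.mem_Ico]
        exact ⟨hs x (Finset.mem_insert_of_mem hx), hmax x hx⟩
      have h3 := Finset.card_le_card hsub
      rw [Nat.card_Ico] at h3
      have h4 := hs a (Finset.mem_insert_self _ _)
      omega
    nlinarith

theorem sum_inj_ge (g : Fin n → ℕ) (hg : Function.Injective g) (h1 : ∀ j, 1 ≤ g j) :
    n * (n + 1) ≤ 2 * ∑ j, g j := by
  classical
  have h := sum_ge (Finset.univ.image g) (by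
    intro x hx
    obtain ⟨j, _, rfl⟩ := Finset.mem_image.mp hx
    exact h1 j)
  rw [Finset.card_image_of_injective _ hg, Finset.card_fin,
    Finset.sum_image (fun a _ b _ h => hg h)] at h
  exact h

end Pool.Agent.H552R3.PC
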