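import Mathlib
import Pool.Agent.H552R3.PC.DegBd2

/-!
Degree bound: the final theorem.
-/

namespace Pool.Agent.H552R3.PC

open Matrix

variable {K : Type*} [Field K] {σ : Type*} {n : ℕ}

theorem deg_bound [Infinite K] (hodd : Odd n) (hn1 : n ≠ 1) (hnK : (n : K) ≠ 0)
    (ε : σ → K) (hε : ∀ i, ε i = 1 ∨ ε i = -1) (f : FreeAlgebra K σ)
    (hsym : (∀ X : σ → Matrix (Fin n) (Fin n) K,
        FreeAlgebra.lift K X (rev ε f) = FreeAlgebra.lift K X f) ∨
      (∀ X : σ → Matrix (Fin n) (Fin n) K,
        FreeAlgebra.lift K X (rev ε f) = -FreeAlgebra.lift K X f))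
    (hchar : ∀ X : σ → Matrix (Fin n) (Fin n) K,
      ∃ c : K, (FreeAlgebra.lift K X f).charpoly = Polynomial.X ^ n - Polynomial.C c)
    (hne0 : ∃ X : σ → Matrix (Fin n) (Fin n) K, FreeAlgebra.lift K X f ≠ 0)
    (d : ℕ) (hd : DegLE d f) : n * (n + 1) ≤ 2 * d := by
  classical
  -- the power `f ^ n` is scalar valued
  have hpow : ∀ X : σ → Matrix (Fin n) (Fin n) K, ∀ Z : Matrix (Fin n) (Fin n) K,
      FreeAlgebra.lift K X (f ^ n) * Z = Z * FreeAlgebra.lift K X (f ^ n) := by
    intro X Z
    obtain ⟨c, hc⟩ := hchar X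
    have h1 := Matrix.aeval_self_charpoly (FreeAlgebra.lift K X f)
    rw [hc, map_sub, map_pow, Polynomial.aeval_X, Polynomial.aeval_C, sub_eq_zero] at h1
    rw [map_pow, h1]
    exact Algebra.commutes c Z
  set p := FreeAlgebra.lift K (dsd K σ n) f with hp
  have hg : Good ε n p := by
    refine ⟨lift_mem _ _ dsd_grd f, ?_, fun Z => ?_⟩
    · have e := transpose_lift (MvPolynomial.mapAlgHom (σ := Fin n) (sw ε n)) ε (dsd K σ n)
        (dsd_transpose ε hε) f
      rcases hsym with hsm | hsm
      · left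
        have e2 := transfer (rev ε f - f) (fun X => by rw [map_sub, hsm, sub_self]) (dsd K σ n)
        rw [map_sub, sub_eq_zero] at e2
        rw [hp, e, e2]
      · right
        have e2 := transfer (rev ε f + f) (fun X => by rw [map_add, hsm, neg_add_cancel])
          (dsd K σ n)
        rw [map_add, add_eq_zero_iff_eq_neg] at e2
        rw [hp, e, e2, map_neg]
    · have := transfer_comm (f ^ n) Z (fun X => hpow X Z) (dsd K σ n)
      rwa [map_pow] at this
  -- `p ≠ 0`
  have hp0 : p ≠ 0 := by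
    intro h0
    obtain ⟨X, hX⟩ := hne0
    apply hX
    let ψ : MvPolynomial (Fin n) (GA K σ n) →ₐ[K] K :=
      (spz X).comp ((MvPolynomial.aeval (R := GA K σ n)
        (fun _ : Fin n => (1 : GA K σ n))).restrictScalars K)
    have hψ : (fun i => ψ.mapMatrix (dsd K σ n i)) = X := by
      funext i
      ext b c
      simp [ψ, dsd, spz]
    have e := congrArg (AlgHom.mapMatrix (m := Fin n) ψ) h0
    rw [hp, lift_map, hψ, map_zero] at e
    exact e
  obtain ⟨θ, hθ, hΛ⟩ := exists_lead p hp0
  obtain ⟨hdiag, ⟨c, hpw⟩, ⟨j0, hj0⟩, hw⟩ := lead_diag hg hodd hθ hΛ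
  have hn0 : 0 < n := hodd.pos
  have hne : ∀ j, Ld θ p j j ≠ 0 := by
    intro j h0
    have h1 := hpw j
    rw [h0, zero_pow hn0.ne'] at h1
    have h2 := hpw j0
    rw [← h1] at h2
    exact hj0 (pow_eq_zero_iff hn0.ne' |>.mp h2)
  have hcp : ∀ i, 0 < i → i < n → p.charpoly.coeff i = 0 := by
    intro i hi hin
    refine transfer_charpoly f i (fun X => ?_) _
    obtain ⟨c, hc⟩ := hchar X
    rw [hc, Polynomial.coeff_sub, Polynomial.coeff_X_pow, Polynomial.coeff_C,
      if_neg hin.ne, if_neg hi.ne', sub_self]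
  have hdist := lead_distinct hnK hcp hθ hdiag hne
  -- the exponents are distinct
  have hinj : Function.Injective θ := by
    intro j k hjk
    by_contra hne'
    exact hdist j k hne' (lead_eq_of_exp_eq f hodd hpw hne j k hjk)
  -- the exponents are even
  have heven : ∀ j, Even (θ j) := by
    intro j
    have h1 := congrFun hw j
    rw [Finsupp.weight_apply, Finsupp.sum_fintype _ _ (by simp)] at h1
    simp only [Finset.sum_apply, Pi.smul_apply, wt, Pi.single_apply, Pi.zero_apply] at h1
    rw [Finset.sum_eq_single j] at h1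
    · simp only [if_true, nsmul_eq_mul, mul_one] at h1
      exact (ZMod.natCast_eq_zero_iff_even).mp h1
    · intro b _ hb
      rw [if_neg (fun e => hb e.symm), smul_zero]
    · intro h; exact absurd (Finset.mem_univ _) h
  obtain ⟨hdeg, c0, hc0⟩ := deg_props (n := n) hd
  -- `θ ≠ 0`
  have hθ0 : θ ≠ 0 := by
    intro h0
    have h2 : (⟨0, by omega⟩ : Fin n) = ⟨1, by
        rcases hodd with ⟨m, hm⟩
        omega⟩ := by
      apply hinj
      rw [h0]; rfl
    exact absurd (congrArg Fin.val h2) (by norm_num)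
  -- each exponent is at least `2`
  have hge : ∀ j, 2 ≤ θ j := by
    intro j
    by_contra hlt
    push Not at hlt
    apply hne j
    obtain ⟨g, hg'⟩ := hc0 j
    have h1 : p j j = MvPolynomial.C (MvPolynomial.C c0) + MvPolynomial.X j ^ 2 * g := by
      rw [← hg']
      have : (algebraMap K (MvPolynomial (Fin n) (GA K σ n))) c0 =
        MvPolynomial.C (MvPolynomial.C c0) := rfl
      rw [← hp, this]; ring
    show MvPolynomial.coeff θ (p j j) = 0
    rw [h1, MvPolynomial.coeff_add, MvPolynomial.coeff_C, if_neg (fun e => hθ0 e.symm), zero_add,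
      MvPolynomial.X_pow_eq_monomial, MvPolynomial.coeff_monomial_mul', if_neg]
    intro hle
    have := hle j
    rw [Finsupp.single_eq_same] at this
    omega
  -- conclusion
  have hsum : ∑ j, θ j ≤ 2 * d := by
    have hmem : θ ∈ (p j0 j0).support := MvPolynomial.mem_support_iff.mpr hj0
    have h1 := MvPolynomial.le_totalDegree hmem
    rw [Finsupp.sum_fintype _ _ (fun _ => rfl)] at h1
    exact h1.trans (hdeg j0 j0)
  have hhalf : ∀ j, θ j = 2 * (θ j / 2) := by
    intro j
    obtain ⟨m, hm⟩ := heven j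
    omega
  have hfin := sum_inj_ge (fun j => θ j / 2) (fun a b hab => hinj (by
    have h1 := hhalf a
    have h2 := hhalf b
    simp only at hab
    rw [h1, h2, hab])) (fun j => by have := hge j; omega)
  have h3 : ∑ j, θ j = 2 * ∑ j, θ j / 2 := by
    rw [Finset.mul_sum]
    exact Finset.sum_congr rfl fun j _ => hhalf j
  omega

end Pool.Agent.H552R3.PC
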