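import Mathlib
import Pool.Agent.H552R3.PC.Core2

/-!
Polynomials `f` such that `f^*` is a central multiple of `f`.
-/

namespace Pool.Agent.H552R3.PC

open Matrix

variable {K : Type*} [Field K] {σ : Type*} {n : ℕ}

theorem lift_rev (ε : σ → K) (X : σ → Matrix (Fin n) (Fin n) K) (f : FreeAlgebra K σ) :
    FreeAlgebra.lift K X (rev ε f) = (FreeAlgebra.lift K (fun i => ε i • (X i)ᵀ) f)ᵀ := by
  induction f using FreeAlgebra.induction with
  | grade0 c =>
    rw [rev_algebraMap, AlgHom.commutes, AlgHom.commutes]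
    ext1 a b
    simp only [transpose_apply, algebraMap_matrix_apply]
    by_cases h : a = b
    · subst h; rfl
    · rw [if_neg h, if_neg (fun e => h e.symm)]
  | grade1 i =>
    rw [rev_ι, map_smul, FreeAlgebra.lift_ι_apply, FreeAlgebra.lift_ι_apply, transpose_smul,
      transpose_transpose]
  | mul a b ha hb => rw [rev_mul, map_mul, map_mul, transpose_mul, ha, hb]
  | add a b ha hb => rw [rev_add, map_add, map_add, transpose_add, ha, hb]

theorem rev_rev (ε : σ → K) (hε : ∀ i, ε i = 1 ∨ ε i = -1) (f : FreeAlgebra K σ) :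
    rev ε (rev ε f) = f := by
  induction f using FreeAlgebra.induction with
  | grade0 c => rw [rev_algebraMap, rev_algebraMap]
  | grade1 i =>
    rw [rev_ι, rev_smul, rev_ι, smul_smul]
    have : ε i * ε i = 1 := by rcases hε i with e | e <;> rw [e] <;> simp
    rw [this, one_smul]
  | mul a b ha hb => rw [rev_mul, rev_mul, ha, hb]
  | add a b ha hb => rw [rev_add, rev_add, ha, hb]

theorem rev_congr (ε : σ → K) {g h : FreeAlgebra K σ}
    (hgh : ∀ X : σ → Matrix (Fin n) (Fin n) K, FreeAlgebra.lift K X g = FreeAlgebra.lift K X h)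
    (X : σ → Matrix (Fin n) (Fin n) K) :
    FreeAlgebra.lift K X (rev ε g) = FreeAlgebra.lift K X (rev ε h) := by
  rw [lift_rev, lift_rev, hgh]

theorem scalar_rev (ε : σ → K) {a : FreeAlgebra K σ}
    (ha : ∀ X : σ → Matrix (Fin n) (Fin n) K, ∃ c : K,
      FreeAlgebra.lift K X a = Matrix.scalar (Fin n) c)
    (X : σ → Matrix (Fin n) (Fin n) K) :
    ∃ c : K, FreeAlgebra.lift K X (rev ε a) = Matrix.scalar (Fin n) c := by
  obtain ⟨c, hc⟩ := ha (fun i => ε i • (X i)ᵀ)
  exact ⟨c, by rw [lift_rev, hc, Matrix.scalar_apply, Matrix.diagonal_transpose]⟩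

/-- If `g` vanishes wherever `a` is invertible and `a` is invertible somewhere, then `g` is an
identity. -/
theorem generic0 [Infinite K] (a g : FreeAlgebra K σ)
    (h0 : ∃ X : σ → Matrix (Fin n) (Fin n) K, (FreeAlgebra.lift K X a).det ≠ 0)
    (h : ∀ X : σ → Matrix (Fin n) (Fin n) K, (FreeAlgebra.lift K X a).det ≠ 0 →
      FreeAlgebra.lift K X g = 0)
    (X : σ → Matrix (Fin n) (Fin n) K) : FreeAlgebra.lift K X g = 0 := by
  have hev : ∀ (x : σ × Fin n × Fin n → K) (q : GA K σ n),
      MvPolynomial.eval x q =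
        (spz (fun i => Matrix.of fun b c => x (i, b, c)) : GA K σ n →ₐ[K] K) q := by
    intro x q
    simp [spz, MvPolynomial.coe_aeval_eq_eval]
  set D := (FreeAlgebra.lift K (gen K σ n) a).det with hD
  have hDx : ∀ W : σ → Matrix (Fin n) (Fin n) K, (spz W : GA K σ n →ₐ[K] K) D =
      (FreeAlgebra.lift K W a).det := by
    intro W
    rw [hD, AlgHom.map_det, spz_gen]
  have hD0 : D ≠ 0 := by
    obtain ⟨X0, hX0⟩ := h0
    intro hz
    apply hX0
    rw [← hDx, hz, map_zero]
  have hG : FreeAlgebra.lift K (gen K σ n) g = 0 := by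
    ext1 b c
    have hprod : D * FreeAlgebra.lift K (gen K σ n) g b c = 0 := by
      apply MvPolynomial.funext
      intro x
      rw [map_mul, map_zero, hev, hev, hDx]
      have e := congrFun (congrFun (spz_gen (fun i => Matrix.of fun b c => x (i, b, c)) g) b) c
      rw [AlgHom.mapMatrix_apply, Matrix.map_apply] at e
      rw [e]
      by_cases hz : (FreeAlgebra.lift K
          (fun i => Matrix.of fun b c => x (i, b, c)) a).det = 0
      · rw [hz, zero_mul]
      · rw [h _ hz, Matrix.zero_apply, mul_zero]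
    rcases mul_eq_zero.mp hprod with h4 | h4
    · exact absurd h4 hD0
    · exact h4
  rw [← spz_gen X, hG, map_zero]

theorem det_scalar_ne {c : K} (hc : c ≠ 0) : (Matrix.scalar (Fin n) c).det ≠ 0 := by
  rw [Matrix.scalar_apply, Matrix.det_diagonal]
  exact Finset.prod_ne_zero_iff.mpr fun _ _ => hc

theorem ne_of_det_ne {c : K} (hn : n ≠ 0) (hc : (Matrix.scalar (Fin n) c).det ≠ 0) : c ≠ 0 := by
  have : Nonempty (Fin n) := ⟨⟨0, Nat.pos_of_ne_zero hn⟩⟩
  rintro rfl
  apply hc
  rw [map_zero, Matrix.det_zero]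

theorem sc_mul (c : K) (M : Matrix (Fin n) (Fin n) K) : Matrix.scalar (Fin n) c * M = c • M := by
  ext i j; simp

theorem mul_sc (c : K) (M : Matrix (Fin n) (Fin n) K) : M * Matrix.scalar (Fin n) c = c • M := by
  ext i j; simp [mul_comm]

/-- The theorem for polynomials `f` with `a f^* = b f`, `a` and `b` scalar valued. -/
theorem final_line [Infinite K] (hn : n ≠ 0) (ε : σ → K) (hε : ∀ i, ε i = 1 ∨ ε i = -1)
    (f a b : FreeAlgebra K σ)
    (ha : ∀ X : σ → Matrix (Fin n) (Fin n) K, ∃ c : K,
      FreeAlgebra.lift K X a = Matrix.scalar (Fin n) c)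
    (hb : ∀ X : σ → Matrix (Fin n) (Fin n) K, ∃ c : K,
      FreeAlgebra.lift K X b = Matrix.scalar (Fin n) c)
    (ha0 : ∃ X : σ → Matrix (Fin n) (Fin n) K, FreeAlgebra.lift K X a ≠ 0)
    (hab : ∀ X : σ → Matrix (Fin n) (Fin n) K,
      FreeAlgebra.lift K X (a * rev ε f) = FreeAlgebra.lift K X (b * f))
    (ν : ℕ) (hν : 0 < ν) (hK : ∀ x : K, x ^ ν = 1 → x = 1) (hpar : Odd ν ∨ n ≠ 2)
    (h : ∀ X : σ → Matrix (Fin n) (Fin n) K, ∀ Z : Matrix (Fin n) (Fin n) K,
      FreeAlgebra.lift K X (f ^ ν) * Z = Z * FreeAlgebra.lift K X (f ^ ν))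
    (X : σ → Matrix (Fin n) (Fin n) K) (Y : Matrix (Fin n) (Fin n) K) :
    FreeAlgebra.lift K X f * Y = Y * FreeAlgebra.lift K X f := by
  classical
  -- `a` is invertible somewhere
  have haD : ∃ X : σ → Matrix (Fin n) (Fin n) K, (FreeAlgebra.lift K X a).det ≠ 0 := by
    obtain ⟨X, hX⟩ := ha0
    obtain ⟨c, hc⟩ := ha X
    refine ⟨X, ?_⟩
    rw [hc]
    apply det_scalar_ne
    rintro rfl
    exact hX (by rw [hc, map_zero])
  have hab' : ∀ X : σ → Matrix (Fin n) (Fin n) K,
      FreeAlgebra.lift K X (f * rev ε a) = FreeAlgebra.lift K X (rev ε f * rev ε b) := by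
    intro X
    have := rev_congr ε hab X
    rwa [rev_mul, rev_mul, rev_rev ε hε] at this
  by_cases hskew : ∀ X : σ → Matrix (Fin n) (Fin n) K, FreeAlgebra.lift K X (a + b) = 0
  · -- the skew case
    have hs : ∀ X : σ → Matrix (Fin n) (Fin n) K, FreeAlgebra.lift K X (rev ε f + f) = 0 := by
      refine generic0 a _ haD (fun X hX => ?_)
      obtain ⟨c, hc⟩ := ha X
      rw [hc] at hX
      have hc0 := ne_of_det_ne hn hX
      have h1 := hskew X
      rw [map_add, add_eq_zero_iff_eq_neg] at h1
      have h2 := hab X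
      rw [map_mul, map_mul] at h2
      have h3 : FreeAlgebra.lift K X b = -Matrix.scalar (Fin n) c := by
        rw [← hc, h1, neg_neg]
      rw [h3, hc, neg_mul] at h2
      have h4 : Matrix.scalar (Fin n) c * (FreeAlgebra.lift K X (rev ε f) +
          FreeAlgebra.lift K X f) = 0 := by
        rw [mul_add, h2, neg_add_cancel]
      rw [map_add]
      have h5 : c • (FreeAlgebra.lift K X (rev ε f) + FreeAlgebra.lift K X f) = 0 := by
        rw [← h4]
        ext i j
        simp
      exact (smul_eq_zero.mp h5).resolve_left hc0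
    refine final_K ε hε f (Or.inr fun X => ?_) ν hν hK hpar h X Y
    have := hs X
    rwa [map_add, add_eq_zero_iff_eq_neg] at this
  · push Not at hskew
    set y : FreeAlgebra K σ := (a + b) * rev ε a with hy
    have hrevy : rev ε y = a * (rev ε a + rev ε b) := by
      rw [hy, rev_mul, rev_rev ε hε, rev_add]
    -- `y` is scalar valued
    have hysc : ∀ X : σ → Matrix (Fin n) (Fin n) K, ∃ c : K,
        FreeAlgebra.lift K X y = Matrix.scalar (Fin n) c := by
      intro X
      obtain ⟨c1, h1⟩ := ha X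
      obtain ⟨c2, h2⟩ := hb X
      obtain ⟨c3, h3⟩ := scalar_rev ε ha X
      exact ⟨(c1 + c2) * c3, by rw [hy, map_mul, map_add, h1, h2, h3, map_mul, map_add]⟩
    have hyD : ∃ X : σ → Matrix (Fin n) (Fin n) K, (FreeAlgebra.lift K X y).det ≠ 0 := by
      by_contra hcon
      push Not at hcon
      have hy0 : ∀ X : σ → Matrix (Fin n) (Fin n) K, FreeAlgebra.lift K X y = 0 := by
        intro X
        obtain ⟨c, hc⟩ := hysc X
        have h1 := hcon X
        rw [hc] at h1
        by_cases hc0 : c = 0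
        · rw [hc, hc0, map_zero]
        · exact absurd h1 (det_scalar_ne hc0)
      obtain ⟨X1, hX1⟩ := hskew
      have habD : ∃ X : σ → Matrix (Fin n) (Fin n) K,
          (FreeAlgebra.lift K X (a + b)).det ≠ 0 := by
        obtain ⟨c1, h1⟩ := ha X1
        obtain ⟨c2, h2⟩ := hb X1
        refine ⟨X1, ?_⟩
        rw [map_add, h1, h2, ← map_add]
        apply det_scalar_ne
        intro h0
        apply hX1
        rw [map_add, h1, h2, ← map_add, h0, map_zero]
      have hra : ∀ X : σ → Matrix (Fin n) (Fin n) K, FreeAlgebra.lift K X (rev ε a) = 0 := by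
        refine generic0 (a + b) _ habD (fun X hX => ?_)
        have h1 := hy0 X
        rw [hy, map_mul] at h1
        have hu : IsUnit (FreeAlgebra.lift K X (a + b)) := by
          rw [Matrix.isUnit_iff_isUnit_det]
          exact isUnit_iff_ne_zero.mpr hX
        exact (hu.mul_right_eq_zero).mp h1
      obtain ⟨X2, hX2⟩ := ha0
      apply hX2
      have h2 := rev_congr ε (g := rev ε a) (h := 0) (fun X => by rw [hra, map_zero]) X2
      rw [rev_rev ε hε, rev_zero, map_zero] at h2
      exact h2
    -- `y f` is symmetric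
    have hsym : ∀ X : σ → Matrix (Fin n) (Fin n) K,
        FreeAlgebra.lift K X (rev ε (y * f)) = FreeAlgebra.lift K X (y * f) := by
      intro X
      obtain ⟨α, hα⟩ := ha X
      obtain ⟨β, hβ⟩ := hb X
      obtain ⟨α', hα'⟩ := scalar_rev ε ha X
      obtain ⟨β', hβ'⟩ := scalar_rev ε hb X
      have r1 : α • FreeAlgebra.lift K X (rev ε f) = β • FreeAlgebra.lift K X f := by
        have := hab X
        rw [map_mul, map_mul, hα, hβ] at this
        ext i j
        have e := congrFun (congrFun this i) j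
        simpa using e
      have r2 : α' • FreeAlgebra.lift K X f = β' • FreeAlgebra.lift K X (rev ε f) := by
        have := hab' X
        rw [map_mul, map_mul, hα', hβ'] at this
        ext i j
        have e := congrFun (congrFun this i) j
        simp at e
        simp only [Matrix.smul_apply, smul_eq_mul]
        rw [mul_comm, e, mul_comm]
      have e3 : FreeAlgebra.lift K X (rev ε (y * f)) =
          (α * (α' + β')) • FreeAlgebra.lift K X (rev ε f) := by
        rw [rev_mul, hrevy, map_mul, map_mul, map_add, hα, hα', hβ', ← map_add, ← map_mul, mul_sc]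
      have e4 : FreeAlgebra.lift K X (y * f) = ((α + β) * α') • FreeAlgebra.lift K X f := by
        rw [map_mul, hy, map_mul, map_add, hα, hβ, hα', ← map_add, ← map_mul, sc_mul]
      rw [e3, e4]
      ext i j
      have e1 := congrFun (congrFun r1 i) j
      have e2 := congrFun (congrFun r2 i) j
      simp only [Matrix.smul_apply, smul_eq_mul] at e1 e2 ⊢
      linear_combination α' * e1 - α * e2
    have hpw : ∀ X : σ → Matrix (Fin n) (Fin n) K, ∀ Z : Matrix (Fin n) (Fin n) K,
        FreeAlgebra.lift K X ((y * f) ^ ν) * Z = Z * FreeAlgebra.lift K X ((y * f) ^ ν) := by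
      intro X Z
      obtain ⟨c, hc⟩ := hysc X
      have hcm : Commute (FreeAlgebra.lift K X y) (FreeAlgebra.lift K X f) := by
        rw [hc]; exact Matrix.scalar_commute c (fun _ => Commute.all _ _) _
      rw [map_pow, map_mul, hcm.mul_pow, hc, ← map_pow]
      have h1 := h X Z
      rw [map_pow] at h1
      have h2 := (Matrix.scalar_commute (c ^ ν) (fun _ => Commute.all _ _) Z).eq
      rw [mul_assoc, h1, ← mul_assoc, h2, mul_assoc]
    have hfin := final_K ε hε (y * f) (Or.inl hsym) ν hν hK hpar hpw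
    refine generic y f hyD (fun X hX Y => ?_) X Y
    have h1 := hfin X Y
    obtain ⟨c, hc⟩ := hysc X
    rw [hc] at hX
    have hc0 := ne_of_det_ne hn hX
    rw [map_mul, hc] at h1
    have h2 : c • (FreeAlgebra.lift K X f * Y) = c • (Y * FreeAlgebra.lift K X f) := by
      have e1 : Matrix.scalar (Fin n) c * FreeAlgebra.lift K X f =
          c • FreeAlgebra.lift K X f := by ext i j; simp
      rw [e1, smul_mul_assoc, mul_smul_comm] at h1
      exact h1
    exact smul_right_injective _ hc0 h2

end Pool.Agent.H552R3.PC
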