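import Mathlib
import Pool.Agent.H552R3.PC.Degen

/-!
The quantum plane as a subring without zero divisors of `M_n(A[u, v])`, and the shape of the
characteristic polynomial of an element whose `n`-th power is central.
-/

namespace Pool.Agent.H552R3.PC

open Matrix

section

variable {A : Type*} [CommRing A] {n : ℕ}

/-- Matrices over the polynomial ring in `u`, `v`. -/
abbrev PQ (n : ℕ) (A : Type*) [CommRing A] := Matrix (Fin n) (Fin n) (MvPolynomial (Fin 2) A)

/-- The lexicographic order. -/
noncomputable abbrev mo2 : MonomialOrder (Fin 2) := MonomialOrder.lex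

/-- All entries have degree at most `θ`. -/
def BdQ (θ : Fin 2 →₀ ℕ) (M : PQ n A) : Prop :=
  ∀ j k, mo2.toSyn (mo2.degree (M j k)) ≤ mo2.toSyn θ

/-- The matrix of the coefficients at `θ`. -/
def LdQ (θ : Fin 2 →₀ ℕ) (M : PQ n A) : Matrix (Fin n) (Fin n) A := M.map (MvPolynomial.coeff θ)

theorem LdQ_mul {θ η : Fin 2 →₀ ℕ} {M N : PQ n A} (hM : BdQ θ M) (hN : BdQ η N) :
    LdQ (θ + η) (M * N) = LdQ θ M * LdQ η N := by
  ext j k
  simp only [LdQ, map_apply, mul_apply, MvPolynomial.coeff_sum]
  exact Finset.sum_congr rfl fun l _ =>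
    MonomialOrder.coeff_mul_of_add_of_degree_le (hM j l) (hN l k)

theorem exists_leadQ (M : PQ n A) (hM : M ≠ 0) : ∃ θ, BdQ θ M ∧ LdQ θ M ≠ 0 := by
  have hne : ∃ p : Fin n × Fin n, M p.1 p.2 ≠ 0 := by
    by_contra hcon
    push Not at hcon
    exact hM (by ext1 j k; exact hcon (j, k))
  classical
  set s : Finset (Fin n × Fin n) := Finset.univ.filter (fun p => M p.1 p.2 ≠ 0) with hs
  have hsne : s.Nonempty := by
    obtain ⟨p, hp⟩ := hne
    exact ⟨p, by simp [hs, hp]⟩
  obtain ⟨p, hp, hmax⟩ := Finset.exists_max_image s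
    (fun p => mo2.toSyn (mo2.degree (M p.1 p.2))) hsne
  have hp0 : M p.1 p.2 ≠ 0 := by simpa [hs] using hp
  refine ⟨mo2.degree (M p.1 p.2), fun j k => ?_, fun h0 => ?_⟩
  · by_cases hz : M j k = 0
    · rw [hz, MonomialOrder.degree_zero, map_zero]; exact bot_le
    · exact hmax (j, k) (by simp [hs, hz])
  · have := congrFun (congrFun h0 p.1) p.2
    simp only [LdQ, map_apply, Matrix.zero_apply] at this
    exact hp0 ((MonomialOrder.coeff_degree_eq_zero_iff (m := mo2)).mp this)

/-- Scaling of the variables. -/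
noncomputable def scl (w : Fin 2 → A) : MvPolynomial (Fin 2) A →ₐ[A] MvPolynomial (Fin 2) A :=
  MvPolynomial.aeval (fun i => MvPolynomial.C (w i) * MvPolynomial.X i)

theorem coeff_scl (w : Fin 2 → A) (g : MvPolynomial (Fin 2) A) (θ : Fin 2 →₀ ℕ) :
    MvPolynomial.coeff θ (scl w g) = (∏ i, w i ^ θ i) * MvPolynomial.coeff θ g := by
  classical
  induction g using MvPolynomial.induction_on' with
  | monomial u a =>
    have h1 : scl w (MvPolynomial.monomial u a) = MvPolynomial.monomial u ((∏ i, w i ^ u i) * a) := by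
      rw [scl, MvPolynomial.aeval_monomial, Finsupp.prod_fintype _ _ (fun i => pow_zero _)]
      rw [MvPolynomial.monomial_eq, Finsupp.prod_fintype _ _ (fun i => pow_zero _)]
      simp only [mul_pow, Finset.prod_mul_distrib, MvPolynomial.algebraMap_eq, map_mul,
        map_prod, map_pow]
      ring
    rw [h1, MvPolynomial.coeff_monomial, MvPolynomial.coeff_monomial]
    split_ifs with h
    · rw [h]
    · rw [mul_zero]
  | add p q hp hq => rw [map_add, MvPolynomial.coeff_add, hp, hq, MvPolynomial.coeff_add, mul_add]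

end

section Domain

variable {A : Type*} [CommRing A] [IsDomain A] {n : ℕ} [NeZero n]

/-- Powers of `z`. -/
def chi (z : A) (j : Fin n) : A := z ^ (j : ℕ)

theorem chi_add {z : A} (hz : z ^ n = 1) (j k : Fin n) : chi z (j + k) = chi z j * chi z k := by
  rw [chi, chi, chi, ← pow_add, Fin.val_add, ← pow_eq_pow_mod _ hz]

theorem chi_inj {z : A} (hz : IsPrimitiveRoot z n) {j k : Fin n} (h : chi z j = chi z k) :
    j = k := Fin.ext (hz.pow_inj j.2 k.2 h)

/-- The quantum plane, as a subalgebra of `M_n(A[u, v])`. -/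
def qpl (K : Type*) [CommRing K] [Algebra K A] (z z' : A) (n : ℕ) [NeZero n] :
    Subalgebra K (PQ n A) where
  carrier := {M | (∀ j k, MvPolynomial.C (chi z j) * M j k =
      MvPolynomial.C (chi z k) * scl ![1, z] (M j k)) ∧
    ∀ j k, M j k = scl ![z', 1] (M (j + 1) (k + 1))}
  mul_mem' := by
    intro M N hM hN
    refine ⟨fun j k => ?_, fun j k => ?_⟩
    · rw [mul_apply, map_sum, Finset.mul_sum, Finset.mul_sum]
      refine Finset.sum_congr rfl fun l _ => ?_
      rw [map_mul, ← mul_assoc, hM.1 j l]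
      calc MvPolynomial.C (chi z l) * scl ![1, z] (M j l) * N l k
          = scl ![1, z] (M j l) * (MvPolynomial.C (chi z l) * N l k) := by ring
        _ = scl ![1, z] (M j l) * (MvPolynomial.C (chi z k) * scl ![1, z] (N l k)) := by
            rw [hN.1]
        _ = _ := by ring
    · rw [mul_apply, mul_apply, map_sum]
      rw [← Equiv.sum_comp (Equiv.addRight (1 : Fin n))
        (fun l => scl ![z', 1] (M (j + 1) l * N l (k + 1)))]
      refine Finset.sum_congr rfl fun l _ => ?_
      rw [Equiv.coe_addRight, map_mul, ← hM.2, ← hN.2]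
  add_mem' := by
    intro M N hM hN
    refine ⟨fun j k => ?_, fun j k => ?_⟩
    · rw [Matrix.add_apply, map_add, mul_add, mul_add, hM.1, hN.1]
    · rw [Matrix.add_apply, Matrix.add_apply, map_add, ← hM.2, ← hN.2]
  algebraMap_mem' := by
    intro c
    have hc : ∀ w : Fin 2 → A, scl w (algebraMap K (MvPolynomial (Fin 2) A) c) =
        algebraMap K (MvPolynomial (Fin 2) A) c := by
      intro w
      rw [IsScalarTower.algebraMap_apply K A (MvPolynomial (Fin 2) A), AlgHom.commutes]
    refine ⟨fun j k => ?_, fun j k => ?_⟩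
    · rw [algebraMap_matrix_apply]
      split_ifs with h
      · rw [h, hc]
      · simp
    · rw [algebraMap_matrix_apply, algebraMap_matrix_apply]
      have : (j + 1 = k + 1) ↔ j = k := add_left_inj 1
      by_cases h : j = k
      · rw [if_pos h, if_pos (this.mpr h), hc]
      · rw [if_neg h, if_neg (fun e => h (this.mp e)), map_zero]

/-- The quantum plane has no zero divisors. -/
theorem qpl_mul_ne_zero {K : Type*} [CommRing K] [Algebra K A] {z z' : A}
    (hz : IsPrimitiveRoot z n) (hz' : z' ≠ 0)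
    {M N : PQ n A} (hM : M ∈ qpl (A := A) K z z' n)
    (hM0 : M ≠ 0) (hN0 : N ≠ 0) : M * N ≠ 0 := by
  obtain ⟨θ, hθ, hΛ⟩ := exists_leadQ M hM0
  obtain ⟨η, hη, hΛ'⟩ := exists_leadQ N hN0
  intro h0
  have h1 := LdQ_mul hθ hη
  have hz0 : LdQ (θ + η) (0 : PQ n A) = 0 := by ext j k; simp [LdQ]
  rw [h0, hz0] at h1
  set Λ := LdQ θ M with hΛd
  set Λ' := LdQ η N with hΛd'
  have hD : ∀ j k, chi z j * Λ j k = chi z k * (z ^ θ 1 * Λ j k) := by
    intro j k
    have e := congrArg (MvPolynomial.coeff θ) (hM.1 j k)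
    rw [MvPolynomial.coeff_C_mul, MvPolynomial.coeff_C_mul, coeff_scl] at e
    simp [Fin.prod_univ_two] at e
    exact e
  have hS : ∀ j k, Λ j k = z' ^ θ 0 * Λ (j + 1) (k + 1) := by
    intro j k
    have e := congrArg (MvPolynomial.coeff θ) (hM.2 j k)
    rw [coeff_scl] at e
    simp [Fin.prod_univ_two] at e
    exact e
  -- the support is invariant
  have hstep : ∀ j k, Λ j k ≠ 0 → Λ (j + 1) (k + 1) ≠ 0 := by
    intro j k h h2
    apply h
    rw [hS, h2, mul_zero]
  have hstep' : ∀ (m : ℕ) (j k : Fin n), Λ j k ≠ 0 →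
      Λ (j + Fin.ofNat n m) (k + Fin.ofNat n m) ≠ 0 := by
    intro m
    induction m with
    | zero =>
      intro j k h
      have : Fin.ofNat n 0 = 0 := rfl
      rw [this, add_zero, add_zero]; exact h
    | succ m ih =>
      intro j k h
      have e : Fin.ofNat n (m + 1) = 1 + Fin.ofNat n m := by
        apply Fin.ext
        rw [Fin.val_add]
        simp only [Fin.ofNat, Fin.val_one']
        rw [add_comm m 1, Nat.add_mod]
      have := ih _ _ (hstep j k h)
      rw [e, ← add_assoc, ← add_assoc]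
      exact this
  obtain ⟨j0, k0, hjk0⟩ : ∃ a b, Λ a b ≠ 0 := by
    by_contra hcon
    push Not at hcon
    exact hΛ (by ext1 a b; exact hcon a b)
  obtain ⟨k, l, hkl⟩ : ∃ a b, Λ' a b ≠ 0 := by
    by_contra hcon
    push Not at hcon
    exact hΛ' (by ext1 a b; exact hcon a b)
  -- a row `j` with `Λ j k ≠ 0`
  obtain ⟨j, hj⟩ : ∃ j, Λ j k ≠ 0 := by
    have h2 := hstep' ((k - k0 : Fin n) : ℕ) j0 k0 hjk0
    have e : Fin.ofNat n ((k - k0 : Fin n) : ℕ) = k - k0 := by
      apply Fin.ext
      simp [Fin.ofNat, Nat.mod_eq_of_lt (k - k0).isLt]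
    rw [e, add_sub_cancel] at h2
    exact ⟨_, h2⟩
  have h3 := congrFun (congrFun h1 j) l
  rw [mul_apply, Finset.sum_eq_single k] at h3
  · exact mul_ne_zero hj hkl h3.symm
  · intro k' _ hk'
    by_cases hz2 : Λ j k' = 0
    · rw [hz2, zero_mul]
    · exfalso
      apply hk'
      have e1 : chi z j = chi z k' * z ^ θ 1 :=
        mul_right_cancel₀ hz2 (by rw [hD j k']; ring)
      have e2 : chi z j = chi z k * z ^ θ 1 :=
        mul_right_cancel₀ hj (by rw [hD j k]; ring)
      have hzne : z ≠ 0 := by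
        intro h
        have := hz.pow_eq_one
        rw [h, zero_pow (NeZero.ne n)] at this
        exact zero_ne_one this
      exact chi_inj hz (mul_right_cancel₀ (pow_ne_zero _ hzne) (e1.symm.trans e2))
  · intro h; exact absurd (Finset.mem_univ _) h

end Domain

end Pool.Agent.H552R3.PC
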