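import Mathlib
import Pool.Agent.H552R3.PC.Quant

/-!
An element of the quantum plane whose `n`-th power is central is central, or its characteristic
polynomial is `x ^ n - c`.
-/

namespace Pool.Agent.H552R3.PC

open Matrix

variable {A : Type*} [CommRing A] [IsDomain A] {n : ℕ} [NeZero n]

theorem scl_expand (w : Fin 2 → A) (hw : ∀ i, w i ^ n = 1) (g : MvPolynomial (Fin 2) A) :
    scl w (MvPolynomial.expand n g) = MvPolynomial.expand n g := by
  induction g using MvPolynomial.induction_on' with
  | monomial u a =>
    rw [MvPolynomial.expand_monomial]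
    ext θ
    rw [coeff_scl, MvPolynomial.coeff_monomial]
    split_ifs with h
    · rw [← h]
      have : ∏ i, w i ^ (n • u) i = 1 := by
        refine Finset.prod_eq_one fun i _ => ?_
        rw [Finsupp.smul_apply, smul_eq_mul, pow_mul, hw, one_pow]
      rw [this, one_mul]
    · rw [mul_zero]
  | add p q hp hq => rw [map_add, map_add, hp, hq]

theorem exists_expand {z z' : A} (hz : IsPrimitiveRoot z n) (hzz : z * z' = 1)
    (g : MvPolynomial (Fin 2) A) (h1 : scl ![1, z] g = g) (h2 : scl ![z', 1] g = g) :
    ∃ g', MvPolynomial.expand n g' = g := by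
  classical
  have hdvd : ∀ θ ∈ g.support, ∀ i, n ∣ θ i := by
    intro θ hθ
    have hc : MvPolynomial.coeff θ g ≠ 0 := MvPolynomial.mem_support_iff.mp hθ
    have e1 := congrArg (MvPolynomial.coeff θ) h1
    have e2 := congrArg (MvPolynomial.coeff θ) h2
    rw [coeff_scl] at e1 e2
    simp only [Fin.prod_univ_two, Matrix.cons_val_zero, Matrix.cons_val_one, one_pow, one_mul,
      mul_one] at e1 e2
    have e1' : z ^ θ 1 = 1 := mul_right_cancel₀ hc (by rw [one_mul]; exact e1)
    have e2' : z' ^ θ 0 = 1 := mul_right_cancel₀ hc (by rw [one_mul]; exact e2)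
    have e2'' : z ^ θ 0 = 1 := by
      have : (z * z') ^ θ 0 = 1 := by rw [hzz, one_pow]
      rw [mul_pow, e2', mul_one] at this
      exact this
    intro i
    fin_cases i
    · exact (hz.pow_eq_one_iff_dvd _).mp e2''
    · exact (hz.pow_eq_one_iff_dvd _).mp e1'
  refine ⟨∑ θ ∈ g.support, MvPolynomial.monomial
    (Finsupp.mapRange (fun m => m / n) (Nat.zero_div n) θ) (MvPolynomial.coeff θ g), ?_⟩
  rw [map_sum]
  conv_rhs => rw [MvPolynomial.as_sum g]
  refine Finset.sum_congr rfl fun θ hθ => ?_
  have e : n • Finsupp.mapRange (fun m => m / n) (Nat.zero_div n) θ = θ := by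
    ext i
    rw [Finsupp.smul_apply, Finsupp.mapRange_apply, smul_eq_mul]
    exact Nat.mul_div_cancel' (hdvd θ hθ i)
  rw [MvPolynomial.expand_monomial, e]

theorem charpoly_inv1 {K : Type*} [CommRing K] [Algebra K A] {z z' : A}
    (hzz : z * z' = 1) {P : PQ n A} (hP : P ∈ qpl (A := A) K z z' n) (i : ℕ) :
    scl ![1, z] (P.charpoly.coeff i) = P.charpoly.coeff i := by
  set M' : PQ n A := P.map (scl ![1, z]) with hM'
  have h1 : M'.charpoly = P.charpoly.map ((scl ![1, z] : MvPolynomial (Fin 2) A →ₐ[A] _) :
      MvPolynomial (Fin 2) A →+* MvPolynomial (Fin 2) A) := Matrix.charpoly_map _ _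
  let D : (PQ n A)ˣ :=
    { val := Matrix.diagonal (fun j => MvPolynomial.C (chi z j))
      inv := Matrix.diagonal (fun j => MvPolynomial.C (chi z' j))
      val_inv := by
        rw [Matrix.diagonal_mul_diagonal, ← Matrix.diagonal_one]
        congr 1
        funext j
        rw [← map_mul, chi, chi, ← mul_pow, hzz, one_pow, map_one]
      inv_val := by
        rw [Matrix.diagonal_mul_diagonal, ← Matrix.diagonal_one]
        congr 1
        funext j
        rw [← map_mul, chi, chi, ← mul_pow, mul_comm z' z, hzz, one_pow, map_one] }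
  have h2 : (D : PQ n A) * P = M' * D := by
    ext1 j k
    show ((Matrix.diagonal (fun j => MvPolynomial.C (chi z j)) : PQ n A) * P) j k =
      (M' * (Matrix.diagonal (fun j => MvPolynomial.C (chi z j)) : PQ n A)) j k
    rw [Matrix.diagonal_mul, Matrix.mul_diagonal, hM', Matrix.map_apply, mul_comm _
      (MvPolynomial.C (chi z k))]
    exact hP.1 j k
  have h3 : (D : PQ n A) * P * (D⁻¹ : (PQ n A)ˣ) = M' := by
    rw [h2, mul_assoc, Units.mul_inv, mul_one]
  rw [Matrix.coe_units_inv] at h3
  have h4 := Matrix.charpoly_units_conj D P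
  rw [h3, h1] at h4
  have h5 := congrArg (fun q => Polynomial.coeff q i) h4
  simp only [Polynomial.coeff_map] at h5
  exact h5

theorem charpoly_inv2 {K : Type*} [CommRing K] [Algebra K A] {z z' : A}
    {P : PQ n A} (hP : P ∈ qpl (A := A) K z z' n) (i : ℕ) :
    scl ![z', 1] (P.charpoly.coeff i) = P.charpoly.coeff i := by
  set M' : PQ n A := P.map (scl ![z', 1]) with hM'
  have h1 : M'.charpoly = P.charpoly.map ((scl ![z', 1] : MvPolynomial (Fin 2) A →ₐ[A] _) :
      MvPolynomial (Fin 2) A →+* MvPolynomial (Fin 2) A) := Matrix.charpoly_map _ _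
  have h2 : Matrix.reindex (Equiv.addRight (1 : Fin n)).symm (Equiv.addRight (1 : Fin n)).symm M' =
      P := by
    ext1 j k
    rw [Matrix.reindex_apply, Matrix.submatrix_apply]
    exact (hP.2 j k).symm
  have h3 := Matrix.charpoly_reindex (Equiv.addRight (1 : Fin n)).symm M'
  rw [h2, h1] at h3
  have h5 := congrArg (fun q => Polynomial.coeff q i) h3
  simp only [Polynomial.coeff_map] at h5
  exact h5.symm

theorem scalar_mem_qpl {K : Type*} [CommRing K] [Algebra K A] {z z' : A}
    (hz : z ^ n = 1) (hz' : z' ^ n = 1) (g : MvPolynomial (Fin 2) A) :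
    (Matrix.scalar (Fin n) (MvPolynomial.expand n g) : PQ n A) ∈ qpl (A := A) K z z' n := by
  have h1 : scl ![1, z] (MvPolynomial.expand n g) = MvPolynomial.expand n g :=
    scl_expand _ (by intro i; fin_cases i <;> simp [hz]) g
  have h2 : scl ![z', 1] (MvPolynomial.expand n g) = MvPolynomial.expand n g :=
    scl_expand _ (by intro i; fin_cases i <;> simp [hz']) g
  refine ⟨fun j k => ?_, fun j k => ?_⟩
  · by_cases h : j = k
    · subst h
      rw [Matrix.scalar_apply, Matrix.diagonal_apply_eq, h1]
    · rw [Matrix.scalar_apply, Matrix.diagonal_apply_ne _ h, map_zero, mul_zero, mul_zero]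
  · have hiff : (j + 1 = k + 1) ↔ j = k := add_left_inj 1
    by_cases h : j = k
    · subst h
      rw [Matrix.scalar_apply, Matrix.diagonal_apply_eq, Matrix.diagonal_apply_eq, h2]
    · rw [Matrix.scalar_apply, Matrix.diagonal_apply_ne _ h,
        Matrix.diagonal_apply_ne _ (fun e => h (hiff.mp e)), map_zero]

/-- The dichotomy. -/
theorem dichotomy {K : Type*} [CommRing K] [Algebra K A] [IsIntegrallyClosed (MvPolynomial (Fin 2) A)]
    {z z' : A} (hn : n.Prime)
    (hz : IsPrimitiveRoot z n) (hzz : z * z' = 1) {P : PQ n A} (hP : P ∈ qpl (A := A) K z z' n)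
    (c : MvPolynomial (Fin 2) A) (hc : P ^ n = Matrix.scalar (Fin n) c) :
    (∃ g, P = Matrix.scalar (Fin n) g) ∨ ∀ i, 0 < i → i < n → P.charpoly.coeff i = 0 := by
  classical
  have hz1 : z ^ n = 1 := hz.pow_eq_one
  have hz'1 : z' ^ n = 1 := by
    have : (z * z') ^ n = 1 := by rw [hzz, one_pow]
    rwa [mul_pow, hz1, one_mul] at this
  have hz'0 : z' ≠ 0 := by
    intro h; rw [h, mul_zero] at hzz; exact zero_ne_one hzz
  -- `c` comes from `c'`
  have hPn : P ^ n ∈ qpl (A := A) K z z' n := Subalgebra.pow_mem _ hP n
  have hχu : ∀ j : Fin n, chi z j ≠ 0 := by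
    intro j h
    have h2 : chi z j ^ n = 1 := by rw [chi, ← pow_mul, mul_comm, pow_mul, hz1, one_pow]
    rw [h, zero_pow (NeZero.ne n)] at h2
    exact zero_ne_one h2
  have hc1 : scl ![1, z] c = c := by
    have e := hPn.1 0 0
    rw [hc, Matrix.scalar_apply, Matrix.diagonal_apply_eq] at e
    have h0 : (MvPolynomial.C (chi z (0 : Fin n)) : MvPolynomial (Fin 2) A) ≠ 0 := by
      intro h; exact hχu 0 (MvPolynomial.C_injective _ _ (by rw [h, map_zero]))
    exact (mul_left_cancel₀ h0 e).symm
  have hc2 : scl ![z', 1] c = c := by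
    have e := hPn.2 0 0
    rw [hc, Matrix.scalar_apply, Matrix.diagonal_apply_eq, Matrix.diagonal_apply_eq] at e
    exact e.symm
  obtain ⟨c', hc'⟩ := exists_expand hz hzz c hc1 hc2
  by_cases hroot : ∃ g' : MvPolynomial (Fin 2) A, g' ^ n = c'
  · left
    obtain ⟨g', hg'⟩ := hroot
    set G := MvPolynomial.expand n g' with hG
    have hGn : G ^ n = c := by rw [hG, ← map_pow, hg', hc']
    have hzC : IsPrimitiveRoot (MvPolynomial.C z : MvPolynomial (Fin 2) A) n :=
      hz.map_of_injective (MvPolynomial.C_injective (Fin 2) A)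
    have hprod := X_pow_sub_C_eq_prod hzC (NeZero.pos n) hGn
    have hval : Polynomial.aeval P (Polynomial.X ^ n - Polynomial.C c) = 0 := by
      rw [map_sub, map_pow, Polynomial.aeval_X, Polynomial.aeval_C, hc, sub_eq_zero]
      rfl
    by_contra hcon
    push Not at hcon
    have hall : ∀ s : Finset ℕ, Polynomial.aeval P
        (∏ i ∈ s, (Polynomial.X - Polynomial.C (MvPolynomial.C z ^ i * G))) ≠ 0 := by
      intro s
      induction s using Finset.induction_on with
      | empty =>
        rw [Finset.prod_empty, map_one]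
        exact one_ne_zero
      | insert a s ha ih =>
        rw [Finset.prod_insert ha, map_mul]
        have hfac : Polynomial.aeval P
            (Polynomial.X - Polynomial.C (MvPolynomial.C z ^ a * G)) =
            P - Matrix.scalar (Fin n) (MvPolynomial.expand n (MvPolynomial.C z ^ a * g')) := by
          have hx : MvPolynomial.expand n (MvPolynomial.C z ^ a * g') =
              MvPolynomial.C z ^ a * G := by
            rw [map_mul, map_pow, MvPolynomial.expand_C, ← hG]
          rw [map_sub, Polynomial.aeval_X, Polynomial.aeval_C, hx]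
          rfl
        refine qpl_mul_ne_zero (K := K) hz hz'0 ?_ ?_ ih
        · rw [hfac]
          exact Subalgebra.sub_mem _ hP (scalar_mem_qpl hz1 hz'1 _)
        · rw [hfac]
          intro h
          exact hcon _ (sub_eq_zero.mp h)
    exact hall (Finset.range n) (by rw [← hprod]; exact hval)
  · right
    push Not at hroot
    set φ : MvPolynomial (Fin 2) A →+* MvPolynomial (Fin 2) A :=
      ((MvPolynomial.expand n : MvPolynomial (Fin 2) A →ₐ[A] MvPolynomial (Fin 2) A) :
        MvPolynomial (Fin 2) A →+* MvPolynomial (Fin 2) A) with hφ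
    have hφinj : Function.Injective φ := MvPolynomial.expand_injective (NeZero.pos n)
    -- the characteristic polynomial comes from `χ'`
    obtain ⟨χ', hχ1, hχ2, hχ3⟩ : ∃ q : Polynomial (MvPolynomial (Fin 2) A), q.map φ = P.charpoly ∧
        q.natDegree = P.charpoly.natDegree ∧ q.Monic := by
      apply Polynomial.lifts_and_natDegree_eq_and_monic
      · rw [Polynomial.lifts_iff_coeff_lifts]
        intro i
        obtain ⟨g', hg'⟩ := exists_expand hz hzz _ (charpoly_inv1 hzz hP i) (charpoly_inv2 hP i)
        exact ⟨g', hg'⟩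
      · exact Matrix.charpoly_monic P
    have hdeg : χ'.natDegree = n := by
      rw [hχ2, Matrix.charpoly_natDegree_eq_dim, Fintype.card_fin]
    -- irreducibility
    have hirr : Irreducible (Polynomial.X ^ n - Polynomial.C (algebraMap (MvPolynomial (Fin 2) A) (FractionRing (MvPolynomial (Fin 2) A)) c')) := by
      apply X_pow_sub_C_irreducible_of_prime hn
      intro b hb
      obtain ⟨y, hy⟩ := IsIntegrallyClosed.exists_algebraMap_eq_of_isIntegral_pow
        (R := MvPolynomial (Fin 2) A) (K := FractionRing (MvPolynomial (Fin 2) A)) (NeZero.pos n) (x := b) (by rw [hb]; exact isIntegral_algebraMap)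
      apply hroot y
      apply IsFractionRing.injective (MvPolynomial (Fin 2) A) (FractionRing (MvPolynomial (Fin 2) A))
      rw [map_pow, hy, hb]
    set p0 : Polynomial (MvPolynomial (Fin 2) A) := Polynomial.X ^ n - Polynomial.C c' with hp0
    have hp0F : p0.map (algebraMap (MvPolynomial (Fin 2) A) (FractionRing (MvPolynomial (Fin 2) A))) =
        Polynomial.X ^ n - Polynomial.C (algebraMap (MvPolynomial (Fin 2) A) (FractionRing (MvPolynomial (Fin 2) A)) c') := by
      rw [hp0, Polynomial.map_sub, Polynomial.map_pow, Polynomial.map_X, Polynomial.map_C]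
    have hp0m : p0.Monic := Polynomial.monic_X_pow_sub_C c' (NeZero.ne n)
    have hp0deg : p0.natDegree = n := Polynomial.natDegree_X_pow_sub_C
    rw [← hp0F] at hirr
    -- evaluation at `P` through `φ`
    have hev0 : Polynomial.aeval P (p0.map φ) = 0 := by
      rw [hp0, Polynomial.map_sub, Polynomial.map_pow, Polynomial.map_X, Polynomial.map_C,
        map_sub, map_pow, Polynomial.aeval_X, Polynomial.aeval_C, hc, sub_eq_zero]
      have : φ c' = c := hc'
      rw [this]; rfl
    have hev1 : Polynomial.aeval P (χ'.map φ) = 0 := by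
      rw [hχ1]; exact Matrix.aeval_self_charpoly P
    have hχeq : χ' = p0 := by
      by_cases hd : p0.map (algebraMap (MvPolynomial (Fin 2) A) (FractionRing (MvPolynomial (Fin 2) A))) ∣ χ'.map (algebraMap (MvPolynomial (Fin 2) A) (FractionRing (MvPolynomial (Fin 2) A)))
      · have h1 := Polynomial.eq_of_monic_of_dvd_of_natDegree_le (hp0m.map (algebraMap (MvPolynomial (Fin 2) A) (FractionRing (MvPolynomial (Fin 2) A))))
          (hχ3.map (algebraMap (MvPolynomial (Fin 2) A) (FractionRing (MvPolynomial (Fin 2) A)))) hd (by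
            rw [hχ3.natDegree_map, hp0m.natDegree_map, hdeg, hp0deg])
        exact Polynomial.map_injective _ (IsFractionRing.injective (MvPolynomial (Fin 2) A) (FractionRing (MvPolynomial (Fin 2) A))) h1
      · exfalso
        have hcop : IsCoprime (p0.map (algebraMap (MvPolynomial (Fin 2) A) (FractionRing (MvPolynomial (Fin 2) A)))) (χ'.map (algebraMap (MvPolynomial (Fin 2) A) (FractionRing (MvPolynomial (Fin 2) A)))) :=
          (hirr.coprime_iff_not_dvd).mpr hd
        obtain ⟨a, b, hab⟩ := hcop
        obtain ⟨d1, hd1, hd1'⟩ := IsLocalization.integerNormalization_spec (nonZeroDivisors (MvPolynomial (Fin 2) A)) a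
        obtain ⟨d2, hd2, hd2'⟩ := IsLocalization.integerNormalization_spec (nonZeroDivisors (MvPolynomial (Fin 2) A)) b
        set a1 := IsLocalization.integerNormalization (nonZeroDivisors (MvPolynomial (Fin 2) A)) a with ha1
        set b1 := IsLocalization.integerNormalization (nonZeroDivisors (MvPolynomial (Fin 2) A)) b with hb1
        have hrel : Polynomial.C d2 * a1 * p0 + Polynomial.C d1 * b1 * χ' =
            Polynomial.C (d1 * d2) := by
          apply Polynomial.map_injective _ (IsFractionRing.injective (MvPolynomial (Fin 2) A) (FractionRing (MvPolynomial (Fin 2) A)))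
          rw [Polynomial.map_add, Polynomial.map_mul, Polynomial.map_mul, Polynomial.map_mul,
            Polynomial.map_mul, hd1', hd2', Polynomial.map_C, Polynomial.map_C,
            Polynomial.map_C]
          have s1 : d1 • a = Polynomial.C (algebraMap (MvPolynomial (Fin 2) A) (FractionRing (MvPolynomial (Fin 2) A)) d1) * a := by
            rw [Algebra.smul_def]; rfl
          have s2 : d2 • b = Polynomial.C (algebraMap (MvPolynomial (Fin 2) A) (FractionRing (MvPolynomial (Fin 2) A)) d2) * b := by
            rw [Algebra.smul_def]; rfl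
          rw [s1, s2, map_mul, map_mul]
          linear_combination (Polynomial.C (algebraMap (MvPolynomial (Fin 2) A) (FractionRing (MvPolynomial (Fin 2) A)) d1) *
            Polynomial.C (algebraMap (MvPolynomial (Fin 2) A) (FractionRing (MvPolynomial (Fin 2) A)) d2)) * hab
        have hrel2 := congrArg (fun q => Polynomial.aeval P (Polynomial.map φ q)) hrel
        simp only [Polynomial.map_add, Polynomial.map_mul, map_add, map_mul, hev0, hev1,
          mul_zero, add_zero, Polynomial.map_C, Polynomial.aeval_C] at hrel2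
        have hne : φ d1 * φ d2 ≠ 0 :=
          mul_ne_zero
            (fun h => nonZeroDivisors.ne_zero hd1 (hφinj (by rw [h, map_zero])))
            (fun h => nonZeroDivisors.ne_zero hd2 (hφinj (by rw [h, map_zero])))
        have hentry := congrFun (congrFun hrel2 0) 0
        rw [← map_mul, Matrix.algebraMap_matrix_apply, if_pos rfl, Matrix.zero_apply] at hentry
        exact hne (by simpa using hentry.symm)
    intro i hi hin
    rw [← hχ1, hχeq, Polynomial.coeff_map, hp0, Polynomial.coeff_sub, Polynomial.coeff_X_pow,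
      Polynomial.coeff_C, if_neg hin.ne, if_neg hi.ne', sub_self, map_zero]

end Pool.Agent.H552R3.PC
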