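import Mathlib
import Pool.Agent.H552R3.PC.Quant2

/-!
For a prime `n` not equal to the characteristic: if `f ^ n` takes only scalar values on `M_n(K)` and
`f` does not, then every value of `f` has characteristic polynomial `x ^ n - c`.
-/

namespace Pool.Agent.H552R3.PC

open Matrix

section

variable {L : Type*} [Field L] {σ : Type*} {n : ℕ} [NeZero n]

/-- The generic element of the quantum plane. -/
noncomputable def gq (ζ : L) (n : ℕ) [NeZero n] (i : σ) : PQ n (GA L σ n) :=
  Matrix.of fun j k => MvPolynomial.X 1 ^ ((j - k : Fin n) : ℕ) *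
    ∑ a : Fin n, MvPolynomial.C (MvPolynomial.X (i, a, j - k) *
      MvPolynomial.C (chi ζ j ^ (a : ℕ))) * MvPolynomial.X 0 ^ (a : ℕ)

theorem scl_X0 {A : Type*} [CommRing A] (w : Fin 2 → A) :
    scl w (MvPolynomial.X 0) = MvPolynomial.C (w 0) * MvPolynomial.X 0 := by
  simp [scl]

theorem scl_X1 {A : Type*} [CommRing A] (w : Fin 2 → A) :
    scl w (MvPolynomial.X 1) = MvPolynomial.C (w 1) * MvPolynomial.X 1 := by
  simp [scl]

theorem scl_C {A : Type*} [CommRing A] (w : Fin 2 → A) (a : A) :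
    scl w (MvPolynomial.C a) = MvPolynomial.C a := by
  simp [scl]

theorem chi_map {A B : Type*} [CommRing A] [CommRing B] (φ : A →+* B) (z : A) (j : Fin n) :
    chi (φ z) j = φ (chi z j) := by
  rw [chi, chi, map_pow]

theorem gq_mem {K : Type*} [Field K] [Algebra K L] {ζ ζ' : L} (hζ : ζ ^ n = 1)
    (hζζ : ζ * ζ' = 1) (i : σ) :
    gq ζ n i ∈ qpl (A := GA L σ n) K (MvPolynomial.C ζ) (MvPolynomial.C ζ') n := by
  refine ⟨fun j k => ?_, fun j k => ?_⟩
  · show MvPolynomial.C _ * gq ζ n i j k = MvPolynomial.C _ * scl _ (gq ζ n i j k)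
    rw [gq, Matrix.of_apply]
    simp only [map_mul, map_pow, map_sum, scl_X1, scl_X0, scl_C, Matrix.cons_val_one,
      Matrix.cons_val_zero, MvPolynomial.C_1, one_mul]
    have h1 : chi (MvPolynomial.C ζ : GA L σ n) j =
        chi (MvPolynomial.C ζ : GA L σ n) k * MvPolynomial.C ζ ^ ((j - k : Fin n) : ℕ) := by
      have h2 := chi_add (z := (MvPolynomial.C ζ : GA L σ n)) (n := n)
        (by rw [← map_pow, hζ, map_one]) k (j - k)
      rw [add_sub_cancel] at h2
      exact h2
    rw [h1, map_mul, map_pow]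
    ring
  · show gq ζ n i j k = scl _ (gq ζ n i (j + 1) (k + 1))
    rw [gq, Matrix.of_apply, Matrix.of_apply]
    have e : j + 1 - (k + 1) = j - k := by abel
    rw [e]
    simp only [map_mul, map_pow, map_sum, scl_X1, scl_X0, scl_C, Matrix.cons_val_one,
      Matrix.cons_val_zero, MvPolynomial.C_1, one_mul]
    refine congrArg₂ (· * ·) rfl ?_
    refine Finset.sum_congr rfl fun a _ => ?_
    have h1 : chi ζ (j + 1) * ζ' = chi ζ j := by
      rw [chi_add hζ]
      have h2 : chi ζ (1 : Fin n) = ζ := by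
        rw [chi, Fin.val_one', ← pow_eq_pow_mod _ hζ, pow_one]
      rw [h2, mul_assoc, hζζ, mul_one]
    have h3 : (MvPolynomial.C (MvPolynomial.C (chi ζ j)) :
        MvPolynomial (Fin 2) (GA L σ n)) =
        MvPolynomial.C (MvPolynomial.C (chi ζ (j + 1))) * MvPolynomial.C (MvPolynomial.C ζ') := by
      rw [← map_mul, ← map_mul, h1]
    rw [h3]
    ring

/-- Specialisation of the generic element to an arbitrary matrix. -/
noncomputable def psiq {K : Type*} [Field K] [Algebra K L] (ζ' : L)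
    (X : σ → Matrix (Fin n) (Fin n) L) : MvPolynomial (Fin 2) (GA L σ n) →ₐ[K] L :=
  ((MvPolynomial.aeval (fun p : σ × Fin n × Fin n =>
    (n : L)⁻¹ * ∑ j' : Fin n, chi ζ' j' ^ (p.2.1 : ℕ) * X p.1 j' (j' - p.2.2)) :
    GA L σ n →ₐ[L] L).restrictScalars K).comp
  ((MvPolynomial.aeval (fun _ : Fin 2 => (1 : GA L σ n)) :
    MvPolynomial (Fin 2) (GA L σ n) →ₐ[GA L σ n] GA L σ n).restrictScalars K)

theorem char_orth {ζ ζ' : L} (hζ : IsPrimitiveRoot ζ n) (hζζ : ζ * ζ' = 1) (j j' : Fin n) :
    ∑ a : Fin n, chi ζ j ^ (a : ℕ) * chi ζ' j' ^ (a : ℕ) = if j = j' then (n : L) else 0 := by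
  have h0 : ∀ a : Fin n, chi ζ j ^ (a : ℕ) * chi ζ' j' ^ (a : ℕ) =
      (chi ζ j * chi ζ' j') ^ (a : ℕ) := fun a => by rw [mul_pow]
  rw [Finset.sum_congr rfl fun a _ => h0 a,
    Fin.sum_univ_eq_sum_range (fun a => (chi ζ j * chi ζ' j') ^ a) n]
  have hone : ∀ k : Fin n, chi ζ k * chi ζ' k = 1 := by
    intro k; rw [chi, chi, ← mul_pow, hζζ, one_pow]
  split_ifs with h
  · subst h
    rw [hone]
    simp
  · have hw : (chi ζ j * chi ζ' j') ≠ 1 := by
      intro h1
      apply h
      apply chi_inj hζ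
      calc chi ζ j = chi ζ j * (chi ζ j' * chi ζ' j') := by rw [hone, mul_one]
        _ = chi ζ j' * (chi ζ j * chi ζ' j') := by ring
        _ = chi ζ j' := by rw [h1, mul_one]
    have hwn : (chi ζ j * chi ζ' j') ^ n = 1 := by
      have hζ'n : ζ' ^ n = 1 := by
        have : (ζ * ζ') ^ n = 1 := by rw [hζζ, one_pow]
        rwa [mul_pow, hζ.pow_eq_one, one_mul] at this
      rw [mul_pow, chi, chi, ← pow_mul, ← pow_mul, mul_comm (j : ℕ), mul_comm (j' : ℕ), pow_mul,
        pow_mul, hζ.pow_eq_one, hζ'n, one_pow, one_pow, mul_one]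
    have h2 := geom_sum_mul (chi ζ j * chi ζ' j') n
    rw [hwn, sub_self] at h2
    rcases mul_eq_zero.mp h2 with h3 | h3
    · exact h3
    · exact absurd (sub_eq_zero.mp h3) hw

theorem psiq_gq {K : Type*} [Field K] [Algebra K L] {ζ ζ' : L} (hζ : IsPrimitiveRoot ζ n)
    (hζζ : ζ * ζ' = 1) (hnL : (n : L) ≠ 0)
    (X : σ → Matrix (Fin n) (Fin n) L) (i : σ) :
    (psiq (K := K) ζ' X).mapMatrix (gq ζ n i) = X i := by
  ext1 j k
  rw [AlgHom.mapMatrix_apply, Matrix.map_apply, gq, Matrix.of_apply]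
  simp only [psiq, AlgHom.comp_apply, AlgHom.restrictScalars_apply, map_mul, map_pow, map_sum,
    MvPolynomial.aeval_X, MvPolynomial.aeval_C, map_one, one_pow, one_mul, mul_one,
    Algebra.algebraMap_self_apply]
  calc ∑ a : Fin n, (n : L)⁻¹ * (∑ j' : Fin n, chi ζ' j' ^ (a : ℕ) * X i j' (j' - (j - k))) *
        chi ζ j ^ (a : ℕ)
      = (n : L)⁻¹ * ∑ j' : Fin n, (∑ a : Fin n, chi ζ j ^ (a : ℕ) * chi ζ' j' ^ (a : ℕ)) *
          X i j' (j' - (j - k)) := by
        rw [Finset.mul_sum]
        simp only [Finset.mul_sum, Finset.sum_mul]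
        rw [Finset.sum_comm]
        refine Finset.sum_congr rfl fun j' _ => Finset.sum_congr rfl fun a _ => ?_
        ring
    _ = (n : L)⁻¹ * ((n : L) * X i j (j - (j - k))) := by
        congr 1
        rw [Finset.sum_eq_single j]
        · rw [char_orth hζ hζζ, if_pos rfl]
        · intro b _ hb
          rw [char_orth hζ hζζ, if_neg (fun e => hb e.symm), zero_mul]
        · intro h; exact absurd (Finset.mem_univ _) h
    _ = X i j k := by
        rw [← mul_assoc, inv_mul_cancel₀ hnL, one_mul, sub_sub_cancel]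

end

/-- The shape of the characteristic polynomial of the values of an `n`-central polynomial. -/
theorem charpoly_of_ncentral {K : Type*} [Field K] [Infinite K] {σ : Type*} {n : ℕ}
    (hn : n.Prime) (hnK : (n : K) ≠ 0) (f : FreeAlgebra K σ)
    (h : ∀ X : σ → Matrix (Fin n) (Fin n) K, ∀ Z : Matrix (Fin n) (Fin n) K,
      FreeAlgebra.lift K X (f ^ n) * Z = Z * FreeAlgebra.lift K X (f ^ n))
    (hne : ∃ X : σ → Matrix (Fin n) (Fin n) K, ∃ Z : Matrix (Fin n) (Fin n) K,
      FreeAlgebra.lift K X f * Z ≠ Z * FreeAlgebra.lift K X f)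
    (X : σ → Matrix (Fin n) (Fin n) K) :
    ∃ c : K, (FreeAlgebra.lift K X f).charpoly = Polynomial.X ^ n - Polynomial.C c := by
  classical
  have : NeZero n := ⟨hn.ne_zero⟩
  set L := AlgebraicClosure K with hL
  have hnL : (n : L) ≠ 0 := by
    have := (algebraMap K L).injective.ne hnK
    simpa using this
  obtain ⟨ζ, hζ⟩ : ∃ ζ : L, IsPrimitiveRoot ζ n := by
    have : NeZero (n : L) := ⟨hnL⟩
    obtain ⟨x, hx⟩ := IsAlgClosed.exists_root (Polynomial.cyclotomic n L)
      (Polynomial.degree_cyclotomic_pos n L hn.pos).ne'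
    exact ⟨x, Polynomial.isRoot_cyclotomic_iff.mp hx⟩
  set ζ' := ζ⁻¹ with hζ'
  have hζ0 : ζ ≠ 0 := hζ.ne_zero hn.ne_zero
  have hζζ : ζ * ζ' = 1 := mul_inv_cancel₀ hζ0
  set P := FreeAlgebra.lift K (gq (σ := σ) ζ n) f with hP
  have hPmem : P ∈ qpl (A := GA L σ n) K (MvPolynomial.C ζ) (MvPolynomial.C ζ') n :=
    lift_mem _ _ (fun i => gq_mem hζ.pow_eq_one hζζ i) f
  -- the power is scalar
  have hPn : ∃ c, P ^ n = Matrix.scalar (Fin n) c := by
    have hcomm : ∀ i j : Fin n,
        Commute (Matrix.single i j (1 : MvPolynomial (Fin 2) (GA L σ n))) (P ^ n) := by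
      intro i j
      have e := transfer_comm (f ^ n) (Matrix.single i j 1) (fun X => h X _) (gq (σ := σ) ζ n)
      have e2 : (Matrix.single i j (1 : K)).map
          (algebraMap K (MvPolynomial (Fin 2) (GA L σ n))) = Matrix.single i j 1 := by
        ext1 a b
        simp only [Matrix.map_apply, Matrix.single, Matrix.of_apply]
        split_ifs <;> simp
      rw [e2, map_pow] at e
      exact e.symm
    obtain ⟨c, hc⟩ := Matrix.mem_range_scalar_iff_commute_single'.mpr hcomm
    exact ⟨c, hc.symm⟩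
  obtain ⟨c, hc⟩ := hPn
  have hspec : ∀ (X : σ → Matrix (Fin n) (Fin n) K),
      (psiq (K := K) ζ' (fun i => (X i).map (algebraMap K L))).mapMatrix P =
        (FreeAlgebra.lift K X f).map (algebraMap K L) := by
    intro X
    rw [hP, lift_map]
    have e1 : (fun i => (psiq (K := K) ζ' (fun i => (X i).map (algebraMap K L))).mapMatrix
        (gq ζ n i)) = fun i => (Algebra.ofId K L).mapMatrix (X i) := by
      funext i
      rw [psiq_gq hζ hζζ hnL]
      rfl
    rw [e1, ← lift_map]
    rfl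
  rcases dichotomy hn (hζ.map_of_injective (MvPolynomial.C_injective (σ × Fin n × Fin n) L))
    (by rw [← map_mul, hζζ, map_one]) hPmem c hc with ⟨g, hg⟩ | hcp
  · exfalso
    obtain ⟨X, Z, hXZ⟩ := hne
    apply hXZ
    have e1 := hspec X
    rw [hg] at e1
    have hinj : Function.Injective
        (fun M : Matrix (Fin n) (Fin n) K => M.map (algebraMap K L)) :=
      Matrix.map_injective (algebraMap K L).injective
    apply hinj
    show (FreeAlgebra.lift K X f * Z).map (algebraMap K L) =
      (Z * FreeAlgebra.lift K X f).map (algebraMap K L)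
    rw [Matrix.map_mul, Matrix.map_mul, ← e1]
    have e2 : (psiq (K := K) ζ' (fun i => (X i).map (algebraMap K L))).mapMatrix
        (Matrix.scalar (Fin n) g) = Matrix.scalar (Fin n)
          (psiq (K := K) ζ' (fun i => (X i).map (algebraMap K L)) g) := by
      ext1 a b
      by_cases hab : a = b
      · subst hab; simp
      · simp [hab]
    rw [e2]
    exact (Matrix.scalar_commute _ (fun _ => Commute.all _ _) _).eq
  · have hco : ∀ i, 0 < i → i < n → (FreeAlgebra.lift K X f).charpoly.coeff i = 0 := by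
      intro i hi hin
      apply (algebraMap K L).injective
      have e1 := hspec X
      rw [AlgHom.mapMatrix_apply] at e1
      have e2 := Matrix.charpoly_map P
        ((psiq (K := K) ζ' (fun i => (X i).map (algebraMap K L)) :
          MvPolynomial (Fin 2) (GA L σ n) →ₐ[K] L) : MvPolynomial (Fin 2) (GA L σ n) →+* L)
      have e3 := Matrix.charpoly_map (FreeAlgebra.lift K X f) (algebraMap K L)
      have e4 : P.map ((psiq (K := K) ζ' (fun i => (X i).map (algebraMap K L)) :
          MvPolynomial (Fin 2) (GA L σ n) →ₐ[K] L) : MvPolynomial (Fin 2) (GA L σ n) →+* L) =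
          (FreeAlgebra.lift K X f).map (algebraMap K L) := e1
      rw [e4, e3] at e2
      have e5 := congrArg (fun q => Polynomial.coeff q i) e2
      simp only [Polynomial.coeff_map, hcp i hi hin, map_zero] at e5
      rw [e5, map_zero]
    refine ⟨-(FreeAlgebra.lift K X f).charpoly.coeff 0, ?_⟩
    have hdeg : (FreeAlgebra.lift K X f).charpoly.natDegree = n := by
      rw [Matrix.charpoly_natDegree_eq_dim, Fintype.card_fin]
    have hmon := Matrix.charpoly_monic (FreeAlgebra.lift K X f)
    ext i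
    rw [Polynomial.coeff_sub, Polynomial.coeff_X_pow, Polynomial.coeff_C]
    rcases Nat.eq_zero_or_pos i with rfl | hi
    · rw [if_neg hn.ne_zero.symm, if_pos rfl]; ring
    · rw [if_neg hi.ne', sub_zero]
      rcases lt_trichotomy i n with h1 | h1 | h1
      · rw [hco i hi h1, if_neg h1.ne]
      · rw [if_pos h1, h1]
        rw [Polynomial.Monic, Polynomial.leadingCoeff, hdeg] at hmon
        exact hmon
      · rw [if_neg h1.ne']
        exact Polynomial.coeff_eq_zero_of_natDegree_lt (by rw [hdeg]; exact h1)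

end Pool.Agent.H552R3.PC
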