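import Mathlib
import Pool.Agent.H552R3.PC.DegBd3
import Pool.Agent.H552R3.PC.Quant3
import Pool.Agent.H552R3.PC.Line

/-!
Degree bound for `n`-central polynomials `f` such that `f^*` is a central multiple of `f`.
-/

namespace Pool.Agent.H552R3.PC

open Matrix

variable {K : Type*} [Field K] {σ : Type*} {n : ℕ}

/-- The leading matrix is diagonal with entries of equal `ν`-th power. -/
theorem lead_diag' {ν : ℕ} {p : PM n (GA K σ n)} (hgr : p ∈ grd (A := GA K σ n) K n)
    (hcomm : ∀ Z : Matrix (Fin n) (Fin n) K, p ^ ν * cst σ Z = cst σ Z * p ^ ν)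
    (hodd : Odd ν) {θ : Fin n →₀ ℕ} (hθ : Bd θ p) (hΛ0 : Ld θ p ≠ 0)
    (hswne : ∀ a b, Ld θ p a b ≠ 0 → Ld θ p b a ≠ 0) :
    (∀ j k, j ≠ k → Ld θ p j k = 0) ∧ (∃ c, ∀ j, Ld θ p j j ^ ν = c) ∧
      (∃ j, Ld θ p j j ≠ 0) ∧ Finsupp.weight (wt n) θ = 0 := by
  classical
  set Λ := Ld θ p with hΛ
  have hΛscal : ∀ i j : Fin n, Commute (Matrix.single i j (1 : GA K σ n)) (Λ ^ ν) := by
    intro i j
    have hb := Bd_cst (σ := σ) (Matrix.single i j (1 : K))
    have e1 := Ld_mul (Bd_pow hθ ν) hb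
    have e2 := Ld_mul hb (Bd_pow hθ ν)
    rw [add_zero] at e1
    rw [zero_add] at e2
    rw [hcomm, e2, Ld_cst_single, Ld_pow hθ] at e1
    exact e1
  obtain ⟨c, hc⟩ := Matrix.mem_range_scalar_iff_commute_single'.mpr hΛscal
  have hdiag : ∀ j k, j ≠ k → Λ j k = 0 := by
    intro j k hjk
    by_contra hx
    have hsupp : ∀ a b, Λ a b ≠ 0 → (a = j ∧ b = k) ∨ (a = k ∧ b = j) := by
      intro a b hab
      apply wt_pair hjk
      rw [← grd_Ld hgr θ a b hab, ← grd_Ld hgr θ j k hx]
    obtain ⟨m, hm⟩ := hodd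
    have := offdiag Λ hjk hx (hswne j k hx) hsupp m
    apply this
    rw [← hm, ← hc]
    simp [hjk]
  have hdiag' : Λ = Matrix.diagonal (fun j => Λ j j) := by
    ext1 j k
    by_cases e : j = k
    · subst e; simp
    · rw [hdiag j k e, Matrix.diagonal_apply_ne _ e]
  have hj0 : ∃ j, Λ j j ≠ 0 := by
    by_contra hcon
    push Not at hcon
    apply hΛ0
    rw [hdiag']
    ext1 a b
    by_cases e : a = b
    · subst e; simp [hcon]
    · rw [Matrix.diagonal_apply_ne _ e, Matrix.zero_apply]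
  refine ⟨hdiag, ⟨c, fun j => ?_⟩, hj0, ?_⟩
  · have e := congrFun (congrFun hc j) j
    rw [hdiag', Matrix.diagonal_pow] at e
    simp at e
    exact e.symm
  · obtain ⟨j0, hj0⟩ := hj0
    rw [grd_Ld hgr θ j0 j0 hj0]
    funext x; simp only [Pi.add_apply, Pi.zero_apply]; exact CharTwo.add_self_eq_zero _

theorem sw_inj (ε : σ → K) (hε : ∀ i, ε i = 1 ∨ ε i = -1) :
    Function.Injective (sw ε n) := by
  intro a b h
  rw [← sw_sw ε hε a, h, sw_sw ε hε b]

theorem degree_mapSw (ε : σ → K) (hε : ∀ i, ε i = 1 ∨ ε i = -1)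
    (g : MvPolynomial (Fin n) (GA K σ n)) :
    (mo n).degree (MvPolynomial.mapAlgHom (sw ε n) g) = (mo n).degree g := by
  have hs : (MvPolynomial.mapAlgHom (sw ε n) g).support = g.support := by
    ext θ
    rw [MvPolynomial.mem_support_iff, MvPolynomial.mem_support_iff, coeff_mapSw]
    exact (map_ne_zero_iff _ (sw_inj ε hε))
  apply (mo n).toSyn.injective
  apply le_antisymm
  · exact MonomialOrder.degree_le_degree_of_support_subset hs.le
  · exact MonomialOrder.degree_le_degree_of_support_subset hs.ge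

/-- The leading matrix of `p` has symmetric support if `A pᵀ = B s(p)`. -/
theorem swne_of_line (ε : σ → K) (hε : ∀ i, ε i = 1 ∨ ε i = -1) {p : PM n (GA K σ n)}
    {A B : MvPolynomial (Fin n) (GA K σ n)} (hA : A ≠ 0)
    (h : ∀ j k, A * p k j = B * MvPolynomial.mapAlgHom (sw ε n) (p j k))
    {θ : Fin n →₀ ℕ} (hθ : Bd θ p) (j k : Fin n) (hjk : Ld θ p j k ≠ 0) : Ld θ p k j ≠ 0 := by
  have hpjk : p j k ≠ 0 := by
    intro h0
    apply hjk
    show MvPolynomial.coeff θ (p j k) = 0
    rw [h0, MvPolynomial.coeff_zero]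
  have hdeg : (mo n).toSyn ((mo n).degree (p j k)) = (mo n).toSyn θ :=
    le_antisymm (hθ j k) ((mo n).le_degree (MvPolynomial.mem_support_iff.mpr hjk))
  have hspjk : MvPolynomial.mapAlgHom (sw ε n) (p j k) ≠ 0 := by
    intro h0
    apply hjk
    have e := coeff_mapSw ε θ (p j k)
    rw [h0, MvPolynomial.coeff_zero] at e
    show MvPolynomial.coeff θ (p j k) = 0
    exact (sw_inj ε hε) (by rw [← e, map_zero])
  -- `p k j ≠ 0` and `B ≠ 0`
  have h1 := h j k
  have h2 := h k j
  have hB : B ≠ 0 := by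
    intro h0
    rw [h0, zero_mul] at h2
    exact mul_ne_zero hA hpjk h2
  have hpkj : p k j ≠ 0 := by
    intro h0
    rw [h0, mul_zero] at h1
    exact mul_ne_zero hB hspjk h1.symm
  have hspkj : MvPolynomial.mapAlgHom (sw ε n) (p k j) ≠ 0 := by
    intro h0
    rw [h0, mul_zero] at h2
    exact mul_ne_zero hA hpjk h2
  have d1 := congrArg (fun g => (mo n).toSyn ((mo n).degree g)) h1
  have d2 := congrArg (fun g => (mo n).toSyn ((mo n).degree g)) h2
  simp only [MonomialOrder.degree_mul hA hpkj, MonomialOrder.degree_mul hB hspjk,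
    MonomialOrder.degree_mul hA hpjk, MonomialOrder.degree_mul hB hspkj,
    degree_mapSw ε hε, map_add] at d1 d2
  rw [hdeg] at d1 d2
  set α := (mo n).toSyn ((mo n).degree A)
  set β := (mo n).toSyn ((mo n).degree B)
  set δ := (mo n).toSyn ((mo n).degree (p k j)) with hδ
  have hδle : δ ≤ (mo n).toSyn θ := hθ k j
  have hβα : β ≤ α := by
    have : β + (mo n).toSyn θ ≤ α + (mo n).toSyn θ := by
      rw [← d1]; exact add_le_add le_rfl hδle
    exact le_of_add_le_add_right this
  have hαβ : α ≤ β := by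
    have : α + (mo n).toSyn θ ≤ β + (mo n).toSyn θ := by
      rw [d2]; exact add_le_add le_rfl hδle
    exact le_of_add_le_add_right this
  have heq : α = β := le_antisymm hαβ hβα
  rw [heq] at d1
  have hfin : δ = (mo n).toSyn θ := add_left_cancel d1
  have hθd : (mo n).degree (p k j) = θ := (mo n).toSyn.injective hfin
  show MvPolynomial.coeff θ (p k j) ≠ 0
  rw [← hθd]
  exact (MonomialOrder.coeff_degree_ne_zero_iff (m := mo n)).mpr hpkj

theorem deg_bound' [Infinite K] (hodd : Odd n) (hn1 : n ≠ 1) (hnK : (n : K) ≠ 0)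
    (ε : σ → K) (hε : ∀ i, ε i = 1 ∨ ε i = -1) (f a b : FreeAlgebra K σ)
    (ha : ∀ X : σ → Matrix (Fin n) (Fin n) K, ∃ c : K,
      FreeAlgebra.lift K X a = Matrix.scalar (Fin n) c)
    (hb : ∀ X : σ → Matrix (Fin n) (Fin n) K, ∃ c : K,
      FreeAlgebra.lift K X b = Matrix.scalar (Fin n) c)
    (ha0 : ∃ X : σ → Matrix (Fin n) (Fin n) K, FreeAlgebra.lift K X a ≠ 0)
    (hab : ∀ X : σ → Matrix (Fin n) (Fin n) K,
      FreeAlgebra.lift K X (a * rev ε f) = FreeAlgebra.lift K X (b * f))
    (hchar : ∀ X : σ → Matrix (Fin n) (Fin n) K,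
      ∃ c : K, (FreeAlgebra.lift K X f).charpoly = Polynomial.X ^ n - Polynomial.C c)
    (hne0 : ∃ X : σ → Matrix (Fin n) (Fin n) K, FreeAlgebra.lift K X f ≠ 0)
    (d : ℕ) (hd : DegLE d f) : n * (n + 1) ≤ 2 * d := by
  classical
  -- the power `f ^ n` is scalar valued
  have hpow : ∀ X : σ → Matrix (Fin n) (Fin n) K, ∀ Z : Matrix (Fin n) (Fin n) K,
      FreeAlgebra.lift K X (f ^ n) * Z = Z * FreeAlgebra.lift K X (f ^ n) := by
    intro X Z
    obtain ⟨c, hc⟩ := hchar X
    have h1 := Matrix.aeval_self_charpoly (FreeAlgebra.lift K X f)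
    rw [hc, map_sub, map_pow, Polynomial.aeval_X, Polynomial.aeval_C, sub_eq_zero] at h1
    rw [map_pow, h1]
    exact Algebra.commutes c Z
  set p := FreeAlgebra.lift K (dsd K σ n) f with hp
  have hgr : p ∈ grd (A := GA K σ n) K n := lift_mem _ _ dsd_grd f
  have hcm : ∀ Z : Matrix (Fin n) (Fin n) K, p ^ n * cst σ Z = cst σ Z * p ^ n := by
    intro Z
    have := transfer_comm (f ^ n) Z (fun X => hpow X Z) (dsd K σ n)
    rwa [map_pow] at this
  -- scalar values of `a` and `b`
  have hscal : ∀ g : FreeAlgebra K σ, (∀ X : σ → Matrix (Fin n) (Fin n) K, ∃ c : K,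
      FreeAlgebra.lift K X g = Matrix.scalar (Fin n) c) →
      ∃ G, FreeAlgebra.lift K (dsd K σ n) g = Matrix.scalar (Fin n) G := by
    intro g hg
    have hcomm : ∀ i j : Fin n,
        Commute (Matrix.single i j (1 : MvPolynomial (Fin n) (GA K σ n)))
          (FreeAlgebra.lift K (dsd K σ n) g) := by
      intro i j
      have e := transfer_comm g (Matrix.single i j 1) (fun X => by
        obtain ⟨c, hc⟩ := hg X
        rw [hc]
        exact (Matrix.scalar_commute c (fun _ => Commute.all _ _) _).eq) (dsd K σ n)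
      have e2 : (Matrix.single i j (1 : K)).map
          (algebraMap K (MvPolynomial (Fin n) (GA K σ n))) = Matrix.single i j 1 := by
        ext1 a b
        simp only [Matrix.map_apply, Matrix.single, Matrix.of_apply]
        split_ifs <;> simp
      rw [e2] at e
      exact e.symm
    obtain ⟨c, hc⟩ := Matrix.mem_range_scalar_iff_commute_single'.mpr hcomm
    exact ⟨c, hc.symm⟩
  obtain ⟨A, hA⟩ := hscal a ha
  obtain ⟨B, hB⟩ := hscal b hb
  -- specialisation
  have hspec : ∀ (X : σ → Matrix (Fin n) (Fin n) K) (g : FreeAlgebra K σ),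
      FreeAlgebra.lift K (dsd K σ n) g = 0 → FreeAlgebra.lift K X g = 0 := by
    intro X g h0
    let ψ : MvPolynomial (Fin n) (GA K σ n) →ₐ[K] K :=
      (spz X).comp ((MvPolynomial.aeval (R := GA K σ n)
        (fun _ : Fin n => (1 : GA K σ n))).restrictScalars K)
    have hψ : (fun i => ψ.mapMatrix (dsd K σ n i)) = X := by
      funext i
      ext b c
      simp [ψ, dsd, spz]
    have e := congrArg (AlgHom.mapMatrix (m := Fin n) ψ) h0
    rw [lift_map, hψ, map_zero] at e
    exact e
  have hp0 : p ≠ 0 := by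
    intro h0
    obtain ⟨X, hX⟩ := hne0
    exact hX (hspec X f h0)
  have hA0 : A ≠ 0 := by
    intro h0
    obtain ⟨X, hX⟩ := ha0
    exact hX (hspec X a (by rw [hA, h0, map_zero]))
  -- the relation `A' pᵀ = B' s(p)`
  set s := MvPolynomial.mapAlgHom (σ := Fin n) (sw ε n) with hs
  have hrel : ∀ j k, s A * p k j = s B * s (p j k) := by
    intro j k
    have e := transpose_lift s ε (dsd K σ n) (dsd_transpose ε hε) f
    have e1 : p k j = s (FreeAlgebra.lift K (dsd K σ n) (rev ε f) j k) :=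
      congrFun (congrFun e j) k
    have e2 := transfer (a * rev ε f - b * f) (fun X => by rw [map_sub, hab, sub_self])
      (dsd K σ n)
    rw [map_sub, sub_eq_zero, map_mul, map_mul, hA, hB] at e2
    have e3 := congrFun (congrFun e2 j) k
    rw [Matrix.scalar_apply, Matrix.scalar_apply, Matrix.diagonal_mul, Matrix.diagonal_mul] at e3
    rw [e1, ← map_mul, e3, map_mul]
  have hsA : s A ≠ 0 := by
    intro h0
    apply hA0
    ext1 θ
    have e := coeff_mapSw ε θ A
    rw [← hs, h0, MvPolynomial.coeff_zero] at e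
    rw [MvPolynomial.coeff_zero]
    exact sw_inj ε hε (by rw [← e, map_zero])
  obtain ⟨θ, hθ, hΛ⟩ := exists_lead p hp0
  obtain ⟨hdiag, ⟨c, hpw⟩, ⟨j0, hj0⟩, hw⟩ := lead_diag' hgr hcm hodd hθ hΛ
    (fun a b hab => swne_of_line ε hε hsA hrel hθ a b hab)
  have hn0 : 0 < n := hodd.pos
  have hne : ∀ j, Ld θ p j j ≠ 0 := by
    intro j h0
    have h1 := hpw j
    rw [h0, zero_pow hn0.ne'] at h1
    have h2 := hpw j0
    rw [← h1] at h2
    exact hj0 (pow_eq_zero_iff hn0.ne' |>.mp h2)
  have hcp : ∀ i, 0 < i → i < n → p.charpoly.coeff i = 0 := by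
    intro i hi hin
    refine transfer_charpoly f i (fun X => ?_) _
    obtain ⟨c, hc⟩ := hchar X
    rw [hc, Polynomial.coeff_sub, Polynomial.coeff_X_pow, Polynomial.coeff_C,
      if_neg hin.ne, if_neg hi.ne', sub_self]
  have hdist := lead_distinct hnK hcp hθ hdiag hne
  have hinj : Function.Injective θ := by
    intro j k hjk
    by_contra hne'
    exact hdist j k hne' (lead_eq_of_exp_eq f hodd hpw hne j k hjk)
  have heven : ∀ j, Even (θ j) := by
    intro j
    have h1 := congrFun hw j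
    rw [Finsupp.weight_apply, Finsupp.sum_fintype _ _ (by simp)] at h1
    simp only [Finset.sum_apply, Pi.smul_apply, wt, Pi.single_apply, Pi.zero_apply] at h1
    rw [Finset.sum_eq_single j] at h1
    · simp only [if_true, nsmul_eq_mul, mul_one] at h1
      exact (ZMod.natCast_eq_zero_iff_even).mp h1
    · intro b _ hb
      rw [if_neg (fun e => hb e.symm), smul_zero]
    · intro h; exact absurd (Finset.mem_univ _) h
  obtain ⟨hdeg, c0, hc0⟩ := deg_props (n := n) hd
  have hθ0 : θ ≠ 0 := by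
    intro h0
    have h2 : (⟨0, by omega⟩ : Fin n) = ⟨1, by
        rcases hodd with ⟨m, hm⟩
        omega⟩ := by
      apply hinj
      rw [h0]; rfl
    exact absurd (congrArg Fin.val h2) (by norm_num)
  have hge : ∀ j, 2 ≤ θ j := by
    intro j
    by_contra hlt
    push Not at hlt
    apply hne j
    obtain ⟨g, hg'⟩ := hc0 j
    have h1 : p j j = MvPolynomial.C (MvPolynomial.C c0) + MvPolynomial.X j ^ 2 * g := by
      rw [← hg']
      have : (algebraMap K (MvPolynomial (Fin n) (GA K σ n))) c0 =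
        MvPolynomial.C (MvPolynomial.C c0) := rfl
      rw [← hp, this]; ring
    show MvPolynomial.coeff θ (p j j) = 0
    rw [h1, MvPolynomial.coeff_add, MvPolynomial.coeff_C, if_neg (fun e => hθ0 e.symm), zero_add,
      MvPolynomial.X_pow_eq_monomial, MvPolynomial.coeff_monomial_mul', if_neg]
    intro hle
    have := hle j
    rw [Finsupp.single_eq_same] at this
    omega
  have hsum : ∑ j, θ j ≤ 2 * d := by
    have hmem : θ ∈ (p j0 j0).support := MvPolynomial.mem_support_iff.mpr hj0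
    have h1 := MvPolynomial.le_totalDegree hmem
    rw [Finsupp.sum_fintype _ _ (fun _ => rfl)] at h1
    exact h1.trans (hdeg j0 j0)
  have hhalf : ∀ j, θ j = 2 * (θ j / 2) := by
    intro j
    obtain ⟨m, hm⟩ := heven j
    omega
  have hfin := sum_inj_ge (fun j => θ j / 2) (fun a b hab => hinj (by
    have h1 := hhalf a
    have h2 := hhalf b
    simp only at hab
    rw [h1, h2, hab])) (fun j => by have := hge j; omega)
  have h3 : ∑ j, θ j = 2 * ∑ j, θ j / 2 := by
    rw [Finset.mul_sum]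
    exact Finset.sum_congr rfl fun j _ => hhalf j
  omega

end Pool.Agent.H552R3.PC
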